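import Pool.Agent.Expand.Defs

/-!
# MP_c0b923_gt, package Chain: chains above a segment (discrete path lifting)

`IsChain f N a x x' w`: the points `w 0 = x, ..., w N = x'` lie in the cube `|.| ≤ a`, their images
are
the points dividing the segment from `f x` to `f x'` into `N` equal parts, and steps are not longer
than the steps of the images. `Hyp` collects the standing assumptions on `f`.

PROOFS. (C.2 of /team-store/CUBE.md.) For a chain, `dist (f (w s.succ)) (f (w s.castSucc)) =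
dist (f x') (f x) / N ≤ 2 r / N < δ / 2` (all points of the cube are mapped into `closedBall q
r`), so
`dist (w s.succ) (w s.castSucc) < δ / 2`.
`chain_unique`: induction on `s`: `dist (w (s+1)) (w' (s+1)) < δ` by the triangle inequality, both
points
have the same image, `hloc`.
`isCompact_EE`, `continuousOn_ch`: the set `K` of `(x, x', w)` in the compact set of points of the
cube
`|.| ≤ a` with `IsChain` is closed (`f` is continuous on the cube `|.| ≤ a ≤ 1`), hence compact; the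
projection `π : K → E × E` is continuous and injective (`chain_unique`) with image `EE`. So `EE` is
compact, and `ch` is the second component of the inverse of a homeomorphism (or: for a closed set
`F`
of chains the set `{z ∈ EE | ch z ∈ F}` is the image of the compact set `K ∩ (E × E × F)`).
`isOpen_EE0`: let `w` be the chain of `(x, x') ∈ EE0`. For `(y, y')` with `|y - x|`, `|y' - x'|`
small:
`κ = max (dist (f y) (f x)) (dist (f y') (f x'))` is as small as we like (`f` is continuous at `x`,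
`x'`,
interior points of the cube). By `hinv` at `z = w s` there is `w' s` in the cube with
`f (w' s) = f y + (s / N) • (f y' - f y)` and `dist (w' s) (w s) ≤ κ`. `w' 0 = y` and `w' N = y'`
by `hloc`
(`dist < δ`, equal images); `dist (w' (s+1)) (w' s) ≤ 2 κ + δ / 2 < δ`, so `hloc` gives the step
condition; `|w' s i| < a` for small `κ` since the finitely many `|w s i|` are `< a`.
`ch_eq`: uniqueness. `isChain_const`: direct (`w s = x`).
-/

set_option autoImplicit false

open Metric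

namespace Pool.Agent.CubeE

open Pool.Agent.Expand

variable {n : ℕ}

/-- standing assumptions -/
structure Hyp (f : EuclideanSpace ℝ (Fin n) → EuclideanSpace ℝ (Fin n)) (N : ℕ) (a δ r : ℝ)
    (q : EuclideanSpace ℝ (Fin n)) : Prop where
  ha0 : 0 < a
  ha1 : a < 1
  hδ : 0 < δ
  hN0 : 0 < N
  hN : 4 * r < δ * N
  hf : ContinuousOn f (cube n)
  hr : ∀ x ∈ cube n, dist (f x) q ≤ r
  hloc : ∀ y ∈ cube n, ∀ z ∈ cube n, dist y z < δ → dist y z ≤ dist (f y) (f z)
  hinv : ∀ z : EuclideanSpace ℝ (Fin n), (∀ i, |z i| ≤ a) → ∀ w, dist w (f z) < δ →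
    ∃ y ∈ cube n, f y = w ∧ dist y z ≤ dist w (f z)

/-- chains -/
def IsChain (f : EuclideanSpace ℝ (Fin n) → EuclideanSpace ℝ (Fin n)) (N : ℕ) (a : ℝ)
    (x x' : EuclideanSpace ℝ (Fin n)) (w : Fin (N + 1) → EuclideanSpace ℝ (Fin n)) : Prop :=
  w 0 = x ∧ w (Fin.last N) = x' ∧ (∀ s i, |w s i| ≤ a) ∧
  (∀ s, f (w s) = f x + ((s : ℕ) / N : ℝ) • (f x' - f x)) ∧
  ∀ s : Fin N, dist (w s.succ) (w s.castSucc) ≤ dist (f (w s.succ)) (f (w s.castSucc))

/-- pairs joined by a chain -/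
def EE (f : EuclideanSpace ℝ (Fin n) → EuclideanSpace ℝ (Fin n)) (N : ℕ) (a : ℝ) :
    Set (EuclideanSpace ℝ (Fin n) × EuclideanSpace ℝ (Fin n)) :=
  {z | ∃ w, IsChain f N a z.1 z.2 w}

/-- pairs joined by a chain in the open cube -/
def EE0 (f : EuclideanSpace ℝ (Fin n) → EuclideanSpace ℝ (Fin n)) (N : ℕ) (a : ℝ) :
    Set (EuclideanSpace ℝ (Fin n) × EuclideanSpace ℝ (Fin n)) :=
  {z | ∃ w, IsChain f N a z.1 z.2 w ∧ ∀ s i, |w s i| < a}

open Classical in
/-- the chain of a pair -/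
noncomputable def ch (f : EuclideanSpace ℝ (Fin n) → EuclideanSpace ℝ (Fin n)) (N : ℕ) (a : ℝ)
    (z : EuclideanSpace ℝ (Fin n) × EuclideanSpace ℝ (Fin n)) :
    Fin (N + 1) → EuclideanSpace ℝ (Fin n) :=
  if h : ∃ w, IsChain f N a z.1 z.2 w then h.choose else 0

theorem EE0_subset (f : EuclideanSpace ℝ (Fin n) → EuclideanSpace ℝ (Fin n)) (N : ℕ) (a : ℝ) :
    EE0 f N a ⊆ EE f N a := by
  rintro z ⟨w, hw, _⟩
  exact ⟨w, hw⟩

theorem isChain_ch {f : EuclideanSpace ℝ (Fin n) → EuclideanSpace ℝ (Fin n)} {N : ℕ} {a : ℝ}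
    {z : EuclideanSpace ℝ (Fin n) × EuclideanSpace ℝ (Fin n)} (hz : z ∈ EE f N a) :
    IsChain f N a z.1 z.2 (ch f N a z) := by
  have hz' : ∃ w, IsChain f N a z.1 z.2 w := hz
  rw [ch, dif_pos hz']
  exact hz'.choose_spec

theorem chain_mem {f : EuclideanSpace ℝ (Fin n) → EuclideanSpace ℝ (Fin n)} {N : ℕ}
    {a δ r : ℝ} {q : EuclideanSpace ℝ (Fin n)} (H : Hyp f N a δ r q)
    {x x' : EuclideanSpace ℝ (Fin n)} {w : Fin (N + 1) → EuclideanSpace ℝ (Fin n)}
    (h : IsChain f N a x x' w) (s : Fin (N + 1)) : w s ∈ cube n :=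
  fun i => (h.2.2.1 s i).trans H.ha1.le

theorem chain_image {f : EuclideanSpace ℝ (Fin n) → EuclideanSpace ℝ (Fin n)} {N : ℕ}
    {a : ℝ} {x x' : EuclideanSpace ℝ (Fin n)}
    {w : Fin (N + 1) → EuclideanSpace ℝ (Fin n)} (h : IsChain f N a x x' w) (s : Fin N) :
    dist (f (w s.succ)) (f (w s.castSucc)) = dist (f x') (f x) / N := by
  rw [h.2.2.2.1, h.2.2.2.1, dist_add_left, dist_eq_norm, ← sub_smul, norm_smul, dist_eq_norm,
    Real.norm_eq_abs, Fin.val_succ, Fin.val_castSucc, ← sub_div]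
  have h1 : ((s : ℕ) + 1 : ℕ) - ((s : ℕ) : ℝ) = 1 := by push_cast; ring
  rw [h1, abs_of_nonneg (by positivity)]
  ring

theorem chain_step {f : EuclideanSpace ℝ (Fin n) → EuclideanSpace ℝ (Fin n)} {N : ℕ}
    {a δ r : ℝ} {q : EuclideanSpace ℝ (Fin n)} (H : Hyp f N a δ r q)
    {x x' : EuclideanSpace ℝ (Fin n)} {w : Fin (N + 1) → EuclideanSpace ℝ (Fin n)}
    (h : IsChain f N a x x' w) (s : Fin N) : dist (w s.succ) (w s.castSucc) < δ / 2 := by
  refine (h.2.2.2.2 s).trans_lt ?_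
  rw [chain_image h]
  have h1 : dist (f x) q ≤ r := by
    have := H.hr _ (chain_mem H h 0)
    rwa [h.1] at this
  have h2 : dist (f x') q ≤ r := by
    have := H.hr _ (chain_mem H h (Fin.last N))
    rwa [h.2.1] at this
  have h3 : dist (f x') (f x) ≤ r + r :=
    (dist_triangle_right _ _ q).trans (add_le_add h2 h1)
  have h4 : (0 : ℝ) < N := Nat.cast_pos.mpr H.hN0
  rw [div_lt_iff₀ h4]
  have := H.hN
  linarith

theorem chain_unique {f : EuclideanSpace ℝ (Fin n) → EuclideanSpace ℝ (Fin n)} {N : ℕ}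
    {a δ r : ℝ} {q : EuclideanSpace ℝ (Fin n)} (H : Hyp f N a δ r q)
    {x x' : EuclideanSpace ℝ (Fin n)} {w w' : Fin (N + 1) → EuclideanSpace ℝ (Fin n)}
    (h : IsChain f N a x x' w) (h' : IsChain f N a x x' w') : w = w' := by
  funext s
  induction s using Fin.induction with
  | zero => rw [h.1, h'.1]
  | succ s ih =>
    have h1 := chain_step H h s
    have h2 := chain_step H h' s
    rw [← ih] at h2
    have h3 : dist (w s.succ) (w' s.succ) < δ :=
      (dist_triangle_right _ _ (w s.castSucc)).trans_lt (by linarith)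
    have h4 := H.hloc _ (chain_mem H h s.succ) _ (chain_mem H h' s.succ) h3
    rw [h.2.2.2.1, h'.2.2.2.1, dist_self] at h4
    exact dist_le_zero.mp h4

theorem ch_eq {f : EuclideanSpace ℝ (Fin n) → EuclideanSpace ℝ (Fin n)} {N : ℕ}
    {a δ r : ℝ} {q : EuclideanSpace ℝ (Fin n)} (H : Hyp f N a δ r q)
    {x x' : EuclideanSpace ℝ (Fin n)} {w : Fin (N + 1) → EuclideanSpace ℝ (Fin n)}
    (h : IsChain f N a x x' w) : (x, x') ∈ EE f N a ∧ ch f N a (x, x') = w := by
  have h1 : (x, x') ∈ EE f N a := ⟨w, h⟩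
  exact ⟨h1, chain_unique H (isChain_ch h1) h⟩

/-- the pairs with their chains -/
private def KK (f : EuclideanSpace ℝ (Fin n) → EuclideanSpace ℝ (Fin n)) (N : ℕ) (a : ℝ) :
    Set ((EuclideanSpace ℝ (Fin n) × EuclideanSpace ℝ (Fin n)) ×
      (Fin (N + 1) → EuclideanSpace ℝ (Fin n))) :=
  {p | IsChain f N a p.1.1 p.1.2 p.2}

private theorem isCompact_Q (a : ℝ) :
    IsCompact {x : EuclideanSpace ℝ (Fin n) | ∀ i, |x i| ≤ a} := by
  have h1 : IsCompact (Set.univ.pi fun _ : Fin n => Set.Icc (-a) a) :=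
    isCompact_univ_pi fun _ => isCompact_Icc
  have h2 := h1.image (PiLp.continuous_toLp 2 fun _ : Fin n => ℝ)
  convert h2 using 1
  ext x
  constructor
  · intro hx
    exact ⟨WithLp.ofLp x, fun i _ => abs_le.mp (hx i), rfl⟩
  · rintro ⟨y, hy, rfl⟩ i
    exact abs_le.mpr (hy i trivial)

/-- the closed small cube -/
private def QQ (n : ℕ) (a : ℝ) : Set (EuclideanSpace ℝ (Fin n)) := {x | ∀ i, |x i| ≤ a}

/-- all points in the small cube -/
private def PP (n N : ℕ) (a : ℝ) : Set ((EuclideanSpace ℝ (Fin n) × EuclideanSpace ℝ (Fin n)) ×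
    (Fin (N + 1) → EuclideanSpace ℝ (Fin n))) :=
  (QQ n a ×ˢ QQ n a) ×ˢ Set.univ.pi fun _ => QQ n a

private theorem isCompact_PP (N : ℕ) (a : ℝ) : IsCompact (PP n N a) :=
  ((isCompact_Q a).prod (isCompact_Q a)).prod (isCompact_univ_pi fun _ => isCompact_Q a)

private theorem cont_fst (N : ℕ) (a : ℝ)
    {f : EuclideanSpace ℝ (Fin n) → EuclideanSpace ℝ (Fin n)} (hf : ContinuousOn f (QQ n a)) :
    ContinuousOn (fun p : (EuclideanSpace ℝ (Fin n) × EuclideanSpace ℝ (Fin n)) ×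
      (Fin (N + 1) → EuclideanSpace ℝ (Fin n)) => f p.1.1) (PP n N a) :=
  hf.comp (continuous_fst.comp continuous_fst).continuousOn fun _ hp => hp.1.1

private theorem cont_snd (N : ℕ) (a : ℝ)
    {f : EuclideanSpace ℝ (Fin n) → EuclideanSpace ℝ (Fin n)} (hf : ContinuousOn f (QQ n a)) :
    ContinuousOn (fun p : (EuclideanSpace ℝ (Fin n) × EuclideanSpace ℝ (Fin n)) ×
      (Fin (N + 1) → EuclideanSpace ℝ (Fin n)) => f p.1.2) (PP n N a) :=
  hf.comp (continuous_snd.comp continuous_fst).continuousOn fun _ hp => hp.1.2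

private theorem cont_pt (N : ℕ) (a : ℝ)
    {f : EuclideanSpace ℝ (Fin n) → EuclideanSpace ℝ (Fin n)} (hf : ContinuousOn f (QQ n a))
    (s : Fin (N + 1)) :
    ContinuousOn (fun p : (EuclideanSpace ℝ (Fin n) × EuclideanSpace ℝ (Fin n)) ×
      (Fin (N + 1) → EuclideanSpace ℝ (Fin n)) => f (p.2 s)) (PP n N a) :=
  hf.comp ((continuous_apply s).comp continuous_snd).continuousOn fun _ hp => hp.2 s trivial

private theorem closed_eq {A B : Type*} [TopologicalSpace A] [MetricSpace B] {P : Set A}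
    (hP : IsClosed P) {F G : A → B} (hF : ContinuousOn F P) (hG : ContinuousOn G P) :
    IsClosed {p | p ∈ P ∧ F p = G p} := by
  have h1 := hP.isClosed_le (continuous_dist.comp_continuousOn (hF.prodMk hG))
    (continuousOn_const (c := (0 : ℝ)))
  convert h1 using 1
  ext p
  exact and_congr Iff.rfl dist_le_zero.symm

private theorem closed_dist {A B : Type*} [TopologicalSpace A] [MetricSpace B] {P : Set A}
    (hP : IsClosed P) {F G F' G' : A → B} (hF : ContinuousOn F P) (hG : ContinuousOn G P)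
    (hF' : ContinuousOn F' P) (hG' : ContinuousOn G' P) :
    IsClosed {p | p ∈ P ∧ dist (F p) (G p) ≤ dist (F' p) (G' p)} :=
  hP.isClosed_le (continuous_dist.comp_continuousOn (hF.prodMk hG))
    (continuous_dist.comp_continuousOn (hF'.prodMk hG'))

private theorem isCompact_KK {f : EuclideanSpace ℝ (Fin n) → EuclideanSpace ℝ (Fin n)} {N : ℕ}
    {a δ r : ℝ} {q : EuclideanSpace ℝ (Fin n)} (H : Hyp f N a δ r q) :
    IsCompact (KK f N a) := by
  have hPcl : IsClosed (PP n N a) := (isCompact_PP N a).isClosed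
  have hf : ContinuousOn f (QQ n a) := H.hf.mono fun x hx i => (hx i).trans H.ha1.le
  have hid : ContinuousOn (id : EuclideanSpace ℝ (Fin n) → EuclideanSpace ℝ (Fin n)) (QQ n a) :=
    continuousOn_id
  have h1 := closed_eq hPcl (cont_pt N a hid 0) (cont_fst N a hid)
  have h2 := closed_eq hPcl (cont_pt N a hid (Fin.last N)) (cont_snd N a hid)
  have h3 := isClosed_iInter fun s : Fin (N + 1) => closed_eq hPcl (cont_pt N a hf s)
    ((cont_fst N a hf).add (((cont_snd N a hf).sub (cont_fst N a hf)).const_smul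
      ((s : ℕ) / N : ℝ)))
  have h4 := hPcl.inter (isClosed_iInter fun s : Fin N => closed_dist hPcl
    (cont_pt N a hid s.succ) (cont_pt N a hid s.castSucc) (cont_pt N a hf s.succ)
    (cont_pt N a hf s.castSucc))
  have hsub : ∀ p ∈ KK f N a, p ∈ PP n N a := by
    rintro p ⟨k1, k2, k3, -, -⟩
    exact ⟨⟨by rw [← k1]; exact k3 0, by rw [← k2]; exact k3 _⟩, fun s _ => k3 s⟩
  refine (isCompact_PP N a).of_isClosed_subset ?_ hsub
  have h5 := ((h1.inter h2).inter h3).inter h4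
  convert h5 using 1
  ext p
  constructor
  · intro hp
    have hp' := hsub p hp
    obtain ⟨k1, k2, k3, k4, k5⟩ := hp
    exact ⟨⟨⟨⟨hp', k1⟩, hp', k2⟩, Set.mem_iInter.mpr fun s => ⟨hp', k4 s⟩⟩, hp',
      Set.mem_iInter.mpr fun s => ⟨hp', k5 s⟩⟩
  · rintro ⟨⟨⟨⟨hp, k1⟩, _, k2⟩, k4⟩, _, k5⟩
    rw [Set.mem_iInter] at k4 k5
    exact ⟨k1, k2, fun s => hp.2 s trivial, fun s => (k4 s).2, fun s => (k5 s).2⟩

theorem isCompact_EE {f : EuclideanSpace ℝ (Fin n) → EuclideanSpace ℝ (Fin n)} {N : ℕ}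
    {a δ r : ℝ} {q : EuclideanSpace ℝ (Fin n)} (H : Hyp f N a δ r q) :
    IsCompact (EE f N a) := by
  have h1 := (isCompact_KK H).image continuous_fst
  convert h1 using 1
  ext z
  constructor
  · rintro ⟨w, hw⟩
    exact ⟨(z, w), hw, rfl⟩
  · rintro ⟨p, hp, rfl⟩
    exact ⟨p.2, hp⟩

theorem continuousOn_ch {f : EuclideanSpace ℝ (Fin n) → EuclideanSpace ℝ (Fin n)} {N : ℕ}
    {a δ r : ℝ} {q : EuclideanSpace ℝ (Fin n)} (H : Hyp f N a δ r q) :
    ContinuousOn (ch f N a) (EE f N a) := by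
  rw [continuousOn_iff_isClosed]
  intro t ht
  refine ⟨Prod.fst '' (KK f N a ∩ Prod.snd ⁻¹' t),
    (((isCompact_KK H).inter_right (ht.preimage continuous_snd)).image
      continuous_fst).isClosed, ?_⟩
  ext z
  constructor
  · rintro ⟨h1, h2⟩
    exact ⟨⟨(z, ch f N a z), ⟨isChain_ch h2, h1⟩, rfl⟩, h2⟩
  · rintro ⟨⟨p, ⟨h1, h2⟩, rfl⟩, h3⟩
    refine ⟨?_, h3⟩
    have h4 : ch f N a p.1 = p.2 := chain_unique H (isChain_ch h3) h1
    rw [Set.mem_preimage, h4]
    exact h2

theorem isOpen_EE0 {f : EuclideanSpace ℝ (Fin n) → EuclideanSpace ℝ (Fin n)} {N : ℕ}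
    {a δ r : ℝ} {q : EuclideanSpace ℝ (Fin n)} (H : Hyp f N a δ r q) :
    IsOpen (EE0 f N a) := by
  rw [isOpen_iff_mem_nhds]
  rintro ⟨x, x'⟩ ⟨w, hw, hwa⟩
  simp only at hw
  have hN : (0 : ℝ) < N := Nat.cast_pos.mpr H.hN0
  obtain ⟨η, hη0, hηδ, hη⟩ : ∃ η > 0, η < δ / 4 ∧ ∀ s i, |w s i| + η < a := by
    have h1 : ∀ᶠ η in nhdsWithin (0 : ℝ) (Set.Ioi 0), ∀ s i, |w s i| + η < a := by
      rw [Filter.eventually_all]
      intro s
      rw [Filter.eventually_all]
      intro i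
      have h2 : Filter.Tendsto (fun η : ℝ => |w s i| + η) (nhdsWithin (0 : ℝ) (Set.Ioi 0))
          (nhds (|w s i| + 0)) := by
        refine Filter.Tendsto.mono_left ?_ nhdsWithin_le_nhds
        exact (continuous_const.add continuous_id).tendsto 0
      rw [add_zero] at h2
      exact h2.eventually (gt_mem_nhds (hwa s i))
    have h3 : ∀ᶠ η in nhdsWithin (0 : ℝ) (Set.Ioi 0), η < δ / 4 :=
      nhdsWithin_le_nhds (gt_mem_nhds (by have := H.hδ; linarith))
    obtain ⟨η, ⟨h4, h5⟩, h6⟩ := ((h1.and h3).and self_mem_nhdsWithin).exists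
    exact ⟨η, h6, h5, h4⟩
  have hcube : ∀ y : EuclideanSpace ℝ (Fin n), (∀ i, |y i| < a) → cube n ∈ nhds y := by
    intro y hy
    have h1 : ∀ᶠ z : EuclideanSpace ℝ (Fin n) in nhds y, ∀ i, |z i| < 1 := by
      rw [Filter.eventually_all]
      intro i
      have h2 : Continuous fun z : EuclideanSpace ℝ (Fin n) => |z i| := by fun_prop
      exact h2.continuousAt.eventually (gt_mem_nhds ((hy i).trans H.ha1))
    filter_upwards [h1] with z hz i
    exact (hz i).le
  have key : ∀ y : EuclideanSpace ℝ (Fin n), (∀ i, |y i| < a) → ∀ᶠ z in nhds y,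
      z ∈ cube n ∧ dist z y < η ∧ dist (f z) (f y) < η := by
    intro y hy
    have h1 : ContinuousAt f y := H.hf.continuousAt (hcube y hy)
    filter_upwards [hcube y hy, Metric.ball_mem_nhds y hη0,
      h1.eventually (Metric.ball_mem_nhds (f y) hη0)] with z h2 h3 h4
    exact ⟨h2, h3, h4⟩
  have hx := key x (by rw [← hw.1]; exact hwa 0)
  have hx' := key x' (by rw [← hw.2.1]; exact hwa _)
  rw [nhds_prod_eq]
  filter_upwards [hx.prod_mk hx'] with z hz
  obtain ⟨y, y'⟩ := z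
  obtain ⟨⟨hy1, hy2, hy3⟩, hy1', hy2', hy3'⟩ := hz
  simp only at hy1 hy2 hy3 hy1' hy2' hy3'
  have hδη : η < δ := by have := H.hδ; linarith
  have hd : ∀ s : Fin (N + 1), dist (f y + ((s : ℕ) / N : ℝ) • (f y' - f y)) (f (w s)) < η := by
    intro s
    have hs1 : (0 : ℝ) ≤ (s : ℕ) / N := by positivity
    have hs2 : ((s : ℕ) / N : ℝ) ≤ 1 := by
      rw [div_le_one hN]
      exact_mod_cast Nat.lt_succ_iff.mp s.2
    rw [hw.2.2.2.1 s, dist_eq_norm]
    have h1 : f y + ((s : ℕ) / N : ℝ) • (f y' - f y) - (f x + ((s : ℕ) / N : ℝ) • (f x' - f x)) =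
        (1 - (s : ℕ) / N : ℝ) • (f y - f x) + ((s : ℕ) / N : ℝ) • (f y' - f x') := by
      module
    rw [h1]
    refine (norm_add_le _ _).trans_lt ?_
    rw [norm_smul, norm_smul, Real.norm_eq_abs, Real.norm_eq_abs, abs_of_nonneg hs1,
      abs_of_nonneg (sub_nonneg.mpr hs2), ← dist_eq_norm, ← dist_eq_norm]
    rcases hs1.eq_or_lt with h0 | h0
    · rw [← h0]
      simpa using hy3
    · have h2 : ((s : ℕ) / N : ℝ) * dist (f y') (f x') < (s : ℕ) / N * η :=
        mul_lt_mul_of_pos_left hy3' h0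
      have h3 : (1 - (s : ℕ) / N : ℝ) * dist (f y) (f x) ≤ (1 - (s : ℕ) / N) * η :=
        mul_le_mul_of_nonneg_left hy3.le (sub_nonneg.mpr hs2)
      nlinarith
  choose w' hw'1 hw'2 hw'3 using fun s => H.hinv (w s) (fun i => (hwa s i).le) _
    ((hd s).trans hδη)
  have hd' : ∀ s, dist (w' s) (w s) < η := fun s => (hw'3 s).trans_lt (hd s)
  refine ⟨w', ⟨?_, ?_, ?_, hw'2, ?_⟩, ?_⟩
  · have h1 : dist (w' 0) y < δ := by
      have h2 := hd' 0
      rw [hw.1] at h2
      exact (dist_triangle_right _ _ x).trans_lt (by linarith [H.hδ])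
    have h2 := H.hloc _ (hw'1 0) _ hy1 h1
    rw [hw'2 0] at h2
    simp only [Fin.val_zero, Nat.cast_zero, zero_div, zero_smul, add_zero, dist_self] at h2
    exact dist_le_zero.mp h2
  · have h1 : dist (w' (Fin.last N)) y' < δ := by
      have h2 := hd' (Fin.last N)
      rw [hw.2.1] at h2
      exact (dist_triangle_right _ _ x').trans_lt (by linarith [H.hδ])
    have h2 := H.hloc _ (hw'1 (Fin.last N)) _ hy1' h1
    rw [hw'2 (Fin.last N)] at h2
    simp only [Fin.val_last, div_self hN.ne', one_smul, add_sub_cancel, dist_self] at h2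
    exact dist_le_zero.mp h2
  · intro s i
    have h1 : |w' s i - w s i| ≤ dist (w' s) (w s) := by
      have := PiLp.norm_apply_le (w' s - w s) i
      rwa [← dist_eq_norm] at this
    have h2 := hη s i
    have h3 := hd' s
    have h4 : |w' s i| ≤ |w s i| + |w' s i - w s i| := by
      have := abs_add_le (w s i) (w' s i - w s i)
      rwa [add_sub_cancel] at this
    linarith
  · intro s
    refine H.hloc _ (hw'1 _) _ (hw'1 _) ?_
    have h1 := chain_step H hw s
    have h2 := hd' s.succ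
    have h3 := hd' s.castSucc
    have h4 := dist_triangle4 (w' s.succ) (w s.succ) (w s.castSucc) (w' s.castSucc)
    rw [dist_comm (w s.castSucc)] at h4
    linarith
  · intro s i
    have h1 : |w' s i - w s i| ≤ dist (w' s) (w s) := by
      have := PiLp.norm_apply_le (w' s - w s) i
      rwa [← dist_eq_norm] at this
    have h2 := hη s i
    have h3 := hd' s
    have h4 : |w' s i| ≤ |w s i| + |w' s i - w s i| := by
      have := abs_add_le (w s i) (w' s i - w s i)
      rwa [add_sub_cancel] at this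
    linarith

theorem touch_of_not_EE0 {f : EuclideanSpace ℝ (Fin n) → EuclideanSpace ℝ (Fin n)} {N : ℕ}
    {a : ℝ} {z : EuclideanSpace ℝ (Fin n) × EuclideanSpace ℝ (Fin n)}
    (hz : z ∈ EE f N a) (hz0 : z ∉ EE0 f N a) : ∃ s i, |ch f N a z s i| = a := by
  by_contra hcon
  push Not at hcon
  have h := isChain_ch hz
  exact hz0 ⟨_, h, fun s i => lt_of_le_of_ne (h.2.2.1 s i) (hcon s i)⟩

theorem isChain_const {f : EuclideanSpace ℝ (Fin n) → EuclideanSpace ℝ (Fin n)} (N : ℕ)
    {a : ℝ} {x : EuclideanSpace ℝ (Fin n)} (hx : ∀ i, |x i| ≤ a) :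
    IsChain f N a x x (fun _ => x) :=
  ⟨rfl, rfl, fun _ => hx, fun s => by simp, fun s => by simp⟩

/-- sum of the steps of a chain -/
theorem sum_chain_le {f : EuclideanSpace ℝ (Fin n) → EuclideanSpace ℝ (Fin n)} {N : ℕ}
    (hN : 0 < N) {a : ℝ} {x x' : EuclideanSpace ℝ (Fin n)}
    {w : Fin (N + 1) → EuclideanSpace ℝ (Fin n)} (h : IsChain f N a x x' w) (s : Fin N) :
    dist (w s.succ) (w s.castSucc) ≤ dist (f x') (f x) / N := by
  have _ := hN
  rw [← chain_image h s]
  exact h.2.2.2.2 s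

end Pool.Agent.CubeE
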