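import Pool.Agent.Expand.Main
import Pool.Agent.Expand.Open

/-!
# MP_c0b923_gt, package Loc: uniform local inverses of an expanding map

PROOF. `exists_uniform` (Expand.Main; `cube n = {x | ∀ i, |x i| ≤ 1}` is compact, `isCompact_cubeS`) gives
`δ0 > 0` with `dist y z ≤ dist (f y) (f z)` for `y, z` in the cube with `dist y z < δ0`. Put
`δ = min (δ0 / 3) ((1 - a) / 2)`. Second part: `z` with `|z i| ≤ a`, so `closedBall z δ` is contained in the
cube and `f` does not decrease distances on it (diameter `2 δ < δ0`). For `w` with `dist w (f z) < δ` let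
`T = {t ∈ [0,1] | ∃ y ∈ closedBall z δ, f y = f z + t • (w - f z)}`. `T` contains `0`, is closed
(compactness, continuity) and open in `[0,1]`: if `f y = f z + t • (w - f z)` then `dist y z ≤ dist (f y)
(f z) ≤ dist w (f z) < δ`, so a small closed ball around `y` is contained in `closedBall z δ` and its
image is a neighbourhood of `f y` (`mem_interior_image` in Expand.Open). So `1 ∈ T`.
-/

set_option autoImplicit false

open Metric

namespace Pool.Agent.CubeE

open Pool.Agent.Expand

theorem exists_local {n : ℕ} {f : EuclideanSpace ℝ (Fin n) → EuclideanSpace ℝ (Fin n)}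
    (hf : IsExpandingOn f (cube n)) {a : ℝ} (ha : a < 1) :
    ∃ δ > 0, (∀ y ∈ cube n, ∀ z ∈ cube n, dist y z < δ → dist y z ≤ dist (f y) (f z)) ∧
      ∀ z : EuclideanSpace ℝ (Fin n), (∀ i, |z i| ≤ a) → ∀ w, dist w (f z) < δ →
        ∃ y ∈ cube n, f y = w ∧ dist y z ≤ dist w (f z) := by
  obtain ⟨δ0, hδ0, huni⟩ := exists_uniform (isCompact_cubeS 1) hf
  have hδ1 : 0 < min (δ0 / 3) ((1 - a) / 2) := lt_min (by linarith) (by linarith)
  have hδ2 : min (δ0 / 3) ((1 - a) / 2) ≤ δ0 / 3 := min_le_left _ _
  have hδ3 : min (δ0 / 3) ((1 - a) / 2) ≤ (1 - a) / 2 := min_le_right _ _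
  set δ : ℝ := min (δ0 / 3) ((1 - a) / 2) with hδ
  clear_value δ
  refine ⟨δ, hδ1, ?_, ?_⟩
  · intro y hy z hz hyz
    exact huni y hy z hz (by linarith)
  intro z hz w hw
  have hsub : ∀ y ∈ closedBall z δ, y ∈ cube n := by
    intro y hy i
    have h1 := abs_coord_le_dist y z i
    rw [mem_closedBall] at hy
    have h2 := hz i
    have h3 := abs_sub_abs_le_abs_sub (y i) (z i)
    linarith
  have hcont : ContinuousOn f (closedBall z δ) := hf.1.mono hsub
  have hzB : z ∈ closedBall z δ := mem_closedBall_self hδ1.le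
  have hexp : ∀ y ∈ closedBall z δ, ∀ u ∈ closedBall z δ, dist y u ≤ dist (f y) (f u) := by
    intro y hy u hu
    apply huni y (hsub y hy) u (hsub u hu)
    rw [mem_closedBall] at hy hu
    have h1 := dist_triangle_right y u z
    linarith
  have hKc : IsCompact (f '' closedBall z δ) :=
    (isCompact_closedBall z δ).image_of_continuousOn hcont
  have hopen : ∀ v ∈ ball (f z) δ, v ∈ f '' closedBall z δ →
      v ∈ interior (f '' closedBall z δ) := by
    rintro v hv ⟨y, hy, rfl⟩
    rw [mem_ball] at hv
    have h1 : dist y z < δ := lt_of_le_of_lt (hexp y hy z hzB) hv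
    have h2 : 0 < δ - dist y z := by linarith
    have h3 : closedBall y (δ - dist y z) ⊆ closedBall z δ := by
      apply closedBall_subset_closedBall'
      linarith
    have h4 := mem_interior_image h2 (hcont.mono h3)
      (fun u hu v hv => hexp u (h3 hu) v (h3 hv))
    exact interior_mono (Set.image_mono h3) h4
  have hW : ball (f z) δ ⊆ interior (f '' closedBall z δ) := by
    apply IsPreconnected.subset_left_of_subset_union (v := (f '' closedBall z δ)ᶜ)
      isOpen_interior hKc.isClosed.isOpen_compl
    · exact Set.disjoint_left.mpr (fun v hv hv2 => hv2 (interior_subset hv))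
    · intro v hv
      by_cases h : v ∈ f '' closedBall z δ
      · exact Or.inl (hopen v hv h)
      · exact Or.inr h
    · exact ⟨f z, mem_ball_self hδ1, hopen _ (mem_ball_self hδ1) ⟨z, hzB, rfl⟩⟩
    · exact (convex_ball (f z) δ).isPreconnected
  obtain ⟨y, hy, hyw⟩ := interior_subset (hW (mem_ball.mpr hw))
  refine ⟨y, hsub y hy, hyw, ?_⟩
  rw [← hyw]
  exact hexp y hy z hzB

end Pool.Agent.CubeE
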