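import Mathlib

/-!
# MP_c0b923_gt, package Sign: sign structure of a function with few sign changes

PROOF. Induction on `B`, for all `α` and `s`. `B = 0`: by `hno` with `e = fun _ => k` there is no
`k ∈ [α, β)` with `0 < -s * h k`, so `0 ≤ s * h k`. Step `B + 1`: if no `k ∈ [α, β)` has `0 < -s * h k`, take
all `θ = β` (the cardinality is `0` for `k < β`). Otherwise let `θ0` be the least such `k`
(`Int.exists_least_of_bdd` or well-founded minimum). For `k ∈ [α, θ0)`: `0 ≤ s * h k`. On `[θ0, β)` there is
no `e 0 < ... < e B` with `0 < -(-s) * (-1)^l * h (e l)`: `e 0 ≠ θ0` because of the sign, so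
`θ0 < e 0`, and `θ0, e 0, ..., e B` contradicts `hno`. The induction hypothesis with `-s` on `[θ0, β)` gives
`θ' : Fin B → ℤ`; put `θ = Fin.cons θ0 θ'`. For `k ∈ [θ0, β)` the cardinality is one more than for `θ'`,
for `k < θ0` it is `0` (`θ0 ≤ θ' q`).
-/

set_option autoImplicit false

open Finset

namespace Pool.Agent.CubeE

theorem sign_structure (h : ℤ → ℝ) (B : ℕ) (α β : ℤ) (hαβ : α ≤ β) (s : ℝ)
    (hs : s = 1 ∨ s = -1)
    (hno : ¬ ∃ e : ℕ → ℤ, α ≤ e 0 ∧ (∀ l < B, e l < e (l + 1)) ∧ e B < β ∧
      ∀ l ≤ B, 0 < -s * (-1) ^ l * h (e l)) :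
    ∃ θ : Fin B → ℤ, (∀ q, α ≤ θ q ∧ θ q ≤ β) ∧ ∀ k, α ≤ k → k < β →
      0 ≤ s * (-1) ^ (Finset.univ.filter fun q => θ q ≤ k).card * h k := by
  induction B generalizing α s with
  | zero =>
    refine ⟨fun q => q.elim0, fun q => q.elim0, ?_⟩
    intro k hk1 hk2
    by_contra hcon
    apply hno
    refine ⟨fun _ => k, hk1, fun l hl => absurd hl (Nat.not_lt_zero l), hk2, ?_⟩
    intro l hl
    obtain rfl : l = 0 := by omega
    simp only [Finset.univ_eq_empty, Finset.filter_empty, Finset.card_empty, pow_zero,
      mul_one, not_le] at hcon ⊢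
    linarith
  | succ B ih =>
    by_cases hex : ∃ k, α ≤ k ∧ k < β ∧ 0 < -s * h k
    · obtain ⟨θ0, ⟨h1, h2, h3⟩, hmin⟩ := Int.exists_least_of_bdd
        (P := fun k => α ≤ k ∧ k < β ∧ 0 < -s * h k) ⟨α, fun z hz => hz.1⟩ hex
      obtain ⟨θ', hθ', hsgn⟩ := ih θ0 h2.le (-s) (by rcases hs with rfl | rfl <;> simp) (by
        rintro ⟨e, he0, he1, he2, he3⟩
        apply hno
        refine ⟨fun l => Nat.casesOn l θ0 e, h1, ?_, he2, ?_⟩
        · intro l hl
          rcases l with _ | l
          · have h4 := he3 0 (Nat.zero_le _)
            have h5 : θ0 ≠ e 0 := by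
              intro h6
              rw [← h6] at h4
              simp only [neg_neg, pow_zero, mul_one] at h4
              linarith
            exact lt_of_le_of_ne he0 h5
          · exact he1 l (by omega)
        · intro l hl
          rcases l with _ | l
          · simpa using h3
          · have h4 := he3 l (by omega)
            simp only [neg_neg] at h4
            have h5 : -s * (-1) ^ (l + 1) * h (e l) = s * (-1) ^ l * h (e l) := by ring
            simp only
            rw [h5]
            exact h4)
      refine ⟨Fin.cons θ0 θ', ?_, ?_⟩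
      · intro q
        refine Fin.cases ?_ (fun q => ?_) q
        · simp only [Fin.cons_zero]
          exact ⟨h1, h2.le⟩
        · simp only [Fin.cons_succ]
          exact ⟨h1.trans (hθ' q).1, (hθ' q).2⟩
      · intro k hk1 hk2
        by_cases hk : θ0 ≤ k
        · have h4 := hsgn k hk hk2
          have h5 : (Finset.univ.filter fun q : Fin (B + 1) =>
              (Fin.cons θ0 θ' : Fin (B + 1) → ℤ) q ≤ k).card =
              (Finset.univ.filter fun q : Fin B => θ' q ≤ k).card + 1 := by
            rw [Finset.card_filter, Finset.card_filter, Fin.sum_univ_succ]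
            simp only [Fin.cons_zero, Fin.cons_succ, if_pos hk]
            rw [add_comm]
          rw [h5]
          have h6 : s * (-1) ^ ((Finset.univ.filter fun q : Fin B => θ' q ≤ k).card + 1) * h k =
              -s * (-1) ^ (Finset.univ.filter fun q : Fin B => θ' q ≤ k).card * h k := by ring
          rw [h6]
          exact h4
        · push Not at hk
          have h5 : (Finset.univ.filter fun q : Fin (B + 1) =>
              (Fin.cons θ0 θ' : Fin (B + 1) → ℤ) q ≤ k).card = 0 := by
            rw [Finset.card_eq_zero, Finset.filter_eq_empty_iff]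
            intro q _
            refine Fin.cases ?_ (fun q => ?_) q
            · simp only [Fin.cons_zero, not_le]
              exact hk
            · simp only [Fin.cons_succ, not_le]
              exact lt_of_lt_of_le hk (hθ' q).1
          rw [h5, pow_zero, mul_one]
          by_contra hcon
          push Not at hcon
          have h6 := hmin k ⟨hk1, hk2, by linarith⟩
          omega
    · push Not at hex
      refine ⟨fun _ => β, fun q => ⟨hαβ, le_refl _⟩, ?_⟩
      intro k hk1 hk2
      have h5 : (Finset.univ.filter fun _ : Fin (B + 1) => β ≤ k).card = 0 := by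
        rw [Finset.card_eq_zero, Finset.filter_eq_empty_iff]
        intro q _
        exact not_le.mpr hk2
      rw [h5, pow_zero, mul_one]
      have h6 := hex k hk1 hk2
      linarith

end Pool.Agent.CubeE
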