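import Pool.Agent.CubeE.OAlt
import Pool.Agent.CubeE.Sign

/-!
# MP_c0b923_gt, package Mom: a moment of low order does not vanish

PROOF. `φ s = (u s - b)₊ - (-u s - b)₊`, so `φ s > 0 ↔ u s > b`, `φ s < 0 ↔ u s < -b` (`b ≥ 0`). There is no
alternating sequence of length `k + 1` with depth `> b` (`hA`). For at least one sign `s ∈ {1, -1}` there
is no alternating sequence `e 0 < ... < e (k - 1)` in `[0, N]` with first sign `-s`, that is with
`0 < -s (-1)^l φ (e l)`: if there were `e` with first sign `-1` and `e'` with first sign `1`, then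
`e 0 ≠ e' 0`, and the sequence with the larger first index can be prepended by the first index of the
other one, giving length `k + 1`. Apply `sign_structure` with `B = k - 1`, `α = 0`, `β = N + 1` and the
function `φ` extended to `ℤ` (`φ k = φ k.toNat`): `θ : Fin (k - 1) → ℤ`. `T s = ∏ q, (s - θ q + 1 / 2)` is a
polynomial of degree `k - 1` in `s`, nonzero at the integers, with sign `(-1)^(card {q | s < θ q})`. So
`s0 * φ s * T s ≥ 0` for all `s ≤ N` with one sign `s0`, and it is not zero where `φ s ≠ 0` (`hT`). So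
`∑_{s ≤ N} φ s * T s ≠ 0` and one of the moments of order `< k` is not zero.
-/

set_option autoImplicit false

open Finset

namespace Pool.Agent.CubeE

/-- the touch function -/
def phi (b : ℝ) (u : ℕ → ℝ) (s : ℕ) : ℝ := max (u s - b) 0 - max (-u s - b) 0

/-- moments of the touch function -/
def mom (N : ℕ) (b : ℝ) (k : ℕ) (u : ℕ → ℝ) : ℝ :=
  ∑ s ∈ range (N + 1), phi b u s * (s : ℝ) ^ k

private theorem phi_pos_iff {b : ℝ} (hb : 0 ≤ b) (u : ℕ → ℝ) (s : ℕ) :
    0 < phi b u s ↔ b < u s := by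
  unfold phi
  constructor
  · intro h
    by_contra hc
    push Not at hc
    have h1 : max (u s - b) 0 = 0 := max_eq_right (by linarith)
    have h2 : 0 ≤ max (-u s - b) 0 := le_max_right _ _
    linarith
  · intro h
    have h1 : u s - b ≤ max (u s - b) 0 := le_max_left _ _
    have h2 : max (-u s - b) 0 = 0 := max_eq_right (by linarith)
    linarith

private theorem phi_neg' {b : ℝ} (u : ℕ → ℝ) (s : ℕ) :
    phi b (fun s => -u s) s = -phi b u s := by
  unfold phi
  simp only [neg_neg]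
  ring

private theorem phi_neg_iff {b : ℝ} (hb : 0 ≤ b) (u : ℕ → ℝ) (s : ℕ) :
    phi b u s < 0 ↔ u s < -b := by
  have h := phi_pos_iff hb (fun s => -u s) s
  rw [phi_neg'] at h
  constructor
  · intro h1
    have := h.1 (by linarith)
    linarith
  · intro h1
    have := h.2 (by linarith)
    linarith

private theorem phi_sign {b : ℝ} (hb : 0 ≤ b) (u : ℕ → ℝ) (s : ℕ) {t : ℝ}
    (ht : t = 1 ∨ t = -1) (h : 0 < t * phi b u s) : b < t * u s := by
  rcases ht with rfl | rfl
  · rw [one_mul] at h ⊢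
    exact (phi_pos_iff hb u s).1 h
  · have h1 : phi b u s < 0 := by linarith
    have := (phi_neg_iff hb u s).1 h1
    linarith

private theorem mom_sgn {s : ℝ} (hs : s = 1 ∨ s = -1) (l : ℕ) :
    s * (-1) ^ l = 1 ∨ s * (-1) ^ l = -1 := by
  rcases neg_one_pow_eq_or ℝ l with h | h <;> rcases hs with rfl | rfl <;> simp [h]

private theorem mom_noalt {N : ℕ} {b : ℝ} (hb : 0 ≤ b) {u : ℕ → ℝ} (k : ℕ)
    (hA : ¬ ∃ c, b < c ∧ LAlt N c (k + 1) u) (e : ℕ → ℕ) (s : ℝ) (hs : s = 1 ∨ s = -1)
    (he : ∀ l < k, e l < e (l + 1)) (hN : e k ≤ N)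
    (hp : ∀ l ≤ k, 0 < s * (-1) ^ l * phi b u (e l)) : False := by
  have hb' : ∀ l ≤ k, b < s * (-1) ^ l * u (e l) := fun l hl =>
    phi_sign hb u _ (mom_sgn hs l) (hp l hl)
  have hm : ∀ j ≤ k, e (k - j) ≤ N := by
    intro j
    induction j with
    | zero => intro _; simpa using hN
    | succ j ih =>
      intro hj
      have h1 := ih (by omega)
      have h2 := he (k - (j + 1)) (by omega)
      have h3 : k - (j + 1) + 1 = k - j := by omega
      rw [h3] at h2
      omega
  have hmono : ∀ l ≤ k, e l ≤ N := by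
    intro l hl
    have h1 := hm (k - l) (by omega)
    have h2 : k - (k - l) = l := by omega
    rwa [h2] at h1
  have hne : (range (k + 1)).Nonempty := ⟨0, by simp⟩
  obtain ⟨l0, hl0, hmin⟩ := Finset.exists_min_image (range (k + 1))
    (fun l => s * (-1) ^ l * u (e l)) hne
  have hl0' := mem_range.1 hl0
  refine hA ⟨s * (-1) ^ l0 * u (e l0), hb' l0 (by omega), e, s, hs,
    fun l hl => he l (by omega), fun l hl => hmono l (by omega),
    fun l hl => hmin l (mem_range.2 hl)⟩

private theorem mom_nonneg {B : ℕ} {e : ℕ → ℤ} (h0 : 0 ≤ e 0)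
    (h : ∀ l < B, e l < e (l + 1)) : ∀ l ≤ B, 0 ≤ e l := by
  intro l
  induction l with
  | zero => intro _; exact h0
  | succ l ih =>
    intro hl
    have h1 := ih (by omega)
    have h2 := h l (by omega)
    omega

private theorem mom_prepend {N : ℕ} {b : ℝ} (hb : 0 ≤ b) {u : ℕ → ℝ} (B : ℕ)
    (hA : ¬ ∃ c, b < c ∧ LAlt N c (B + 1 + 1) u) (a : ℤ) (ha : 0 ≤ a) (e : ℕ → ℤ)
    (hae : a < e 0) (he : ∀ l < B, e l < e (l + 1)) (hN : e B < (N : ℤ) + 1) (s : ℝ)
    (hs : s = 1 ∨ s = -1) (h0 : 0 < s * phi b u a.toNat)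
    (hp : ∀ l ≤ B, 0 < -s * (-1) ^ l * phi b u (e l).toNat) : False := by
  have hnn := mom_nonneg (by omega) he
  set f : ℕ → ℕ := fun l => if l = 0 then a.toNat else (e (l - 1)).toNat with hf
  have f0 : f 0 = a.toNat := by simp [hf]
  have f1 : ∀ m, f (m + 1) = (e m).toNat := fun m => by simp [hf]
  refine mom_noalt hb (B + 1) hA f s hs ?_ ?_ ?_
  · intro l hl
    rcases l with _ | m
    · rw [f0, f1]
      omega
    · rw [f1, f1]
      have h1 := hnn m (by omega)
      have h2 := he m (by omega)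
      omega
  · rw [f1]
    omega
  · intro l hl
    rcases l with _ | m
    · rw [f0, pow_zero, mul_one]
      exact h0
    · rw [f1]
      have h1 := hp m (by omega)
      have h2 : s * (-1) ^ (m + 1) * phi b u (e m).toNat
          = -s * (-1) ^ m * phi b u (e m).toNat := by
        rw [pow_succ]
        ring
      rw [h2]
      exact h1

theorem moment {N : ℕ} {b : ℝ} (hb : 0 ≤ b) {u : ℕ → ℝ} (hT : ∃ s ≤ N, b < |u s|) (k : ℕ)
    (hA : ¬ ∃ c, b < c ∧ LAlt N c (k + 1) u) : ∃ k' < k, mom N b k' u ≠ 0 := by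
  obtain ⟨s1, hs1, hs1b⟩ := hT
  have hphi : phi b u s1 ≠ 0 := by
    intro h
    rcases lt_abs.1 hs1b with h1 | h1
    · have := (phi_pos_iff hb u s1).2 h1
      linarith
    · have := (phi_neg_iff hb u s1).2 (by linarith)
      linarith
  have hk : k ≠ 0 := by
    rintro rfl
    rcases lt_or_gt_of_ne hphi with h | h
    · refine mom_noalt hb 0 hA (fun _ => s1) (-1) (Or.inr rfl) (fun l hl => by omega) hs1 ?_
      intro l hl
      obtain rfl : l = 0 := by omega
      rw [pow_zero, mul_one]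
      linarith
    · refine mom_noalt hb 0 hA (fun _ => s1) 1 (Or.inl rfl) (fun l hl => by omega) hs1 ?_
      intro l hl
      obtain rfl : l = 0 := by omega
      rw [pow_zero, mul_one, one_mul]
      exact h
  obtain ⟨B, rfl⟩ : ∃ B, k = B + 1 := ⟨k - 1, by omega⟩
  set h : ℤ → ℝ := fun z => phi b u z.toNat with hh
  have key : ∃ s : ℝ, (s = 1 ∨ s = -1) ∧ ¬ ∃ e : ℕ → ℤ, 0 ≤ e 0 ∧ (∀ l < B, e l < e (l + 1)) ∧
      e B < (N : ℤ) + 1 ∧ ∀ l ≤ B, 0 < -s * (-1) ^ l * h (e l) := by
    by_contra hcon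
    push Not at hcon
    obtain ⟨e, he0, he1, he2, he3⟩ := hcon 1 (Or.inl rfl)
    obtain ⟨e', he0', he1', he2', he3'⟩ := hcon (-1) (Or.inr rfl)
    have a1 := he3 0 (Nat.zero_le _)
    have a2 := he3' 0 (Nat.zero_le _)
    rw [pow_zero, mul_one] at a1 a2
    rcases lt_trichotomy (e 0) (e' 0) with hlt | heq | hgt
    · refine mom_prepend hb B hA (e 0) he0 e' hlt he1' he2' (-1) (Or.inr rfl) a1 he3'
    · rw [heq] at a1
      linarith
    · refine mom_prepend hb B hA (e' 0) he0' e hgt he1 he2 1 (Or.inl rfl) ?_ he3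
      have : 0 < - -(1 : ℝ) * h (e' 0) := a2
      simpa [hh] using this
  obtain ⟨s0, hs0, hno⟩ := key
  obtain ⟨θ, -, hθ⟩ := sign_structure h B 0 ((N : ℤ) + 1) (by omega) s0 hs0 hno
  by_contra hcon
  push Not at hcon
  set P : Polynomial ℝ := ∏ q : Fin B, (Polynomial.X - Polynomial.C ((θ q : ℝ) - 1 / 2)) with hP
  have hdeg : P.natDegree < B + 1 := by
    have h1 : P.natDegree ≤
        ∑ q : Fin B, (Polynomial.X - Polynomial.C ((θ q : ℝ) - 1 / 2)).natDegree :=
      Polynomial.natDegree_prod_le _ _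
    have h2 : ∑ q : Fin B, (Polynomial.X - Polynomial.C ((θ q : ℝ) - 1 / 2)).natDegree = B := by
      simp only [Polynomial.natDegree_X_sub_C, Finset.sum_const, Finset.card_univ,
        Fintype.card_fin, smul_eq_mul, mul_one]
    omega
  have hev : ∀ x : ℝ, P.eval x = ∏ q : Fin B, (x - ((θ q : ℝ) - 1 / 2)) := by
    intro x
    rw [hP, Polynomial.eval_prod]
    refine Finset.prod_congr rfl fun q _ => ?_
    rw [Polynomial.eval_sub, Polynomial.eval_X, Polynomial.eval_C]
  have hsum : ∑ s ∈ range (N + 1), phi b u s * P.eval (s : ℝ) = 0 := by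
    have h1 : ∀ s ∈ range (N + 1), phi b u s * P.eval (s : ℝ)
        = ∑ i ∈ range (B + 1), P.coeff i * (phi b u s * (s : ℝ) ^ i) := by
      intro s _
      rw [Polynomial.eval_eq_sum_range' hdeg, Finset.mul_sum]
      exact Finset.sum_congr rfl fun i _ => by ring
    rw [Finset.sum_congr rfl h1, Finset.sum_comm]
    refine Finset.sum_eq_zero fun i hi => ?_
    rw [← Finset.mul_sum]
    have h2 := hcon i (Finset.mem_range.1 hi)
    unfold mom at h2
    rw [h2, mul_zero]
  have hTs : ∀ s : ℕ, 0 < ((-1 : ℝ) ^ B * (-1) ^ (univ.filter fun q => θ q ≤ (s : ℤ)).card) *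
      P.eval (s : ℝ) := by
    intro s
    have h1 : ((-1 : ℝ) ^ (univ.filter fun q => θ q ≤ (s : ℤ)).card)
        = ∏ q : Fin B, (if θ q ≤ (s : ℤ) then (-1 : ℝ) else 1) := by
      rw [Finset.prod_ite, Finset.prod_const, Finset.prod_const_one, mul_one]
    have h2 : ((-1 : ℝ)) ^ B = ∏ q : Fin B, (-1 : ℝ) := by
      rw [Finset.prod_const, Finset.card_univ, Fintype.card_fin]
    rw [h1, h2, hev, ← Finset.prod_mul_distrib, ← Finset.prod_mul_distrib]
    refine Finset.prod_pos fun q _ => ?_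
    split_ifs with hq
    · have : (θ q : ℝ) ≤ (s : ℝ) := by exact_mod_cast hq
      linarith
    · have h3 : (s : ℤ) + 1 ≤ θ q := by omega
      have : (s : ℝ) + 1 ≤ θ q := by exact_mod_cast h3
      linarith
  have hθs : ∀ s ∈ range (N + 1),
      0 ≤ s0 * (-1) ^ (univ.filter fun q => θ q ≤ (s : ℤ)).card * phi b u s := by
    intro s hs
    have h1 := mem_range.1 hs
    have h2 := hθ (s : ℤ) (by omega) (by omega)
    simpa [hh] using h2
  have heq : ∀ s : ℕ, (s0 * (-1) ^ B) * (phi b u s * P.eval (s : ℝ)) =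
      (s0 * (-1) ^ (univ.filter fun q => θ q ≤ (s : ℤ)).card * phi b u s) *
        (((-1 : ℝ) ^ B * (-1) ^ (univ.filter fun q => θ q ≤ (s : ℤ)).card) *
          P.eval (s : ℝ)) := by
    intro s
    have h1 : ((-1 : ℝ) ^ (univ.filter fun q => θ q ≤ (s : ℤ)).card) *
        (-1) ^ (univ.filter fun q => θ q ≤ (s : ℤ)).card = 1 := by
      rw [← mul_pow]
      norm_num
    generalize ((-1 : ℝ) ^ (univ.filter fun q => θ q ≤ (s : ℤ)).card) = w at h1
    generalize ((-1 : ℝ) ^ B) = v
    linear_combination (-(s0 * phi b u s * P.eval (s : ℝ) * v)) * h1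
  have hpos : 0 < ∑ s ∈ range (N + 1), (s0 * (-1) ^ B) * (phi b u s * P.eval (s : ℝ)) := by
    refine Finset.sum_pos' (fun s hs => ?_) ⟨s1, mem_range.2 (by omega), ?_⟩
    · rw [heq]
      exact mul_nonneg (hθs s hs) (hTs s).le
    · rw [heq]
      refine mul_pos (lt_of_le_of_ne (hθs s1 (mem_range.2 (by omega))) ?_) (hTs s1)
      refine (mul_ne_zero (mul_ne_zero ?_ (pow_ne_zero _ (by norm_num))) hphi).symm
      rcases hs0 with rfl | rfl <;> norm_num
  rw [← Finset.mul_sum, hsum, mul_zero] at hpos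
  exact lt_irrefl _ hpos

theorem mom_neg {N : ℕ} {b : ℝ} {k : ℕ} (u : ℕ → ℝ) :
    mom N b k (fun s => -u s) = -mom N b k u := by
  unfold mom
  rw [← Finset.sum_neg_distrib]
  refine Finset.sum_congr rfl fun s _ => ?_
  rw [phi_neg']
  ring

theorem mom_congr {N : ℕ} {b : ℝ} {k : ℕ} {u v : ℕ → ℝ} (h : ∀ s ≤ N, u s = v s) :
    mom N b k u = mom N b k v := by
  unfold mom
  refine Finset.sum_congr rfl fun s hs => ?_
  have h1 := mem_range.1 hs
  unfold phi
  rw [h s (by omega)]

theorem mom_continuousOn {X : Type*} [TopologicalSpace X] {S : Set X} {N : ℕ}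
    {b : ℝ} {k : ℕ} {u : X → ℕ → ℝ} (hc : ∀ s ≤ N, ContinuousOn (fun x => u x s) S) :
    ContinuousOn (fun x => mom N b k (u x)) S := by
  unfold mom phi
  refine continuousOn_finsetSum _ fun s hs => ?_
  have h1 := mem_range.1 hs
  have h2 := hc s (by omega)
  have h3 : ContinuousOn (fun x => max (u x s - b) 0) S :=
    ContinuousOn.sup (h2.sub continuousOn_const) continuousOn_const
  have h4 : ContinuousOn (fun x => max (-u x s - b) 0) S :=
    ContinuousOn.sup (h2.neg.sub continuousOn_const) continuousOn_const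
  exact (h3.sub h4).mul continuousOn_const

end Pool.Agent.CubeE
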