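import Mathlib

/-!
# MP_c0b923_gt, package Vand: power sums of a vector with few nonzero entries

PROOF. Suppose `∑ t, node t ^ s * b t = 0` for all `s < K`. Let `S = {t | b t ≠ 0}`, `card S ≤ K`. For every
polynomial `P` of degree `< K`: `∑ t, P (node t) * b t = 0`. Choose `t0 ∈ S` and
`P = ∏ t ∈ S \ {t0}, (X - node t)` of degree `card S - 1 < K`: the sum is `P (node t0) * b t0 ≠ 0`.
-/

set_option autoImplicit false

open Finset

namespace Pool.Agent.CubeE

theorem vand_ne {F T : Type*} [Field F] [Fintype T] (node : T → F)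
    (hnode : Function.Injective node) (b : T → F) (K : ℕ)
    (hK : Set.ncard {t | b t ≠ 0} ≤ K) (hb : ∃ t, b t ≠ 0) :
    ∃ s < K, ∑ t, node t ^ s * b t ≠ 0 := by
  classical
  by_contra hcon
  push Not at hcon
  obtain ⟨t0, ht0⟩ := hb
  have hS : Set.ncard {t | b t ≠ 0} = (univ.filter fun t => b t ≠ 0).card := by
    rw [← Set.ncard_coe_finset]
    congr 1
    ext t
    simp
  rw [hS] at hK
  have h0 : t0 ∈ univ.filter fun t => b t ≠ 0 := by simp [ht0]
  have hdeg : (∏ t ∈ (univ.filter fun t => b t ≠ 0).erase t0,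
      (Polynomial.X - Polynomial.C (node t))).natDegree < K := by
    rw [Polynomial.natDegree_prod_of_monic _ _ fun t _ => Polynomial.monic_X_sub_C _]
    simp only [Polynomial.natDegree_X_sub_C, sum_const, smul_eq_mul, mul_one]
    have h1 := card_erase_lt_of_mem h0
    omega
  have h1 : ∑ t, (∏ t' ∈ (univ.filter fun t => b t ≠ 0).erase t0,
      (Polynomial.X - Polynomial.C (node t'))).eval (node t) * b t = 0 := by
    simp_rw [Polynomial.eval_eq_sum_range' hdeg, Finset.sum_mul]
    rw [Finset.sum_comm]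
    refine Finset.sum_eq_zero fun s hs => ?_
    have h2 := hcon s (Finset.mem_range.1 hs)
    simp_rw [mul_assoc]
    rw [← Finset.mul_sum, h2, mul_zero]
  rw [Finset.sum_eq_single t0] at h1
  · rcases mul_eq_zero.1 h1 with h2 | h2
    · rw [Polynomial.eval_prod, Finset.prod_eq_zero_iff] at h2
      obtain ⟨t, ht, h3⟩ := h2
      rw [Polynomial.eval_sub, Polynomial.eval_X, Polynomial.eval_C, sub_eq_zero] at h3
      exact (Finset.mem_erase.1 ht).1 (hnode h3).symm
    · exact ht0 h2
  · intro t _ ht
    by_cases hbt : b t = 0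
    · rw [hbt, mul_zero]
    · rw [Polynomial.eval_prod]
      rw [Finset.prod_eq_zero (Finset.mem_erase.2 ⟨ht, by simp [hbt]⟩) (by simp), zero_mul]
  · intro h
    exact absurd (mem_univ t0) h

end Pool.Agent.CubeE
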