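import Pool.Agent.CubeE.BU
import Pool.Agent.CubeE.Loc
import Pool.Agent.CubeE.Chain
import Pool.Agent.CubeE.Mom
import Pool.Agent.CubeE.Vand

/-!
# MP_c0b923_gt, package MainO: odd expanding maps

PROOF. (Part G of /team-store/CUBE.md.) `n = 0` is trivial (`0 ≤ r`). `f 0 = 0`; `‖f x‖ ≤ r` on the cube
(`2 f x = (f x - q) - (f (-x) - q)`). Suppose `r < √n`. Choose `b < a < 1`, `0 < b`, `r < b √n`; `δ` from
`exists_local`, `N ≥ 1` with `4 r < δ N`, `H : Hyp f N a δ r q`. `U = {x | (0, x) ∈ EE0 f N a}` is open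
(`isOpen_EE0`), bounded, contains `0` (`isChain_const`), symmetric: if `w` is a chain from `0` to `x` then
`-w` is a chain from `0` to `-x` (`f (-w s) = -f (w s)`); `closure U ⊆ {x | (0, x) ∈ EE f N a}`.
`u x i s = ch f N a (0, x) (Fin.ofNat (N + 1) s) i`, continuous on `closure U` (`continuousOn_ch`), odd in `x`
(`ch_eq`). `B (i, k') x = lbet N b (k' + 1) (u x i) * mom N b k' (u x i)`, `(i, k') ∈ Fin n × Fin n`:
continuous, odd. Apply `bu_open` with `σ = Fin (n - 1)`, `h s x = ∑ t, node t ^ s * B t x`, `node t` distinct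
reals. Let `x` be the zero on the frontier, `w = ch f N a (0, x)`: `x ∈ closure U`, `x ∉ U`, so
`|w s i| = a > b` for some `s, i` (`touch_of_not_EE0`).
TV: `S i = ∑_{s<N} |u x i (s+1) - u x i s|`. The vector `(S i)_i` is the sum over `s` of the vectors
`(|w (s+1) i - w s i|)_i` of norm `‖w (s+1) - w s‖ ≤ ‖f x‖ / N` (`sum_chain_le`, `f 0 = 0`), so
`∑ i, S i ^ 2 ≤ ‖f x‖ ^ 2 ≤ r ^ 2`.
`A i = Nat.findGreatest (fun k => ∃ c, b < c ∧ LAlt N c k (u x i)) n`. If `k ≥ 1` and `LAlt N c k (u x i)`,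
`c > b`, then `(2 k - 1) b ≤ S i` (`lalt_tv`, `w 0 = 0`). So `∑ i, A i ≤ ∑_{A i ≥ 1} (2 A i - 1)^2 ≤ r ^ 2 / b ^ 2 < n`;
in particular `A i < n` and `¬ ∃ c, b < c ∧ LAlt N c (A i + 1) (u x i)`, and every `k ≤ n` with
`∃ c, b < c ∧ LAlt N c k (u x i)` is `≤ A i`. `B (i, k') x ≠ 0` implies `lbet > 0`, `k' + 1 ≤ A i`: at most
`∑ A i ≤ n - 1` entries are nonzero. For the touched coordinate `i`: `moment` with `k = A i` gives
`k' < A i`, `mom N b k' ≠ 0`, and `lbet N b (k' + 1) > 0` (`lalt_anti`, `lbet_pos`): `B (i, k') x ≠ 0`.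
`vand_ne` with `K = n - 1`: contradiction.
-/

set_option autoImplicit false

open Finset

namespace Pool.Agent.CubeE

open Pool.Agent.Expand

private lemma fin_ofNat_castSucc {N : ℕ} (s : Fin N) :
    Fin.ofNat (N + 1) (s : ℕ) = s.castSucc := by
  apply Fin.ext
  rw [Fin.val_ofNat, Fin.val_castSucc]
  exact Nat.mod_eq_of_lt (by omega)

private lemma fin_ofNat_succ {N : ℕ} (s : Fin N) :
    Fin.ofNat (N + 1) ((s : ℕ) + 1) = s.succ := by
  apply Fin.ext
  rw [Fin.val_ofNat, Fin.val_succ]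
  exact Nat.mod_eq_of_lt (by omega)

private lemma tv_sq {n N : ℕ} (w : Fin (N + 1) → EuclideanSpace ℝ (Fin n)) (R : ℝ)
    (hw : ∑ s : Fin N, dist (w s.succ) (w s.castSucc) ≤ R) :
    ∑ i, (∑ s ∈ range N, |w (Fin.ofNat (N + 1) (s + 1)) i - w (Fin.ofNat (N + 1) s) i|) ^ 2 ≤
      R ^ 2 := by
  let V : Fin N → EuclideanSpace ℝ (Fin n) := fun s =>
    WithLp.toLp 2 (fun i => |w s.succ i - w s.castSucc i|)
  have hV : ∀ s, ‖V s‖ = dist (w s.succ) (w s.castSucc) := by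
    intro s
    rw [dist_eq_norm, EuclideanSpace.norm_eq, EuclideanSpace.norm_eq]
    congr 1
    refine sum_congr rfl fun i _ => ?_
    simp [V]
  have h1 : ‖∑ s, V s‖ ≤ R := by
    refine (norm_sum_le _ _).trans ?_
    rw [sum_congr rfl fun s _ => hV s]
    exact hw
  have h2 : ∀ i, (∑ s, V s) i =
      ∑ s ∈ range N, |w (Fin.ofNat (N + 1) (s + 1)) i - w (Fin.ofNat (N + 1) s) i| := by
    intro i
    rw [← Fin.sum_univ_eq_sum_range
      (fun s => |w (Fin.ofNat (N + 1) (s + 1)) i - w (Fin.ofNat (N + 1) s) i|) N]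
    rw [WithLp.ofLp_sum, Finset.sum_apply]
    refine sum_congr rfl fun s _ => ?_
    rw [fin_ofNat_castSucc, fin_ofNat_succ]
  have h3 : ∑ i, (∑ s ∈ range N,
      |w (Fin.ofNat (N + 1) (s + 1)) i - w (Fin.ofNat (N + 1) s) i|) ^ 2 = ‖∑ s, V s‖ ^ 2 := by
    rw [EuclideanSpace.real_norm_sq_eq]
    exact sum_congr rfl fun i _ => by rw [h2 i]
  rw [h3]
  exact pow_le_pow_left₀ (norm_nonneg _) h1 2

private lemma sum_A_lt {n : ℕ} (S : Fin n → ℝ) (A : Fin n → ℕ) (b r : ℝ) (hb : 0 < b)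
    (hr : r ^ 2 < n * b ^ 2) (hS : ∑ i, S i ^ 2 ≤ r ^ 2)
    (hA : ∀ i, 1 ≤ A i → (2 * (A i : ℝ) - 1) * b ≤ S i) : ∑ i, A i < n := by
  have h1 : ∀ i, (A i : ℝ) * b ^ 2 ≤ S i ^ 2 := by
    intro i
    rcases Nat.eq_zero_or_pos (A i) with h0 | h0
    · rw [h0, Nat.cast_zero, zero_mul]
      exact sq_nonneg _
    · have h2 := hA i h0
      have h3 : (1 : ℝ) ≤ A i := by exact_mod_cast h0
      have h4 : 0 ≤ (2 * (A i : ℝ) - 1) * b := mul_nonneg (by linarith) hb.le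
      have h5 : ((2 * (A i : ℝ) - 1) * b) ^ 2 ≤ S i ^ 2 := pow_le_pow_left₀ h4 h2 2
      have h6 : (A i : ℝ) * b ^ 2 ≤ ((2 * (A i : ℝ) - 1) * b) ^ 2 := by
        rw [mul_pow]
        refine mul_le_mul_of_nonneg_right ?_ (sq_nonneg _)
        nlinarith
      exact h6.trans h5
  have h2 : (∑ i, (A i : ℝ)) * b ^ 2 ≤ r ^ 2 := by
    rw [sum_mul]
    exact (sum_le_sum fun i _ => h1 i).trans hS
  have h3 : (∑ i, (A i : ℝ)) * b ^ 2 < n * b ^ 2 := h2.trans_lt hr
  have h4 : (∑ i, (A i : ℝ)) < n := lt_of_mul_lt_mul_right h3 (sq_nonneg _)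
  exact_mod_cast h4

private lemma ncard_le_sum {n : ℕ} (A : Fin n → ℕ) (B : Fin n × Fin n → ℝ)
    (hB : ∀ t, B t ≠ 0 → (t.2 : ℕ) < A t.1) : Set.ncard {t | B t ≠ 0} ≤ ∑ i, A i := by
  classical
  have h1 : Set.ncard {t | B t ≠ 0} = (univ.filter fun t => B t ≠ 0).card := by
    rw [← Set.ncard_coe_finset]
    congr 1
    ext t
    simp
  have h2 : (univ.sigma fun i : Fin n => range (A i)).card = ∑ i, A i := by
    rw [card_sigma]
    simp
  rw [h1, ← h2]
  refine Finset.card_le_card_of_injOn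
    (fun t => (⟨t.1, (t.2 : ℕ)⟩ : (_ : Fin n) × ℕ)) ?_ ?_
  · intro t ht
    have h3 := (mem_filter.1 (Finset.mem_coe.1 ht)).2
    simpa using hB t h3
  · rintro ⟨t1, t2⟩ _ ⟨t3, t4⟩ _ h3
    simp only [Sigma.mk.injEq, heq_eq_eq] at h3
    exact Prod.ext h3.1 (Fin.ext h3.2)

/-- the combinatorial heart: the zero of the Borsuk-Ulam system cannot exist -/
private lemma no_zero {n N : ℕ} {b r : ℝ} (hb : 0 < b) (hrn : r ^ 2 < n * b ^ 2)
    (u : Fin n → ℕ → ℝ) (hu0 : ∀ i, u i 0 = 0)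
    (hS : ∑ i, (∑ s ∈ range N, |u i (s + 1) - u i s|) ^ 2 ≤ r ^ 2)
    (hT : ∃ i, ∃ s ≤ N, b < |u i s|) (node : Fin n × Fin n → ℝ)
    (hnode : Function.Injective node)
    (hz : ∀ s : Fin (n - 1), ∑ t : Fin n × Fin n, node t ^ (s : ℕ) *
      (lbet N b ((t.2 : ℕ) + 1) (u t.1) * mom N b (t.2 : ℕ) (u t.1)) = 0) : False := by
  classical
  let P : Fin n → ℕ → Prop := fun i k => ∃ c, b < c ∧ LAlt N c k (u i)
  let A : Fin n → ℕ := fun i => Nat.findGreatest (P i) n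
  have hP0 : ∀ i, P i 0 := by
    intro i
    exact ⟨b + 1, by linarith, fun _ => 0, 1, Or.inl rfl, fun l hl => by omega,
      fun l hl => by omega, fun l hl => by omega⟩
  have hPA : ∀ i, P i (A i) := fun i => Nat.findGreatest_spec (Nat.zero_le n) (hP0 i)
  have hPanti : ∀ i k k', k ≤ k' → P i k' → P i k := by
    rintro i k k' hkk ⟨c, hc, h⟩
    exact ⟨c, hc, lalt_anti hkk h⟩
  have hA1 : ∀ i, 1 ≤ A i → (2 * (A i : ℝ) - 1) * b ≤
      ∑ s ∈ range N, |u i (s + 1) - u i s| := by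
    intro i hi
    obtain ⟨c, hc, h⟩ := hPA i
    exact lalt_tv hi (hu0 i) (lalt_mono_c h hc.le)
  have hsum : ∑ i, A i < n := sum_A_lt _ A b r hb hrn hS hA1
  have hAlt : ∀ i, A i < n := fun i =>
    (single_le_sum (f := A) (fun _ _ => Nat.zero_le _) (mem_univ i)).trans_lt hsum
  have hle : ∀ i k, k ≤ n → P i k → k ≤ A i := fun i k hk h => Nat.le_findGreatest hk h
  have hnot : ∀ i, ¬ P i (A i + 1) := by
    intro i h
    have := hle i (A i + 1) (hAlt i) h
    omega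
  obtain ⟨i, hi⟩ := hT
  obtain ⟨k', hk', hmom⟩ := moment hb.le hi (A i) (hnot i)
  have hk'n : k' < n := hk'.trans (hAlt i)
  obtain ⟨s, hs, hne⟩ := vand_ne node hnode
    (fun t : Fin n × Fin n => lbet N b ((t.2 : ℕ) + 1) (u t.1) * mom N b (t.2 : ℕ) (u t.1))
    (n - 1) ((ncard_le_sum A _ fun t ht => by
      have h1 : lbet N b ((t.2 : ℕ) + 1) (u t.1) ≠ 0 := left_ne_zero_of_mul ht
      have h2 : 0 < lbet N b ((t.2 : ℕ) + 1) (u t.1) :=
        lt_of_le_of_ne (lbet_nonneg (by omega) _) (Ne.symm h1)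
      have h3 := (lbet_pos (by omega) (u t.1)).1 h2
      have h4 := hle t.1 ((t.2 : ℕ) + 1) (by omega) h3
      omega).trans (by omega))
    ⟨(i, ⟨k', hk'n⟩), by
      have h1 : 0 < lbet N b (k' + 1) (u i) :=
        (lbet_pos (by omega) (u i)).2 (hPanti i (k' + 1) (A i) (by omega) (hPA i))
      exact mul_ne_zero h1.ne' hmom⟩
  exact hne (hz ⟨s, hs⟩)

private lemma chain_neg {n N : ℕ} {f : EuclideanSpace ℝ (Fin n) → EuclideanSpace ℝ (Fin n)}
    {a : ℝ} (ha : a ≤ 1) (hodd : ∀ x ∈ cube n, f (-x) = -f x) (hf0 : f 0 = 0)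
    {x : EuclideanSpace ℝ (Fin n)} {w : Fin (N + 1) → EuclideanSpace ℝ (Fin n)}
    (h : IsChain f N a 0 x w) : IsChain f N a 0 (-x) (fun s => -w s) := by
  obtain ⟨h0, h1, h2, h3, h4⟩ := h
  have hc : ∀ s, w s ∈ cube n := fun s i => (h2 s i).trans ha
  have hx : x ∈ cube n := h1 ▸ hc _
  refine ⟨by simp [h0], by simp [h1], fun s i => by simpa using h2 s i, fun s => ?_, fun s => ?_⟩
  · rw [hodd _ (hc s), hodd x hx, h3 s, hf0]
    simp
  · rw [hodd _ (hc _), hodd _ (hc _), dist_neg_neg, dist_neg_neg]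
    exact h4 s

theorem odd_sqrt_le {n : ℕ} (f : EuclideanSpace ℝ (Fin n) → EuclideanSpace ℝ (Fin n))
    (hf : IsExpandingOn f (cube n)) (hodd : ∀ x ∈ cube n, f (-x) = -f x)
    (q : EuclideanSpace ℝ (Fin n)) (r : ℝ)
    (h : Set.MapsTo f (cube n) (Metric.closedBall q r)) : Real.sqrt n ≤ r := by
  have h0c : (0 : EuclideanSpace ℝ (Fin n)) ∈ cube n := fun i => by simp
  have hq : ∀ x ∈ cube n, dist (f x) q ≤ r := fun x hx => Metric.mem_closedBall.1 (h hx)
  have hr0 : 0 ≤ r := dist_nonneg.trans (hq 0 h0c)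
  rcases Nat.eq_zero_or_pos n with hn | hn
  · subst hn
    simpa using hr0
  have hf0 : f 0 = 0 := by
    have h1 := hodd 0 h0c
    rw [neg_zero] at h1
    have h2 : (2 : ℝ) • f 0 = 0 := by
      rw [two_smul]
      nth_rewrite 1 [h1]
      exact neg_add_cancel _
    exact (smul_eq_zero.1 h2).resolve_left two_ne_zero
  have hnorm : ∀ x ∈ cube n, ‖f x‖ ≤ r := by
    intro x hx
    have hx' : -x ∈ cube n := fun i => by simpa using hx i
    have h1 := hq x hx
    have h2 := hq (-x) hx'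
    rw [hodd x hx] at h2
    rw [dist_eq_norm] at h1 h2
    have h3 : (2 : ℝ) • f x = (f x - q) - (-f x - q) := by
      rw [two_smul]
      abel
    have h4 := norm_sub_le (f x - q) (-f x - q)
    rw [← h3, norm_smul] at h4
    norm_num at h4
    linarith
  by_contra hcon
  push Not at hcon
  have hsn : 0 < Real.sqrt n := hr0.trans_lt hcon
  obtain ⟨b, hb1, hb2⟩ := exists_between ((div_lt_one hsn).2 hcon)
  obtain ⟨a, ha1, ha2⟩ := exists_between hb2
  have hb0 : 0 < b := (div_nonneg hr0 hsn.le).trans_lt hb1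
  have hrb : r < b * Real.sqrt n := (div_lt_iff₀ hsn).1 hb1
  have hrn : r ^ 2 < n * b ^ 2 := by
    have h1 : r ^ 2 < (b * Real.sqrt n) ^ 2 := pow_lt_pow_left₀ hrb hr0 (by norm_num)
    rw [mul_pow, Real.sq_sqrt (Nat.cast_nonneg n)] at h1
    linarith
  obtain ⟨δ, hδ, hloc, hinv⟩ := exists_local hf ha2
  obtain ⟨N0, hN0⟩ := exists_nat_gt (4 * r / δ)
  obtain ⟨N, rfl⟩ : ∃ N, N = N0 + 1 := ⟨_, rfl⟩
  have H : Hyp f (N0 + 1) a δ r q := by
    refine ⟨hb0.trans ha1, ha2, hδ, Nat.succ_pos _, ?_, hf.1, hq, hloc, hinv⟩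
    have h1 := (div_lt_iff₀ hδ).1 hN0
    push_cast
    nlinarith
  have hN1 : 0 < N0 + 1 := Nat.succ_pos _
  generalize N0 + 1 = N at H hN1
  have hCcl : IsClosed {x | ((0 : EuclideanSpace ℝ (Fin n)), x) ∈ EE f N a} :=
    (isCompact_EE H).isClosed.preimage (by fun_prop)
  have hUo : IsOpen {x | ((0 : EuclideanSpace ℝ (Fin n)), x) ∈ EE0 f N a} :=
    (isOpen_EE0 H).preimage (by fun_prop)
  have hUC : {x | ((0 : EuclideanSpace ℝ (Fin n)), x) ∈ EE0 f N a} ⊆
      {x | ((0 : EuclideanSpace ℝ (Fin n)), x) ∈ EE f N a} := fun x hx => EE0_subset f N a hx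
  have hclC : closure {x | ((0 : EuclideanSpace ℝ (Fin n)), x) ∈ EE0 f N a} ⊆
      {x | ((0 : EuclideanSpace ℝ (Fin n)), x) ∈ EE f N a} := closure_minimal hUC hCcl
  have hUb : Bornology.IsBounded {x | ((0 : EuclideanSpace ℝ (Fin n)), x) ∈ EE0 f N a} :=
    ((isCompact_EE H).image continuous_snd).isBounded.subset
      fun x hx => ⟨(0, x), EE0_subset f N a hx, rfl⟩
  have hUS : ∀ x ∈ {x | ((0 : EuclideanSpace ℝ (Fin n)), x) ∈ EE0 f N a},
      -x ∈ {x | ((0 : EuclideanSpace ℝ (Fin n)), x) ∈ EE0 f N a} := by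
    rintro x ⟨w, hw, hw0⟩
    exact ⟨_, chain_neg ha2.le hodd hf0 hw, fun s i => by simpa using hw0 s i⟩
  have hU0 : (0 : EuclideanSpace ℝ (Fin n)) ∈
      {x | ((0 : EuclideanSpace ℝ (Fin n)), x) ∈ EE0 f N a} :=
    ⟨_, isChain_const N fun i => by simpa using H.ha0.le, fun s i => by simpa using H.ha0⟩
  have hneg : ∀ x, ((0 : EuclideanSpace ℝ (Fin n)), x) ∈ EE f N a →
      ch f N a (0, -x) = fun s => -ch f N a (0, x) s := fun x hx =>
    (ch_eq H (chain_neg ha2.le hodd hf0 (isChain_ch hx))).2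
  have hcont : ∀ i (s : ℕ), ContinuousOn (fun x => ch f N a (0, x) (Fin.ofNat (N + 1) s) i)
      (closure {x | ((0 : EuclideanSpace ℝ (Fin n)), x) ∈ EE0 f N a}) := by
    intro i s
    have h1 : ContinuousOn (fun x => ch f N a ((0 : EuclideanSpace ℝ (Fin n)), x))
        (closure {x | ((0 : EuclideanSpace ℝ (Fin n)), x) ∈ EE0 f N a}) :=
      (continuousOn_ch H).comp (by fun_prop) fun x hx => hclC hx
    have h2 : Continuous (fun w : Fin (N + 1) → EuclideanSpace ℝ (Fin n) =>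
        w (Fin.ofNat (N + 1) s) i) := by fun_prop
    exact h2.comp_continuousOn h1
  obtain ⟨x, hx, hz⟩ := bu_open n _ hUo hUb hUS hU0 (σ := Fin (n - 1))
    (by rw [Fintype.card_fin]; omega)
    (fun s x => ∑ t : Fin n × Fin n,
      ((finProdFinEquiv t : ℕ) : ℝ) ^ (s : ℕ) *
        (lbet N b ((t.2 : ℕ) + 1) (fun k => ch f N a (0, x) (Fin.ofNat (N + 1) k) t.1) *
          mom N b (t.2 : ℕ) (fun k => ch f N a (0, x) (Fin.ofNat (N + 1) k) t.1)))
    (fun s => continuousOn_finsetSum _ fun t _ => continuousOn_const.mul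
      ((lbet_continuousOn (by omega) fun k _ => hcont t.1 k).mul
        (mom_continuousOn fun k _ => hcont t.1 k)))
    (fun s x hx => by
      rw [hneg x (hclC hx), ← sum_neg_distrib]
      refine sum_congr rfl fun t _ => ?_
      have h1 := lbet_neg (N := N) (b := b) (k := (t.2 : ℕ) + 1)
        (fun k => ch f N a (0, x) (Fin.ofNat (N + 1) k) t.1)
      have h2 := mom_neg (N := N) (b := b) (k := (t.2 : ℕ))
        (fun k => ch f N a (0, x) (Fin.ofNat (N + 1) k) t.1)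
      simp only [PiLp.neg_apply]
      rw [h1, h2]
      ring)
  have hxE : ((0 : EuclideanSpace ℝ (Fin n)), x) ∈ EE f N a := hclC (frontier_subset_closure hx)
  have hxn : ((0 : EuclideanSpace ℝ (Fin n)), x) ∉ EE0 f N a := by
    rw [hUo.frontier_eq] at hx
    exact hx.2
  obtain ⟨s0, i0, ht⟩ := touch_of_not_EE0 hxE hxn
  have hch := isChain_ch hxE
  refine no_zero (N := N) hb0 hrn (fun i k => ch f N a (0, x) (Fin.ofNat (N + 1) k) i) ?_ ?_ ?_
    (fun t => ((finProdFinEquiv t : ℕ) : ℝ)) ?_ hz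
  · intro i
    have h1 : Fin.ofNat (N + 1) 0 = (0 : Fin (N + 1)) := by
      apply Fin.ext
      simp
    have h2 := hch.1
    simp only
    rw [h1, h2]
    simp
  · refine (tv_sq (ch f N a (0, x)) (dist (f x) (f 0)) ?_).trans ?_
    · have h1 : ∀ s : Fin N, dist (ch f N a (0, x) s.succ) (ch f N a (0, x) s.castSucc) ≤
          dist (f x) (f 0) / N := fun s => sum_chain_le hN1 hch s
      refine (sum_le_sum fun s _ => h1 s).trans ?_
      rw [sum_const, card_univ, Fintype.card_fin, nsmul_eq_mul]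
      have h2 : (N : ℝ) ≠ 0 := by exact_mod_cast hN1.ne'
      rw [mul_div_cancel₀ _ h2]
    · refine pow_le_pow_left₀ dist_nonneg ?_ 2
      rw [hf0, dist_zero_right]
      refine hnorm x fun i => ?_
      have h1 := hch.2.1
      have h2 := hch.2.2.1 (Fin.last N) i
      rw [h1] at h2
      exact h2.trans ha2.le
  · refine ⟨i0, (s0 : ℕ), by omega, ?_⟩
    have h1 : Fin.ofNat (N + 1) (s0 : ℕ) = s0 := by
      apply Fin.ext
      rw [Fin.val_ofNat]
      exact Nat.mod_eq_of_lt (by omega)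
    simp only
    rw [h1, ht]
    exact ha1
  · intro t t' htt
    have h1 : ((finProdFinEquiv t : ℕ) : ℝ) = ((finProdFinEquiv t' : ℕ) : ℝ) := htt
    have h2 : (finProdFinEquiv t : ℕ) = (finProdFinEquiv t' : ℕ) := by exact_mod_cast h1
    exact finProdFinEquiv.injective (Fin.ext h2)

end Pool.Agent.CubeE
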