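import Mathlib

/-!
# MP_c0b923_gt, package Alt: cyclic alternations of a periodic function

`Alt M c m u`: there are `2 m` integers `e 0 < e 1 < ... < e (2 m - 1) < e 0 + M` with
`(-1)^l u (e l) ≥ c`. `bet M b m u` = sup of `0` and of all `t ≥ 0` with `Alt M (b + t) m u`.

PROOFS. For bounded `u` (`|u| ≤ K`), `Alt M (b + t) m u` with `m ≥ 1` gives `b + t ≤ u (e 0) ≤ K`, so the set
is bounded above. `alt_mono_c`: clear. `bet_lip`: if `|u - v| ≤ κ` everywhere then `Alt M c m u` implies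
`Alt M (c - κ) m v`; for `t ≥ κ` this gives `t - κ` in the set of `v`, for `t < κ` use `0`.
`bet_continuousOn`: by periodicity the sup of `|u x k - u y k|` over `k` is a maximum over
`k ∈ range M` of finitely many continuous functions; use `bet_lip`. `bet_shift`: replace `e` by `e + N`.
`bet_pos`: sup of a set. `alt_anti`: drop the last indices (`2 m ≤ 2 m'`). `alt_tv`: by periodicity the
sum over `range M` equals the sum of `|u (k + 1) - u k|` over `Ico (e 0) (e 0 + M)`; split this interval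
at the points `e l`; on each of the `2 m` pieces (the last one is `[e (2 m - 1), e 0 + M]`, ending
with `u (e 0 + M) = u (e 0)`) the triangle inequality gives at least `2 b`.
-/

set_option autoImplicit false

open Finset

namespace Pool.Agent.CubeE

/-- cyclic alternation -/
def Alt (M : ℕ) (c : ℝ) (m : ℕ) (u : ℤ → ℝ) : Prop :=
  ∃ e : ℕ → ℤ, (∀ l, l + 1 < 2 * m → e l < e (l + 1)) ∧ e (2 * m - 1) < e 0 + M ∧
    ∀ l < 2 * m, c ≤ (-1) ^ l * u (e l)

/-- alternation depth -/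
noncomputable def bet (M : ℕ) (b : ℝ) (m : ℕ) (u : ℤ → ℝ) : ℝ :=
  sSup ({0} ∪ {t | 0 ≤ t ∧ Alt M (b + t) m u})

theorem alt_mono_c {M : ℕ} {c c' : ℝ} {m : ℕ} {u : ℤ → ℝ} (h : Alt M c m u) (hc : c' ≤ c) :
    Alt M c' m u := by
  obtain ⟨e, h1, h2, h3⟩ := h
  exact ⟨e, h1, h2, fun l hl => hc.trans (h3 l hl)⟩

private theorem alt_bdd {M : ℕ} {b K : ℝ} {m : ℕ} (hm : 1 ≤ m) {u : ℤ → ℝ}
    (hu : ∀ k, |u k| ≤ K) : BddAbove ({0} ∪ {t | 0 ≤ t ∧ Alt M (b + t) m u}) := by
  refine ⟨max 0 (K - b), ?_⟩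
  rintro t (ht | ⟨-, e, -, -, h3⟩)
  · rw [Set.mem_singleton_iff.1 ht]
    exact le_max_left _ _
  · have h := h3 0 (by omega)
    simp only [pow_zero, one_mul] at h
    have h' := (le_abs_self _).trans (hu (e 0))
    exact le_max_of_le_right (by linarith)

private theorem alt_mem0 {M : ℕ} {b : ℝ} {m : ℕ} {u : ℤ → ℝ} :
    (0 : ℝ) ∈ ({0} ∪ {t | 0 ≤ t ∧ Alt M (b + t) m u} : Set ℝ) := Or.inl rfl

theorem bet_nonneg {M : ℕ} {b K : ℝ} {m : ℕ} (hm : 1 ≤ m) {u : ℤ → ℝ} (hu : ∀ k, |u k| ≤ K) :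
    0 ≤ bet M b m u :=
  le_csSup (alt_bdd hm hu) alt_mem0

private theorem alt_near {M : ℕ} {c κ : ℝ} {m : ℕ} {u v : ℤ → ℝ} (hκ : ∀ k, |u k - v k| ≤ κ)
    (h : Alt M c m u) : Alt M (c - κ) m v := by
  obtain ⟨e, h1, h2, h3⟩ := h
  refine ⟨e, h1, h2, fun l hl => ?_⟩
  have ha := h3 l hl
  have hb := hκ (e l)
  have hc : |(-1 : ℝ) ^ l * (u (e l) - v (e l))| ≤ κ := by
    rw [abs_mul, abs_pow, abs_neg, abs_one, one_pow, one_mul]
    exact hb
  have hd := (abs_le.1 hc).2
  rw [mul_sub] at hd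
  linarith

private theorem bet_le_aux {M : ℕ} {b K κ : ℝ} {m : ℕ} (hm : 1 ≤ m) {u v : ℤ → ℝ}
    (hv : ∀ k, |v k| ≤ K) (hκ : ∀ k, |u k - v k| ≤ κ) :
    bet M b m u ≤ bet M b m v + κ := by
  have hκ0 : 0 ≤ κ := (abs_nonneg _).trans (hκ 0)
  have hb0 : 0 ≤ bet M b m v := bet_nonneg hm hv
  refine csSup_le ⟨0, alt_mem0⟩ ?_
  rintro t (ht | ⟨-, ht⟩)
  · rw [Set.mem_singleton_iff.1 ht]
    linarith
  · rcases le_total κ t with h | h
    · have h2 : Alt M (b + (t - κ)) m v := by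
        have := alt_near hκ ht
        rwa [show b + t - κ = b + (t - κ) by ring] at this
      have h3 : t - κ ≤ bet M b m v := le_csSup (alt_bdd hm hv) (Or.inr ⟨by linarith, h2⟩)
      linarith
    · linarith

theorem bet_lip {M : ℕ} {b K κ : ℝ} {m : ℕ} (hm : 1 ≤ m) {u v : ℤ → ℝ} (hu : ∀ k, |u k| ≤ K)
    (hv : ∀ k, |v k| ≤ K) (hκ : ∀ k, |u k - v k| ≤ κ) :
    |bet M b m u - bet M b m v| ≤ κ := by
  have h1 := bet_le_aux (M := M) (b := b) hm hv hκ
  have h2 := bet_le_aux (M := M) (b := b) hm hu (u := v) (v := u)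
    (fun k => by rw [abs_sub_comm]; exact hκ k)
  rw [abs_le]
  constructor <;> linarith

private theorem alt_per {M : ℕ} {u : ℤ → ℝ} (hper : ∀ k, u (k + M) = u k) (k : ℤ) :
    u k = u (k % M) := by
  have h : Function.Periodic u (M : ℤ) := hper
  have h2 := h.int_mul (k / M) (k % M)
  rw [← h2]
  congr 1
  have h3 := Int.emod_add_mul_ediv k M
  push_cast
  linarith [mul_comm (k / (M : ℤ)) (M : ℤ)]

theorem bet_continuousOn {X : Type*} [TopologicalSpace X] {S : Set X} {M : ℕ} (hM : 0 < M)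
    {b K : ℝ} {m : ℕ} (hm : 1 ≤ m) {u : X → ℤ → ℝ} (hu : ∀ x ∈ S, ∀ k, |u x k| ≤ K)
    (hper : ∀ x ∈ S, ∀ k, u x (k + M) = u x k) (hc : ∀ k, ContinuousOn (fun x => u x k) S) :
    ContinuousOn (fun x => bet M b m (u x)) S := by
  intro x hx
  rw [ContinuousWithinAt, Metric.tendsto_nhds]
  intro ε hε
  have h1 : ∀ᶠ y in nhdsWithin x S, ∀ k ∈ range M, |u y k - u x k| < ε / 2 := by
    rw [Filter.eventually_all_finset]
    intro k _
    have h := Metric.tendsto_nhds.1 (hc k x hx) (ε / 2) (by linarith)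
    filter_upwards [h] with y hy
    rwa [Real.dist_eq] at hy
  filter_upwards [h1, self_mem_nhdsWithin] with y hy hyS
  rw [Real.dist_eq]
  have h2 : ∀ k, |u y k - u x k| ≤ ε / 2 := by
    intro k
    rw [alt_per (hper y hyS) k, alt_per (hper x hx) k]
    have hM' : (0 : ℤ) < M := by exact_mod_cast hM
    obtain ⟨n, hn⟩ := Int.eq_ofNat_of_zero_le (Int.emod_nonneg k hM'.ne')
    have hlt := Int.emod_lt_of_pos k hM'
    rw [hn] at hlt ⊢
    exact (hy n (mem_range.2 (by exact_mod_cast hlt))).le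
  have h3 := bet_lip (M := M) (b := b) hm (hu y hyS) (hu x hx) h2
  linarith

private theorem alt_shift {M : ℕ} {c : ℝ} {m : ℕ} {u : ℤ → ℝ} (N : ℤ)
    (h : Alt M c m (fun k => u (k + N))) : Alt M c m u := by
  obtain ⟨e, h1, h2, h3⟩ := h
  refine ⟨fun l => e l + N, fun l hl => ?_, ?_, fun l hl => h3 l hl⟩
  · have := h1 l hl
    simp only
    omega
  · simp only
    omega

theorem bet_shift {M : ℕ} {b : ℝ} {m : ℕ} (u : ℤ → ℝ) (N : ℤ) :
    bet M b m (fun k => u (k + N)) = bet M b m u := by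
  have h : ∀ c, Alt M c m (fun k => u (k + N)) ↔ Alt M c m u := by
    intro c
    refine ⟨alt_shift N, fun h => ?_⟩
    refine alt_shift (u := fun k => u (k + N)) (-N) ?_
    simpa using h
  unfold bet
  simp only [h]

theorem bet_pos {M : ℕ} {b K : ℝ} {m : ℕ} (hm : 1 ≤ m) {u : ℤ → ℝ} (hu : ∀ k, |u k| ≤ K) :
    0 < bet M b m u ↔ ∃ c, b < c ∧ Alt M c m u := by
  constructor
  · intro h
    obtain ⟨t, ht, ht0⟩ := exists_lt_of_lt_csSup ⟨0, alt_mem0⟩ h
    rcases ht with ht | ht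
    · rw [Set.mem_singleton_iff.1 ht] at ht0
      exact absurd ht0 (lt_irrefl _)
    · exact ⟨b + t, by linarith, ht.2⟩
  · rintro ⟨c, hc, h⟩
    have h2 : c - b ≤ bet M b m u := le_csSup (alt_bdd hm hu)
      (Or.inr ⟨by linarith, by rwa [show b + (c - b) = c by ring]⟩)
    linarith

private theorem alt_mono_idx {e : ℕ → ℤ} {n : ℕ} (h : ∀ l, l + 1 < n → e l < e (l + 1)) :
    ∀ j i, i ≤ j → j < n → e i ≤ e j := by
  intro j
  induction j with
  | zero =>
    intro i hi _
    rw [Nat.le_zero.1 hi]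
  | succ j ih =>
    intro i hi hj
    rcases Nat.lt_or_ge i (j + 1) with hlt | hge
    · have h1 := ih i (by omega) (by omega)
      have h2 := h j hj
      omega
    · rw [show i = j + 1 by omega]

theorem alt_anti {M : ℕ} {c : ℝ} {m m' : ℕ} (hm : 1 ≤ m) (hmm : m ≤ m') {u : ℤ → ℝ}
    (h : Alt M c m' u) : Alt M c m u := by
  obtain ⟨e, h1, h2, h3⟩ := h
  refine ⟨e, fun l hl => h1 l (by omega), ?_, fun l hl => h3 l (by omega)⟩
  have h4 := alt_mono_idx h1 (2 * m' - 1) (2 * m - 1) (by omega) (by omega)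
  omega

private theorem alt_sum_shift {M : ℕ} {g : ℤ → ℝ} (hg : ∀ k, g (k + M) = g k) (a : ℤ) :
    ∑ k ∈ range M, g (a + k) = ∑ k ∈ range M, g k := by
  have h1 : ∀ a : ℤ, ∑ k ∈ range M, g (a + 1 + k) = ∑ k ∈ range M, g (a + k) := by
    intro a
    have e1 := Finset.sum_range_succ (fun k : ℕ => g (a + k)) M
    have e2 := Finset.sum_range_succ' (fun k : ℕ => g (a + k)) M
    simp only [Nat.cast_add, Nat.cast_one, Nat.cast_zero, add_zero] at e1 e2
    have e3 : ∑ k ∈ range M, g (a + 1 + k) = ∑ k ∈ range M, g (a + (k + 1)) :=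
      Finset.sum_congr rfl fun k _ => by rw [show a + 1 + (k : ℤ) = a + (k + 1) by ring]
    rw [e3]
    have e4 := hg a
    linarith
  induction a using Int.induction_on with
  | zero => simp
  | succ i ih => rw [h1, ih]
  | pred i ih =>
    rw [← ih, ← h1 (-(i : ℤ) - 1)]
    refine Finset.sum_congr rfl fun k _ => ?_
    rw [show -(i : ℤ) - 1 + 1 + (k : ℤ) = -(i : ℤ) + k by ring]

private theorem alt_sum_split (v : ℕ → ℝ) (f : ℕ → ℕ) (hf0 : f 0 = 0) :
    ∀ n, (∀ l < n, f l ≤ f (l + 1)) →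
      ∑ l ∈ range n, |v (f (l + 1)) - v (f l)| ≤ ∑ k ∈ range (f n), |v (k + 1) - v k| := by
  intro n
  induction n with
  | zero => intro _; simp [hf0]
  | succ n ih =>
    intro h
    have h1 := ih fun l hl => h l (by omega)
    have h2 := h n (by omega)
    rw [Finset.sum_range_succ, ← Finset.sum_range_add_sum_Ico _ h2]
    have h3 : |v (f (n + 1)) - v (f n)| ≤ ∑ k ∈ Ico (f n) (f (n + 1)), |v (k + 1) - v k| := by
      have h4 := dist_le_Ico_sum_dist v h2
      rw [dist_comm, Real.dist_eq] at h4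
      refine h4.trans (le_of_eq (Finset.sum_congr rfl fun k _ => ?_))
      rw [dist_comm, Real.dist_eq]
    linarith

theorem alt_tv {M : ℕ} {b : ℝ} {m : ℕ} (hm : 1 ≤ m) {u : ℤ → ℝ}
    (hper : ∀ k, u (k + M) = u k) (h : Alt M b m u) :
    4 * m * b ≤ ∑ k ∈ range M, |u ((k : ℤ) + 1) - u k| := by
  obtain ⟨e, h1, h2, h3⟩ := h
  set E : ℕ → ℤ := fun l => if l < 2 * m then e l else e 0 + M with hE
  have hElt : ∀ l < 2 * m, E l = e l := fun l hl => by simp [hE, hl]
  have hEend : E (2 * m) = e 0 + M := by simp [hE]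
  have hmono : ∀ l < 2 * m, E l ≤ E (l + 1) := by
    intro l hl
    rcases Nat.lt_or_ge (l + 1) (2 * m) with hl2 | hl2
    · rw [hElt l hl, hElt _ hl2]
      exact (h1 l hl2).le
    · rw [hElt l hl, show l + 1 = 2 * m by omega, hEend, show l = 2 * m - 1 by omega]
      exact h2.le
  have hval : ∀ l ≤ 2 * m, b ≤ (-1) ^ l * u (E l) := by
    intro l hl
    rcases Nat.lt_or_ge l (2 * m) with hl2 | hl2
    · rw [hElt l hl2]
      exact h3 l hl2
    · rw [show l = 2 * m by omega, hEend, hper]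
      have h4 := h3 0 (by omega)
      rw [pow_zero] at h4
      rw [pow_mul, neg_one_sq, one_pow]
      exact h4
  have hge : ∀ l ≤ 2 * m, e 0 ≤ E l := by
    intro l
    induction l with
    | zero => intro _; rw [hElt 0 (by omega)]
    | succ l ih =>
      intro hl
      have h5 := ih (by omega)
      have h6 := hmono l (by omega)
      omega
  have hsum : ∑ k ∈ range M, |u ((k : ℤ) + 1) - u k| =
      ∑ k ∈ range M, |u (e 0 + ((k + 1 : ℕ) : ℤ)) - u (e 0 + (k : ℤ))| := by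
    have h7 := alt_sum_shift (M := M) (g := fun k => |u (k + 1) - u k|) (fun k => by
      have e1 : u (k + M + 1) = u (k + 1) := by
        rw [show k + (M : ℤ) + 1 = (k + 1) + M by ring]
        exact hper _
      simp only [e1, hper]) (e 0)
    rw [← h7]
    refine Finset.sum_congr rfl fun k _ => ?_
    rw [show e 0 + (k : ℤ) + 1 = e 0 + ((k + 1 : ℕ) : ℤ) by push_cast; ring]
  have hspl := alt_sum_split (fun k => u (e 0 + (k : ℤ))) (fun l => (E l - e 0).toNat)
    (by simp [hElt 0 (by omega)]) (2 * m) (fun l hl => by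
      have := hmono l hl
      omega)
  have hM : (E (2 * m) - e 0).toNat = M := by
    rw [hEend]
    simp
  simp only [hM] at hspl
  rw [hsum]
  refine le_trans ?_ hspl
  have hterm : ∀ l ∈ range (2 * m), 2 * b ≤
      |u (e 0 + (((E (l + 1) - e 0).toNat : ℕ) : ℤ)) -
        u (e 0 + (((E l - e 0).toNat : ℕ) : ℤ))| := by
    intro l hl
    rw [mem_range] at hl
    have h8 := hge l hl.le
    have h9 := hge (l + 1) (by omega)
    rw [show e 0 + (((E (l + 1) - e 0).toNat : ℕ) : ℤ) = E (l + 1) by omega,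
      show e 0 + (((E l - e 0).toNat : ℕ) : ℤ) = E l by omega]
    have h10 := hval l hl.le
    have h11 := hval (l + 1) (by omega)
    have h12 : |(-1 : ℝ) ^ l * (u (E l) - u (E (l + 1)))| = |u (E (l + 1)) - u (E l)| := by
      rw [abs_mul, abs_pow, abs_neg, abs_one, one_pow, one_mul, abs_sub_comm]
    rw [← h12]
    refine le_trans ?_ (le_abs_self _)
    rw [pow_succ] at h11
    rw [mul_sub]
    linarith
  have hfin := Finset.card_nsmul_le_sum _ _ _ hterm
  rw [card_range, nsmul_eq_mul] at hfin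
  push_cast at hfin
  refine le_trans (le_of_eq ?_) hfin
  ring

/-- two touches of opposite sign give one cyclic alternation -/
theorem alt_one {M : ℕ} {c : ℝ} (hM : 0 < M) {u : ℤ → ℝ} (hc : 0 < c)
    (hper : ∀ k, u (k + M) = u k) {k k' : ℤ} (h1 : c ≤ u k) (h2 : u k' ≤ -c) :
    Alt M c 1 u := by
  have hM' : (0 : ℤ) < M := by exact_mod_cast hM
  set r : ℤ := (k' - k) % M with hr
  have hr0 : 0 ≤ r := Int.emod_nonneg _ hM'.ne'
  have hrM : r < M := Int.emod_lt_of_pos _ hM'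
  have hu : u (k + r) = u k' := by
    rw [alt_per hper (k + r), alt_per hper k']
    congr 1
    rw [hr, Int.add_emod, Int.emod_emod_of_dvd _ (dvd_refl _), ← Int.add_emod]
    congr 1
    ring
  have hr1 : r ≠ 0 := by
    intro h0
    rw [h0, add_zero] at hu
    linarith
  refine ⟨fun l => if l = 0 then k else k + r, ?_, ?_, ?_⟩
  · intro l hl
    have : l = 0 := by omega
    subst this
    simp only [if_true, zero_add, one_ne_zero, if_false]
    omega
  · simp only [mul_one, Nat.add_one_sub_one, one_ne_zero, if_false, if_true]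
    simp
    omega
  · intro l hl
    rcases (by omega : l = 0 ∨ l = 1) with rfl | rfl
    · simpa using h1
    · simp only [pow_one, one_ne_zero, if_false, hu]
      linarith

end Pool.Agent.CubeE
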