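import Pool.Agent.CubeE.Engine

/-!
# MP_c0b923_gt, package BU: Borsuk-Ulam for symmetric open sets

PROOF. `engineE` with `p = 2`. Identify `EuclideanSpace ℝ (Fin n)` with `Fin n → ℝ` (`WithLp.toLp 2` is a
homeomorphism and linear, bounded sets correspond). Let `o : σ ↪ Fin n` be an injection and `i0` not in
its range (`Fintype.card σ < n`). `U' = {x : ZMod 2 → Fin n → ℝ | (1/2) (x 0 - x 1) ∈ U ∧ ‖x 0 + x 1‖ < 2}`:
open, bounded, contains `0`, invariant under `shift` (swap; `U` symmetric). Points `x` of its closure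
have `(1/2) (x 0 - x 1) ∈ closure U`. `G x l i = (x 0 i + x 1 i) / 2 + (-1)^l * H (x) i` where `H x i =
h s ((1/2) (x 0 - x 1))` if `i = o s` and `0` if `i` is not in the range of `o`, and `(-1)^l = 1, -1` for
`l = 0, 1`. `H (shift x) = - H x` by oddness, so `G` is equivariant; for constants `H = 0`
(`h s 0 = - h s 0`). `Lam y = y 0 i0 - y 1 i0` vanishes on `G x`, and `Lam (Pi.single 0 (Pi.single i0 1)) = 1`.
A zero `x` of `G` in the frontier of `U'`: `x 0 + x 1 = 0` and all `h s` vanish at `d = (1/2) (x 0 - x 1)`;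
`d ∈ closure U`, and `d ∉ U` because otherwise `x ∈ U'` (open), not in the frontier.
-/

set_option autoImplicit false

open Finset

namespace Pool.Agent.CubeE

private theorem bu_one_add : (1 + 1 : ZMod 2) = 0 := by decide

private theorem bu_one_ne : (1 : ZMod 2) ≠ 0 := by decide

private theorem bu_cases (l : ZMod 2) : l = 0 ∨ l = 1 := by
  revert l
  decide

theorem bu_open (n : ℕ) (U : Set (EuclideanSpace ℝ (Fin n))) (hU : IsOpen U)
    (hb : Bornology.IsBounded U) (hS : ∀ x ∈ U, -x ∈ U)
    (h0 : (0 : EuclideanSpace ℝ (Fin n)) ∈ U) {σ : Type} [Fintype σ] (hσ : Fintype.card σ < n)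
    (h : σ → EuclideanSpace ℝ (Fin n) → ℝ) (hh : ∀ s, ContinuousOn (h s) (closure U))
    (hodd : ∀ s, ∀ x ∈ closure U, h s (-x) = -h s x) :
    ∃ x ∈ frontier U, ∀ s, h s x = 0 := by
  have : Fact (Nat.Prime 2) := ⟨Nat.prime_two⟩
  obtain ⟨o⟩ : Nonempty (σ ↪ Fin n) :=
    Function.Embedding.nonempty_of_card_le (by rw [Fintype.card_fin]; exact hσ.le)
  obtain ⟨i0, hi0⟩ : ∃ i0 : Fin n, ∀ s, o s ≠ i0 := by
    by_contra hcon
    push Not at hcon
    have := Fintype.card_le_of_surjective o hcon
    rw [Fintype.card_fin] at this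
    omega
  set E : (Fin n → ℝ) ≃L[ℝ] EuclideanSpace ℝ (Fin n) := (EuclideanSpace.equiv (Fin n) ℝ).symm
    with hE
  set d : (ZMod 2 → Fin n → ℝ) → EuclideanSpace ℝ (Fin n) :=
    fun x => E ((1 / 2 : ℝ) • (x 0 - x 1)) with hd
  have hdc : Continuous d := by
    have h1 : Continuous fun x : ZMod 2 → Fin n → ℝ => (1 / 2 : ℝ) • (x 0 - x 1) := by
      fun_prop
    exact E.continuous.comp h1
  have hds : ∀ x, d (shift x) = -d x := by
    intro x
    have h1 : (shift x) 0 = x 1 := by simp [shift]
    have h2 : (shift x) 1 = x 0 := by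
      simp [shift, bu_one_add]
    simp only [hd]
    rw [h1, h2, ← map_neg, ← smul_neg, neg_sub]
  set U' : Set (ZMod 2 → Fin n → ℝ) := {x | d x ∈ U ∧ ‖x 0 + x 1‖ < 2} with hU'
  have hU'o : IsOpen U' := by
    have h1 : IsOpen {x : ZMod 2 → Fin n → ℝ | ‖x 0 + x 1‖ < 2} :=
      isOpen_lt (by fun_prop) continuous_const
    exact (hU.preimage hdc).inter h1
  have hcl : ∀ x ∈ closure U', d x ∈ closure U := fun x hx =>
    map_mem_closure hdc hx (fun y hy => hy.1)
  have hbd : Bornology.IsBounded U' := by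
    obtain ⟨R, hR⟩ := isBounded_iff_forall_norm_le.1 hb
    set L : EuclideanSpace ℝ (Fin n) →L[ℝ] (Fin n → ℝ) := 
      (E.symm : EuclideanSpace ℝ (Fin n) →L[ℝ] (Fin n → ℝ)) with hL
    have hLE : ∀ v, L (E v) = v := fun v => by simp [hL]
    refine isBounded_iff_forall_norm_le.2 ⟨‖L‖ * R + 1, fun x hx => ?_⟩
    have hR0 : 0 ≤ R := (norm_nonneg _).trans (hR _ hx.1)
    have hn : ‖L (d x)‖ ≤ ‖L‖ * R :=
      (L.le_opNorm _).trans (mul_le_mul_of_nonneg_left (hR _ hx.1) (norm_nonneg _))
    have hh1 : ‖(1 / 2 : ℝ) • (x 0 + x 1)‖ ≤ 1 := by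
      rw [norm_smul]
      have := hx.2
      rw [Real.norm_eq_abs, abs_of_pos (by norm_num)]
      linarith
    have hLd : L (d x) = (1 / 2 : ℝ) • (x 0 - x 1) := hLE _
    have e0 : x 0 = L (d x) + (1 / 2 : ℝ) • (x 0 + x 1) := by
      rw [hLd]
      funext i
      simp only [Pi.add_apply, Pi.smul_apply, Pi.sub_apply, smul_eq_mul]
      ring
    have e1 : x 1 = -L (d x) + (1 / 2 : ℝ) • (x 0 + x 1) := by
      rw [hLd]
      funext i
      simp only [Pi.add_apply, Pi.smul_apply, Pi.sub_apply, Pi.neg_apply, smul_eq_mul]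
      ring
    have n0 : ‖x 0‖ ≤ ‖L‖ * R + 1 := by
      rw [e0]
      exact (norm_add_le _ _).trans (add_le_add hn hh1)
    have n1 : ‖x 1‖ ≤ ‖L‖ * R + 1 := by
      rw [e1]
      refine (norm_add_le _ _).trans (add_le_add ?_ hh1)
      rw [norm_neg]
      exact hn
    have hpos : 0 ≤ ‖L‖ * R + 1 := (norm_nonneg _).trans n0
    refine (pi_norm_le_iff_of_nonneg hpos).2 fun l => ?_
    have hl : l = 0 ∨ l = 1 := bu_cases l
    rcases hl with rfl | rfl
    · exact n0
    · exact n1
  set sg : ZMod 2 → ℝ := fun l => if l = 0 then 1 else -1 with hsg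
  have hsg1 : ∀ l, sg (l + 1) = -sg l := by
    intro l
    have hl : l = 0 ∨ l = 1 := bu_cases l
    have h10 : (1 : ZMod 2) ≠ 0 := bu_one_ne
    have h11 : (1 + 1 : ZMod 2) = 0 := bu_one_add
    rcases hl with rfl | rfl
    · simp [hsg]
    · simp [hsg, h11]
  set H : (ZMod 2 → Fin n → ℝ) → Fin n → ℝ :=
    fun x i => ∑ s, if o s = i then h s (d x) else 0 with hH
  have hHo : ∀ x s, H x (o s) = h s (d x) := by
    intro x s
    simp only [hH]
    rw [Finset.sum_eq_single s]
    · simp
    · intro t _ ht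
      rw [if_neg fun hc => ht (o.injective hc)]
    · intro hc
      exact absurd (Finset.mem_univ s) hc
  have hH0 : ∀ x, H x i0 = 0 := by
    intro x
    simp only [hH]
    exact Finset.sum_eq_zero fun s _ => if_neg (hi0 s)
  have hHs : ∀ x ∈ closure U', ∀ i, H (shift x) i = -H x i := by
    intro x hx i
    simp only [hH]
    rw [← Finset.sum_neg_distrib]
    refine Finset.sum_congr rfl fun s _ => ?_
    split_ifs
    · rw [hds, hodd s _ (hcl x hx)]
    · simp
  set G : (ZMod 2 → Fin n → ℝ) → ZMod 2 → Fin n → ℝ :=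
    fun x l i => (x 0 i + x 1 i) / 2 + sg l * H x i with hG
  have hUcl : (0 : EuclideanSpace ℝ (Fin n)) ∈ closure U := subset_closure h0
  have hz : ∀ s, h s 0 = 0 := by
    intro s
    have := hodd s 0 hUcl
    rw [neg_zero] at this
    linarith
  set Lam : (ZMod 2 → Fin n → ℝ) →ₗ[ℝ] ℝ :=
    { toFun := fun y => y 0 i0 - y 1 i0
      map_add' := by
        intro y z
        simp only [Pi.add_apply]
        ring
      map_smul' := by
        intro c y
        simp only [Pi.smul_apply, smul_eq_mul, RingHom.id_apply]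
        ring } with hLam
  have hLamv : ∀ y, Lam y = y 0 i0 - y 1 i0 := fun y => rfl
  obtain ⟨x, hxf, hx0⟩ := engineE 2 n U' hU'o hbd
    (by
      intro x hx
      have h1 : (shift x) 0 = x 1 := by simp [shift]
      have h2 : (shift x) 1 = x 0 := by
        simp [shift, bu_one_add]
      refine ⟨?_, ?_⟩
      · rw [hds]
        exact hS _ hx.1
      · rw [h1, h2, add_comm]
        exact hx.2)
    (by
      refine ⟨?_, ?_⟩
      · have : d 0 = 0 := by simp [hd]
        rw [this]
        exact h0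
      · simp)
    G
    (by
      refine continuousOn_pi.2 fun l => continuousOn_pi.2 fun i => ?_
      have h1 : Continuous fun x : ZMod 2 → Fin n → ℝ => (x 0 i + x 1 i) / 2 := by fun_prop
      have h2 : ContinuousOn (fun x => H x i) (closure U') := by
        simp only [hH]
        refine continuousOn_finsetSum _ fun s _ => ?_
        by_cases hs : o s = i
        · simp only [hs, if_true]
          exact (hh s).comp hdc.continuousOn hcl
        · simp only [hs, if_false]
          exact continuousOn_const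
      exact h1.continuousOn.add (continuousOn_const.mul h2))
    (by
      intro x hx
      have h1 : (shift x) 0 = x 1 := by simp [shift]
      have h2 : (shift x) 1 = x 0 := by
        simp [shift, bu_one_add]
      funext l i
      have e1 : G (shift x) l i = ((shift x) 0 i + (shift x) 1 i) / 2 + sg l * H (shift x) i := rfl
      have e2 : shift (G x) l i = (x 0 i + x 1 i) / 2 + sg (l + 1) * H x i := rfl
      rw [e1, e2, h1, h2, hHs x hx, hsg1]
      ring)
    (by
      intro c _
      funext l i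
      have e1 : G (fun _ => c) l i = (c i + c i) / 2 + sg l * H (fun _ => c) i := rfl
      have hdz : d (fun _ => c) = 0 := by simp [hd]
      have e2 : H (fun _ => c) i = 0 := by
        simp only [hH]
        refine Finset.sum_eq_zero fun s _ => ?_
        split_ifs
        · rw [hdz, hz]
        · rfl
      rw [e1, e2]
      ring)
    Lam
    (by
      intro x _
      rw [hLamv]
      have e1 : ∀ l, G x l i0 = (x 0 i0 + x 1 i0) / 2 + sg l * H x i0 := fun l => rfl
      rw [e1, e1, hH0]
      ring)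
    0 i0
    (by
      rw [hLamv]
      have h10 : (1 : ZMod 2) ≠ 0 := bu_one_ne
      simp [h10])
  have hxc : x ∈ closure U' := frontier_subset_closure hxf
  have hG0 : ∀ l i, (x 0 i + x 1 i) / 2 + sg l * H x i = 0 := by
    intro l i
    have : G x l i = 0 := by rw [hx0]; rfl
    exact this
  have hs0 : sg 0 = 1 := by simp [hsg]
  have hs1 : sg 1 = -1 := by
    have h10 : (1 : ZMod 2) ≠ 0 := bu_one_ne
    simp [hsg]
  have hHx : ∀ i, H x i = 0 := by
    intro i
    have a := hG0 0 i
    have b := hG0 1 i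
    rw [hs0] at a
    rw [hs1] at b
    linarith
  have hsum : x 0 + x 1 = 0 := by
    funext i
    have a := hG0 0 i
    rw [hHx] at a
    simp only [Pi.add_apply, Pi.zero_apply]
    linarith
  refine ⟨d x, ?_, fun s => ?_⟩
  · rw [hU.frontier_eq]
    refine ⟨hcl x hxc, fun hc => ?_⟩
    rw [hU'o.frontier_eq] at hxf
    refine hxf.2 ⟨hc, ?_⟩
    rw [hsum, norm_zero]
    norm_num
  · rw [← hHo]
    exact hHx _

end Pool.Agent.CubeE
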