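import Mathlib

/-!
# MP_c0b923_gt, package Bal: mean of the maximum and the minimum of a periodic function

PROOFS. `Fin M` is finite and nonempty, so the sup and inf are a maximum and a minimum; by
periodicity they are the maximum and minimum over all integers. `bal_iff`: `bal = 0` says
`max = - min`.
-/

set_option autoImplicit false

open Finset

namespace Pool.Agent.CubeE

/-- mean of the maximum and the minimum -/
noncomputable def bal (M : ℕ) (u : ℤ → ℝ) : ℝ :=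
  ((⨆ k : Fin M, u ((k : ℕ) : ℤ)) + (⨅ k : Fin M, u ((k : ℕ) : ℤ))) / 2

private theorem Bal_range {M : ℕ} (hM : 0 < M) {u : ℤ → ℝ} (hper : ∀ k, u (k + M) = u k) :
    Set.range (fun k : Fin M => u ((k : ℕ) : ℤ)) = Set.range u := by
  apply Set.Subset.antisymm
  · rintro _ ⟨k, rfl⟩
    exact ⟨_, rfl⟩
  · rintro _ ⟨k, rfl⟩
    have h1 : (0 : ℤ) < (M : ℤ) := by exact_mod_cast hM
    have h2 : 0 ≤ k % (M : ℤ) := Int.emod_nonneg k h1.ne'
    have h3 : k % (M : ℤ) < (M : ℤ) := Int.emod_lt_of_pos k h1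
    have h5 : k % (M : ℤ) = k - (k / (M : ℤ)) * (M : ℤ) := by
      have h6 := Int.emod_add_mul_ediv k (M : ℤ)
      linarith [mul_comm (M : ℤ) (k / (M : ℤ))]
    have hp : Function.Periodic u (M : ℤ) := fun x => hper x
    have h4 : u (k % (M : ℤ)) = u k := by
      rw [h5]
      exact hp.sub_int_mul_eq _
    refine ⟨⟨(k % (M : ℤ)).toNat, by omega⟩, ?_⟩
    simp only
    rw [Int.toNat_of_nonneg h2, h4]

private theorem Bal_eq {M : ℕ} (hM : 0 < M) {u : ℤ → ℝ} (hper : ∀ k, u (k + M) = u k) :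
    bal M u = (sSup (Set.range u) + sInf (Set.range u)) / 2 := by
  unfold bal
  rw [iSup, iInf, Bal_range hM hper]

theorem bal_continuousOn {X : Type*} [TopologicalSpace X] {S : Set X} {M : ℕ} (hM : 0 < M)
    {u : X → ℤ → ℝ} (hc : ∀ k, ContinuousOn (fun x => u x k) S) :
    ContinuousOn (fun x => bal M (u x)) S := by
  have : Nonempty (Fin M) := ⟨⟨0, hM⟩⟩
  have h1 : (fun x => bal M (u x)) = fun x =>
      ((univ : Finset (Fin M)).sup' univ_nonempty (fun k => u x ((k : ℕ) : ℤ)) +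
        (univ : Finset (Fin M)).inf' univ_nonempty (fun k => u x ((k : ℕ) : ℤ))) / 2 := by
    funext x
    rw [Finset.sup'_univ_eq_ciSup, Finset.inf'_univ_eq_ciInf]
    rfl
  rw [h1]
  refine ContinuousOn.div_const (ContinuousOn.add ?_ ?_) 2
  · exact ContinuousOn.finset_sup'_apply univ_nonempty fun k _ => hc _
  · exact ContinuousOn.finset_inf'_apply univ_nonempty fun k _ => hc _

theorem bal_shift {M : ℕ} (hM : 0 < M) {u : ℤ → ℝ} (hper : ∀ k, u (k + M) = u k) (N : ℤ) :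
    bal M (fun k => u (k + N)) = bal M u := by
  have h1 : ∀ k, (fun k => u (k + N)) (k + M) = (fun k => u (k + N)) k := by
    intro k
    have h2 : k + (M : ℤ) + N = k + N + M := by ring
    show u (k + (M : ℤ) + N) = u (k + N)
    rw [h2, hper]
  have h3 : Set.range (fun k => u (k + N)) = Set.range u := by
    apply Set.Subset.antisymm
    · rintro _ ⟨k, rfl⟩
      exact ⟨_, rfl⟩
    · rintro _ ⟨k, rfl⟩
      refine ⟨k - N, ?_⟩
      simp only
      rw [sub_add_cancel]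
  rw [Bal_eq hM h1, Bal_eq hM hper, h3]

theorem bal_const {M : ℕ} (hM : 0 < M) {u : ℤ → ℝ} {c : ℝ} (h : ∀ k, u k = c) :
    bal M u = c := by
  have : Nonempty (Fin M) := ⟨⟨0, hM⟩⟩
  unfold bal
  simp only [h, ciSup_const, ciInf_const]
  ring

theorem bal_iff {M : ℕ} (hM : 0 < M) {u : ℤ → ℝ} (hper : ∀ k, u (k + M) = u k)
    (h0 : bal M u = 0) (b : ℝ) : (∃ k, b < u k) ↔ (∃ k, u k < -b) := by
  have : Nonempty (Fin M) := ⟨⟨0, hM⟩⟩
  have hr := Bal_range hM hper
  have h1 : (∃ k, b < u k) ↔ b < ⨆ k : Fin M, u ((k : ℕ) : ℤ) := by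
    rw [lt_ciSup_iff (Set.finite_range _).bddAbove]
    constructor
    · rintro ⟨k, hk⟩
      have h2 : u k ∈ Set.range (fun k : Fin M => u ((k : ℕ) : ℤ)) := hr ▸ ⟨k, rfl⟩
      obtain ⟨i, hi⟩ := h2
      exact ⟨i, by rw [← hi] at hk; exact hk⟩
    · rintro ⟨i, hi⟩
      exact ⟨_, hi⟩
  have h2 : (∃ k, u k < -b) ↔ (⨅ k : Fin M, u ((k : ℕ) : ℤ)) < -b := by
    rw [ciInf_lt_iff (Set.finite_range _).bddBelow]
    constructor
    · rintro ⟨k, hk⟩
      have h3 : u k ∈ Set.range (fun k : Fin M => u ((k : ℕ) : ℤ)) := hr ▸ ⟨k, rfl⟩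
      obtain ⟨i, hi⟩ := h3
      exact ⟨i, by rw [← hi] at hk; exact hk⟩
    · rintro ⟨i, hi⟩
      exact ⟨_, hi⟩
  rw [h1, h2]
  unfold bal at h0
  constructor <;> intro h <;> linarith

end Pool.Agent.CubeE
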