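import Pool.Agent.CubeE.Kuhn

/-!
# MP_c0b923_gt, package Corner: the standard labelling has exactly one full simplex

Rule A: the label of `v` is `none` if all coordinates are `≤ 0`; otherwise it is the first (in the
order given by `e`) of the coordinates `i` at which `v` is maximal.

PROOF of `corner_unique`. `hlab ≠ 0` means that the labels of the vertices are a bijection
(`bijective_of_hlab`). The vertices with label `none` are those `≤ 0`; as `v_0 ≤ v_1 ≤ ...` and
exactly one vertex has this label, it is `v_0 = z`. So `z ≤ 0` and `v_1 = z + e_{π 0}` has a positive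
coordinate, `z_{π 0} = 0`, `lam v_1 = π 0`. Induction on `j ≥ 1`: `v_j` has the value `1` at
`π 0, ..., π (j - 1)` and values `≤ 0` elsewhere, `lam v_j` is the first of
`π 0, ..., π (j - 1)`, and `π 0 > π 1 > ... > π (j - 1)` in the order of `e`. For `v_{j+1}`: if
`z_{π j} < 0` its label would be that of `v_j`. So `z_{π j} = 0`, and the label is the first of
`π 0, ..., π j`; as it is new, `π j` precedes all earlier ones. In the end `z = 0` and `π` is the
decreasing order `Fin.revPerm.trans e`.
PROOF of `corner_full`: by the same computation the labels of `(0, Fin.revPerm.trans e)` are `none` and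
`lam v_j = π (j - 1)` for `j ≥ 1`, a bijection; `hlab_bij`.
-/

set_option autoImplicit false

open Finset

namespace Pool.Agent.CubeE

variable {ι : Type} {d : ℕ}

/-- rule A at the lattice point `v` -/
def RuleA (e : Fin (d + 1) ≃ ι) (lam : (ι → ℤ) → Option ι) (v : ι → ℤ) : Prop :=
  ((∀ i, v i ≤ 0) → lam v = none) ∧
  ((∃ i, 0 < v i) → ∃ i, lam v = some i ∧ (∀ i', v i' ≤ v i) ∧
    ∀ i', v i' = v i → e.symm i ≤ e.symm i')

private theorem corner_mono {f : Fin (d + 1) → Fin (d + 1)} (hf : StrictMono f) (m : Fin (d + 1)) :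
    f m = m :=
  le_antisymm hf.apply_le hf.le_apply

theorem corner_unique (e : Fin (d + 1) ≃ ι) (E : Option ι ≃ Fin (d + 2))
    (lam : (ι → ℤ) → Option ι) (s : (ι → ℤ) × (Fin (d + 1) ≃ ι))
    (hA : ∀ j, RuleA e lam (vtx s j)) (h : hlab ((fun v => E (lam v)) ∘ vtx s) ≠ 0) :
    s = (0, Fin.revPerm.trans e) := by
  have hb : Function.Bijective (fun j => lam (vtx s j)) :=
    (E.bijective.of_comp_iff' (fun j => lam (vtx s j))).1 (bijective_of_hlab _ h)
  have hv : ∀ j i, vtx s j i = s.1 i + if (s.2.symm i : ℕ) < (j : ℕ) then 1 else 0 :=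
    fun _ _ => rfl
  have hle : ∀ j i, s.1 i ≤ vtx s j i := by
    intro j i
    rw [hv]
    split_ifs <;> omega
  have hz : ∀ i, s.1 i ≤ 0 := by
    obtain ⟨j, hj⟩ := hb.2 none
    intro i
    by_contra hi
    obtain ⟨i', hi', -⟩ := (hA j).2 ⟨i, by have := hle j i; omega⟩
    simp only [hi'] at hj
    exact Option.some_ne_none _ hj
  have h0 : lam (vtx s 0) = none := by
    refine (hA 0).1 fun i => ?_
    rw [hv, if_neg (by simp)]
    simpa using hz i
  have hpos : ∀ j : Fin (d + 2), j ≠ 0 → ∃ i, lam (vtx s j) = some i ∧ s.1 i = 0 ∧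
      (s.2.symm i : ℕ) < j ∧ ∀ i', s.1 i' = 0 → (s.2.symm i' : ℕ) < j →
        e.symm i ≤ e.symm i' := by
    intro j hj
    have h1 : ∃ i, 0 < vtx s j i := by
      by_contra h2
      push Not at h2
      have h3 := (hA j).1 h2
      exact hj (hb.1 (show lam (vtx s j) = lam (vtx s 0) by rw [h3, h0]))
    obtain ⟨i0, hi0⟩ := h1
    obtain ⟨i, hi, hmax, hmin⟩ := (hA j).2 ⟨i0, hi0⟩
    have h4 := hmax i0
    have h5 := hz i
    have h6 : s.1 i = 0 ∧ (s.2.symm i : ℕ) < j := by
      have h7 := hv j i
      split_ifs at h7 with h8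
      · exact ⟨by omega, h8⟩
      · exfalso
        omega
    refine ⟨i, hi, h6.1, h6.2, fun i' h7 h8 => hmin i' ?_⟩
    rw [hv, hv, if_pos h8, if_pos h6.2, h7, h6.1]
  have hz0 : ∀ i, s.1 i = 0 := by
    intro i
    obtain ⟨j, hj⟩ := hb.2 (some i)
    have hj0 : j ≠ 0 := by
      rintro rfl
      simp only [h0] at hj
      exact Option.some_ne_none _ hj.symm
    obtain ⟨i', h1, h2, -⟩ := hpos j hj0
    simp only [h1] at hj
    rw [← Option.some.inj hj]
    exact h2
  have hdec : ∀ m m' : Fin (d + 1), m' < m → e.symm (s.2 m) < e.symm (s.2 m') := by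
    intro m m' hm
    obtain ⟨i, h1, -, h2, h3⟩ := hpos m.succ (Fin.succ_ne_zero m)
    have hi : s.2.symm i = m := by
      by_contra hne
      have h4 : (s.2.symm i : ℕ) < m := by
        have h5 : (s.2.symm i : ℕ) ≠ m := fun h => hne (Fin.ext h)
        rw [Fin.val_succ] at h2
        omega
      have h5 : (m.castSucc : Fin (d + 2)) ≠ 0 := by
        intro h
        have h6 := congrArg Fin.val h
        simp only [Fin.val_castSucc, Fin.val_zero] at h6
        omega
      obtain ⟨i', g1, -, g2, g3⟩ := hpos m.castSucc h5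
      have g4 : e.symm i' ≤ e.symm i := g3 i (hz0 i) (by simpa using h4)
      have g5 : e.symm i ≤ e.symm i' := by
        refine h3 i' (hz0 i') ?_
        rw [Fin.val_succ]
        rw [Fin.val_castSucc] at g2
        omega
      have g6 : i = i' := e.symm.injective (le_antisymm g5 g4)
      have g7 : m.succ = m.castSucc := by
        apply hb.1
        show lam (vtx s m.succ) = lam (vtx s m.castSucc)
        rw [h1, g1, g6]
      have g8 := congrArg Fin.val g7
      simp at g8
    have h6 : i = s.2 m := by rw [← hi, Equiv.apply_symm_apply]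
    have h7 : e.symm i ≤ e.symm (s.2 m') := by
      refine h3 _ (hz0 _) ?_
      rw [Equiv.symm_apply_apply, Fin.val_succ]
      have := Fin.lt_def.1 hm
      omega
    rw [h6] at h7
    refine lt_of_le_of_ne h7 fun h8 => ?_
    exact hm.ne (s.2.injective (e.symm.injective h8)).symm
  have hf : StrictMono fun m : Fin (d + 1) => e.symm (s.2 (Fin.rev m)) := by
    intro a b hab
    exact hdec _ _ (Fin.rev_lt_rev.2 hab)
  refine Prod.ext (funext hz0) (Equiv.ext fun m => ?_)
  have h1 := corner_mono hf (Fin.rev m)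
  simp only [Fin.rev_rev] at h1
  rw [Equiv.trans_apply, Fin.revPerm_apply, ← h1, Equiv.apply_symm_apply]

theorem corner_full (e : Fin (d + 1) ≃ ι) (E : Option ι ≃ Fin (d + 2))
    (lam : (ι → ℤ) → Option ι)
    (hA : ∀ j, RuleA e lam (vtx ((0 : ι → ℤ), Fin.revPerm.trans e) j)) :
    hlab ((fun v => E (lam v)) ∘ vtx ((0 : ι → ℤ), Fin.revPerm.trans e)) = 1 ∨
    hlab ((fun v => E (lam v)) ∘ vtx ((0 : ι → ℤ), Fin.revPerm.trans e)) = -1 := by
  have hv : ∀ j i, vtx ((0 : ι → ℤ), Fin.revPerm.trans e) j i =
      if ((Fin.rev (e.symm i) : Fin (d + 1)) : ℕ) < (j : ℕ) then 1 else 0 := by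
    intro j i
    show (0 : ι → ℤ) i + _ = _
    rw [Pi.zero_apply, zero_add]
    rfl
  have h0 : lam (vtx ((0 : ι → ℤ), Fin.revPerm.trans e) 0) = none := by
    refine (hA 0).1 fun i => ?_
    rw [hv, if_neg (by simp)]
  have hs : ∀ m : Fin (d + 1), lam (vtx ((0 : ι → ℤ), Fin.revPerm.trans e) m.succ) =
      some (e (Fin.rev m)) := by
    intro m
    have h1 : vtx ((0 : ι → ℤ), Fin.revPerm.trans e) m.succ (e (Fin.rev m)) = 1 := by
      rw [hv, if_pos (by simp)]
    obtain ⟨i, hi, hmax, hmin⟩ := (hA m.succ).2 ⟨e (Fin.rev m), by rw [h1]; norm_num⟩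
    have h2 := hmax (e (Fin.rev m))
    rw [h1] at h2
    have h3 := hv m.succ i
    have h4 : ((Fin.rev (e.symm i) : Fin (d + 1)) : ℕ) < (m.succ : ℕ) := by
      by_contra h5
      rw [if_neg h5] at h3
      omega
    rw [if_pos h4] at h3
    have h5 := hmin (e (Fin.rev m)) (by rw [h1, h3])
    rw [Equiv.symm_apply_apply] at h5
    have h6 := Fin.le_def.1 h5
    rw [Fin.val_rev] at h4 h6
    rw [Fin.val_succ] at h4
    have h7 : e.symm i = Fin.rev m := by
      apply Fin.ext
      rw [Fin.val_rev]
      have := (e.symm i).isLt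
      have := m.isLt
      omega
    rw [hi, ← h7, Equiv.apply_symm_apply]
  apply hlab_bij
  rw [← Finite.injective_iff_bijective]
  intro a b hab
  have hab' : lam (vtx ((0 : ι → ℤ), Fin.revPerm.trans e) a) =
      lam (vtx ((0 : ι → ℤ), Fin.revPerm.trans e) b) := E.injective hab
  induction a using Fin.cases with
  | zero =>
    induction b using Fin.cases with
    | zero => rfl
    | succ b =>
      rw [h0, hs] at hab'
      exact absurd hab'.symm (Option.some_ne_none _)
  | succ a =>
    induction b using Fin.cases with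
    | zero =>
      rw [h0, hs] at hab'
      exact absurd hab' (Option.some_ne_none _)
    | succ b =>
      rw [hs, hs] at hab'
      rw [Fin.rev_injective (e.injective (Option.some.inj hab'))]

end Pool.Agent.CubeE
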