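import Pool.Agent.CubeE.Sel

/-!
# MP_c0b923_gt, package Disc: the discrete engine

PROOF. (A.6 of /team-store/CUBE.md.) Put `I = {v | ∀ i, |v i| ≤ R}` (invariant under `actV τ`), take
`lam` from `exists_lab` (rule A on `I`, equivariant at the non-fixed points outside `I`), a
bijection `E : Option ι ≃ Fin (d + 2)` and write `F s = sg e s.2 * hlab ((fun v => E (lam v)) ∘ vtx s)`.
`C` = finite set of the simplices all of whose vertices lie in `B` (finite: `s.1 = vtx s 0 ∈ B`).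
Two vertices `v, v'` of a simplex satisfy `|v i - v' i| ≤ 1`. Call `s ∈ C` full if `F s ≠ 0`; then all
labels occur (`bijective_of_hlab`), and `|G v i| ≤ ω` for all vertices `v` and all `i`: `G v i ≤ ω`
by comparison with the vertex with label `none`, `G v i ≥ -ω` by comparison with the vertex with
label `some i`.
(I) `∑ s ∈ C, F s = 0`: `boundary` with the label `E (some k)`. If `s ∈ C`, `s' ∉ C` have a common facet
with `Hlab ≠ 0` then all labels other than `some k` occur on the facet (`mem_of_Hlab`), and `s'` has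
a vertex `v' ∉ B`; it is at distance `≤ 1` from every vertex `v` of the facet (`d + 1 ≥ 1`
vertices). By `hbd`, `∑ L i * G v i = 0` and `|G v i| ≥ η` for some `i`. As before `G v i ≤ ω` for all
`i` and `|G v i| ≤ ω` for `i ≠ k`; so `G v k ≤ -η` (as `ω < η`), and `|∑ L i * G v i| ≥ η |L k| - ω ∑ |L i|
> 0`, a contradiction.
(II) `∑ s ∈ C, F s ≡ ±1 mod p`. Split `C` into: all vertices in `I`: by `corner_unique`,
`corner_full` exactly one simplex contributes, `F = ±1` (its vertices have coordinates 0, 1, in `I` as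
`1 ≤ R`). Some vertex in `I` and some not in `I`: `F = 0`, since all vertices have `|v i| ≤ R + 1`, so
`G v i = c * v i` (`hBR`) and a vertex outside `I` has `|G v i| ≥ c (R + 1) > ω` for some `i`. All
vertices outside `I`: apply `symm_dvd` to the set of those with `hlab ≠ 0`; no vertex `v` of such a
simplex satisfies `actV τ v = v` (`hconst` would give `|G v i| ≥ c (R + 1) > ω`), so the labels are
equivariant there and the set is invariant. Since `p ≥ 2`, (I) and (II) contradict each other.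
-/

set_option autoImplicit false

open Finset

namespace Pool.Agent.CubeE

variable {ι : Type} {d : ℕ}

private theorem disc_vtx_zero (s : (ι → ℤ) × (Fin (d + 1) ≃ ι)) : vtx s 0 = s.1 := by
  funext i
  simp [vtx]

private theorem disc_vtx_sub (s : (ι → ℤ) × (Fin (d + 1) ≃ ι)) (j j' : Fin (d + 2)) (i : ι) :
    |vtx s j i - vtx s j' i| ≤ 1 := by
  unfold vtx
  split_ifs <;> simp

private theorem disc_labels (E : Option ι ≃ Fin (d + 2)) (lam : (ι → ℤ) → Option ι)
    (s : (ι → ℤ) × (Fin (d + 1) ≃ ι)) (h : hlab ((fun v => E (lam v)) ∘ vtx s) ≠ 0)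
    (o : Option ι) : ∃ j, lam (vtx s j) = o := by
  obtain ⟨j, hj⟩ := (bijective_of_hlab _ h).2 (E o)
  exact ⟨j, E.injective hj⟩

private theorem disc_full (E : Option ι ≃ Fin (d + 2)) (lam : (ι → ℤ) → Option ι)
    (B : Set (ι → ℤ)) (G : (ι → ℤ) → ι → ℝ) (ω : ℝ)
    (hadj : ∀ v ∈ B, ∀ v' ∈ B, (∀ i, |v i - v' i| ≤ 1) → ∀ i, |G v i - G v' i| ≤ ω)
    (h1 : ∀ v, lam v = none → ∀ i, G v i ≤ 0)
    (h2 : ∀ v i, lam v = some i → 0 ≤ G v i ∧ ∀ i', G v i' ≤ G v i)
    (s : (ι → ℤ) × (Fin (d + 1) ≃ ι)) (hs : ∀ j, vtx s j ∈ B)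
    (h : hlab ((fun v => E (lam v)) ∘ vtx s) ≠ 0) (j : Fin (d + 2)) (i : ι) :
    |G (vtx s j) i| ≤ ω := by
  obtain ⟨j0, hj0⟩ := disc_labels E lam s h none
  obtain ⟨j1, hj1⟩ := disc_labels E lam s h (some i)
  have a0 := hadj _ (hs j) _ (hs j0) (disc_vtx_sub s j j0) i
  have a1 := hadj _ (hs j) _ (hs j1) (disc_vtx_sub s j j1) i
  have b0 := h1 _ hj0 i
  have b1 := (h2 _ i hj1).1
  rw [abs_le] at a0 a1 ⊢
  constructor
  · linarith [a1.1]
  · linarith [a0.2]

private theorem disc_facet [Fintype ι] (E : Option ι ≃ Fin (d + 2)) (lam : (ι → ℤ) → Option ι)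
    (B : Set (ι → ℤ)) (G : (ι → ℤ) → ι → ℝ) (ω η : ℝ) (hω : 0 < ω)
    (hadj : ∀ v ∈ B, ∀ v' ∈ B, (∀ i, |v i - v' i| ≤ 1) → ∀ i, |G v i - G v' i| ≤ ω)
    (h1 : ∀ v, lam v = none → ∀ i, G v i ≤ 0)
    (h2 : ∀ v i, lam v = some i → 0 ≤ G v i ∧ ∀ i', G v i' ≤ G v i)
    (L : ι → ℝ) (k : ι) (hωη : ω < η) (hωL : ω * ∑ i, |L i| < η * |L k|)
    (hbd : ∀ v ∈ B, ∀ v' ∉ B, (∀ i, |v i - v' i| ≤ 1) →
      (∑ i, L i * G v i = 0) ∧ ∃ i, η ≤ |G v i|)
    (s : (ι → ℤ) × (Fin (d + 1) ≃ ι)) (hs : ∀ j, vtx s j ∈ B) (j : Fin (d + 2))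
    (s' : (ι → ℤ) × (Fin (d + 1) ≃ ι)) (hs' : ¬ ∀ j, vtx s' j ∈ B) (j' : Fin (d + 2))
    (he : vtx s' ∘ j'.succAbove = vtx s ∘ j.succAbove) :
    Hlab (E (some k)) ((fun v => E (lam v)) ∘ vtx s ∘ j.succAbove) = 0 := by
  classical
  by_contra h
  have hlab : ∀ o : Option ι, o ≠ some k → ∃ a : Fin (d + 1),
      lam (vtx s (j.succAbove a)) = o := by
    intro o ho
    obtain ⟨a, ha⟩ := mem_of_Hlab _ _ h (E o) (fun h' => ho (E.injective h'))
    exact ⟨a, E.injective ha⟩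
  push Not at hs'
  obtain ⟨j'', hj''⟩ := hs'
  set v := vtx s (j.succAbove 0) with hv
  have hv' : v = vtx s' (j'.succAbove 0) := (congrFun he 0).symm
  obtain ⟨hsum, i0, hi0⟩ := hbd v (hs _) _ hj'' (by
    rw [hv']
    exact disc_vtx_sub s' _ _)
  have hup : ∀ i, G v i ≤ ω := by
    intro i
    obtain ⟨a, ha⟩ := hlab none (by simp)
    have a0 := hadj _ (hs (j.succAbove 0)) _ (hs (j.succAbove a)) (disc_vtx_sub s _ _) i
    have b0 := h1 _ ha i
    rw [abs_le] at a0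
    linarith [a0.2]
  have hlo : ∀ i, i ≠ k → -ω ≤ G v i := by
    intro i hik
    obtain ⟨a, ha⟩ := hlab (some i) (by simpa using hik)
    have a0 := hadj _ (hs (j.succAbove 0)) _ (hs (j.succAbove a)) (disc_vtx_sub s _ _) i
    have b0 := (h2 _ i ha).1
    rw [abs_le] at a0
    linarith [a0.1]
  have hik : i0 = k := by
    by_contra hne
    have : |G v i0| ≤ ω := abs_le.2 ⟨hlo i0 hne, hup i0⟩
    linarith
  subst hik
  have h3 : ∑ i, L i * G v i = L i0 * G v i0 + ∑ i ∈ univ.erase i0, L i * G v i := by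
    rw [← Finset.add_sum_erase _ _ (Finset.mem_univ i0)]
  have h4 : |L i0| * |G v i0| = |∑ i ∈ univ.erase i0, L i * G v i| := by
    rw [← abs_mul]
    have : L i0 * G v i0 = -∑ i ∈ univ.erase i0, L i * G v i := by linarith
    rw [this, abs_neg]
  have h5 : |∑ i ∈ univ.erase i0, L i * G v i| ≤ ∑ i ∈ univ.erase i0, ω * |L i| := by
    refine (Finset.abs_sum_le_sum_abs _ _).trans (Finset.sum_le_sum fun i hi => ?_)
    rw [abs_mul, mul_comm]
    exact mul_le_mul_of_nonneg_right (abs_le.2 ⟨hlo i (Finset.ne_of_mem_erase hi), hup i⟩)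
      (abs_nonneg _)
  have h6 : ∑ i ∈ univ.erase i0, ω * |L i| ≤ ω * ∑ i, |L i| := by
    rw [Finset.mul_sum]
    exact Finset.sum_le_sum_of_subset_of_nonneg (Finset.erase_subset _ _)
      fun i _ _ => mul_nonneg hω.le (abs_nonneg _)
  have h7 : η * |L i0| ≤ |L i0| * |G v i0| := by
    rw [mul_comm]
    exact mul_le_mul_of_nonneg_left hi0 (abs_nonneg _)
  linarith

private theorem disc_act_inj (τ : Equiv.Perm ι) {v w : ι → ℤ} (h : actV τ v = actV τ w) :
    v = w := by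
  funext i
  have := congrFun h (τ i)
  simpa [actV] using this

theorem disc [Fintype ι] {p : ℕ} (hp : p.Prime) (τ : Equiv.Perm ι) (hτ : τ ^ p = 1)
    (hfix : ∀ i, τ i ≠ i) (e : Fin (d + 1) ≃ ι) (B : Set (ι → ℤ)) (hB : B.Finite)
    (hBτ : ∀ v ∈ B, actV τ v ∈ B) (G : (ι → ℤ) → ι → ℝ)
    (hG : ∀ v i, G (actV τ v) i = G v (τ.symm i)) (R : ℕ) (hR : 1 ≤ R) (c : ℝ) (hc : 0 < c)
    (hBR : ∀ v : ι → ℤ, (∀ i, |v i| ≤ R + 1) → v ∈ B ∧ ∀ i, G v i = c * v i)
    (hconst : ∀ v ∈ B, actV τ v = v → ∀ i, G v i = c * v i)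
    (ω η : ℝ) (hω : 0 < ω) (hωR : ω < c * R)
    (hadj : ∀ v ∈ B, ∀ v' ∈ B, (∀ i, |v i - v' i| ≤ 1) → ∀ i, |G v i - G v' i| ≤ ω)
    (L : ι → ℝ) (k : ι) (hωη : ω < η) (hωL : ω * ∑ i, |L i| < η * |L k|)
    (hbd : ∀ v ∈ B, ∀ v' ∉ B, (∀ i, |v i - v' i| ≤ 1) →
      (∑ i, L i * G v i = 0) ∧ ∃ i, η ≤ |G v i|) : False := by
  classical
  let I : Set (ι → ℤ) := {v | ∀ i, |v i| ≤ (R : ℤ)}
  have hI : ∀ v ∈ I, actV τ v ∈ I := fun v hv i => hv (τ.symm i)
  have hI' : ∀ v, actV τ v ∈ I → v ∈ I := by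
    intro v hv i
    have := hv (τ i)
    simpa [actV] using this
  have hIB : ∀ v ∈ I, v ∈ B ∧ ∀ i, G v i = c * v i := by
    intro v hv
    refine hBR v fun i => ?_
    have := hv i
    omega
  obtain ⟨lam, h1, h2, h3, h4⟩ := exists_lab hp τ hτ e G hG I hI c hc fun v hv => (hIB v hv).2
  let E : Option ι ≃ Fin (d + 2) := (Equiv.optionCongr e.symm).trans (finSuccEquiv (d + 1)).symm
  let F : (ι → ℤ) × (Fin (d + 1) ≃ ι) → ℤ :=
    fun s => sg e s.2 * hlab ((fun v => E (lam v)) ∘ vtx s)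
  have hfin : {s : (ι → ℤ) × (Fin (d + 1) ≃ ι) | ∀ j, vtx s j ∈ B}.Finite := by
    refine (hB.prod (Set.toFinite (Set.univ : Set (Fin (d + 1) ≃ ι)))).subset ?_
    intro s hs
    refine ⟨?_, Set.mem_univ _⟩
    rw [← disc_vtx_zero s]
    exact hs 0
  let C : Finset ((ι → ℤ) × (Fin (d + 1) ≃ ι)) := hfin.toFinset
  have hC : ∀ s, s ∈ C ↔ ∀ j, vtx s j ∈ B := fun s => hfin.mem_toFinset
  -- a vertex outside `I` at which `G` is the identity
  have hout : ∀ v, v ∉ I → (∀ i, G v i = c * v i) → ∃ i, ω < |G v i| := by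
    intro v hv hg
    have : ∃ i, ¬ |v i| ≤ (R : ℤ) := by
      by_contra hcon
      push Not at hcon
      exact hv hcon
    obtain ⟨i, hi⟩ := this
    push Not at hi
    refine ⟨i, ?_⟩
    rw [hg i, abs_mul, abs_of_pos hc]
    have h5 : (R : ℝ) < |(v i : ℝ)| := by
      have : ((R : ℤ) : ℝ) < ((|v i| : ℤ) : ℝ) := by exact_mod_cast hi
      simpa using this
    exact hωR.trans (mul_lt_mul_of_pos_left h5 hc)
  have hfull : ∀ s ∈ C, F s ≠ 0 → ∀ j i, |G (vtx s j) i| ≤ ω := by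
    intro s hs hF j i
    exact disc_full E lam B G ω hadj h1 h2 s ((hC s).1 hs) (right_ne_zero_of_mul hF) j i
  -- (I)
  have hzero : ∑ s ∈ C, F s = 0 := by
    refine boundary e (E (some k)) (fun v => E (lam v)) C ?_
    intro s hs j s' hs' j' he
    exact disc_facet E lam B G ω η hω hadj h1 h2 L k hωη hωL hbd s ((hC s).1 hs) j s'
      (fun h => hs' ((hC s').2 h)) j' he
  -- (II)
  let P1 : (ι → ℤ) × (Fin (d + 1) ≃ ι) → Prop := fun s => ∀ j, vtx s j ∈ I
  let P3 : (ι → ℤ) × (Fin (d + 1) ≃ ι) → Prop :=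
    fun s => ∀ j, vtx s j ∉ I ∧ actV τ (vtx s j) ≠ vtx s j
  have hrest : ∀ s ∈ C, ¬ P1 s → ¬ P3 s → F s = 0 := by
    intro s hs hn1 hn3
    by_contra hF
    have hf := hfull s hs hF
    simp only [P1, P3] at hn1 hn3
    push Not at hn1 hn3
    obtain ⟨j1, hj1⟩ := hn1
    obtain ⟨j3, hj3⟩ := hn3
    by_cases hj3I : vtx s j3 ∈ I
    · -- mixed
      have h5 : ∀ i, |vtx s j1 i| ≤ (R : ℤ) + 1 := by
        intro i
        have h6 := disc_vtx_sub s j1 j3 i
        have h7 := hj3I i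
        rw [abs_le] at h6 h7 ⊢
        constructor
        · linarith [h6.1, h7.1]
        · linarith [h6.2, h7.2]
      obtain ⟨i, hi⟩ := hout _ hj1 (hBR _ h5).2
      exact absurd (hf j1 i) (not_le.2 hi)
    · obtain ⟨i, hi⟩ := hout _ hj3I (hconst _ ((hC s).1 hs j3) (hj3 hj3I))
      exact absurd (hf j3 i) (not_le.2 hi)
  have hsplit : ∑ s ∈ C, F s = ∑ s ∈ C.filter P1, F s + ∑ s ∈ C.filter P3, F s := by
    have hdisj : Disjoint (C.filter P1) (C.filter P3) := by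
      rw [Finset.disjoint_left]
      intro s hs1 hs3
      exact ((Finset.mem_filter.1 hs3).2 0).1 ((Finset.mem_filter.1 hs1).2 0)
    rw [← Finset.sum_union hdisj]
    symm
    refine Finset.sum_subset ?_ ?_
    · exact Finset.union_subset (Finset.filter_subset _ _) (Finset.filter_subset _ _)
    · intro s hs hn
      rw [Finset.mem_union, Finset.mem_filter, Finset.mem_filter] at hn
      push Not at hn
      exact hrest s hs (hn.1 hs) (hn.2 hs)
  -- the inner part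
  let s0 : (ι → ℤ) × (Fin (d + 1) ≃ ι) := (0, Fin.revPerm.trans e)
  have hs0I : ∀ j, vtx s0 j ∈ I := by
    intro j i
    have : vtx s0 j i = 0 ∨ vtx s0 j i = 1 := by
      simp only [vtx, s0, Pi.zero_apply, zero_add]
      split_ifs <;> simp
    rcases this with h | h <;> rw [h] <;> simp <;> omega
  have hs0C : s0 ∈ C := (hC s0).2 fun j => (hIB _ (hs0I j)).1
  have hinner : ∑ s ∈ C.filter P1, F s = F s0 := by
    refine Finset.sum_eq_single_of_mem s0 (Finset.mem_filter.2 ⟨hs0C, hs0I⟩) ?_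
    intro s hs hne
    by_contra hF
    exact hne (corner_unique e E lam s (fun j => h3 _ ((Finset.mem_filter.1 hs).2 j))
      (right_ne_zero_of_mul hF))
  have hunit : F s0 = 1 ∨ F s0 = -1 := by
    have h5 := corner_full e E lam fun j => h3 _ (hs0I j)
    have h6 : sg e s0.2 = 1 ∨ sg e s0.2 = -1 := by
      unfold sg
      rcases Int.units_eq_one_or (Equiv.Perm.sign (s0.2.trans e.symm)) with h | h <;> simp [h]
    simp only [F]
    rcases h5 with h5 | h5 <;> rcases h6 with h6 | h6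
    · left
      rw [h6]
      exact (one_mul _).trans h5
    · right
      rw [h6]
      change -1 * hlab ((fun v => E (lam v)) ∘ vtx ((0 : ι → ℤ), Fin.revPerm.trans e)) = -1
      rw [h5]
      rfl
    · right
      rw [h6]
      exact (one_mul _).trans h5
    · left
      rw [h6]
      change -1 * hlab ((fun v => E (lam v)) ∘ vtx ((0 : ι → ℤ), Fin.revPerm.trans e)) = 1
      rw [h5]
      rfl
  -- the outer part
  have houter : (p : ℤ) ∣ ∑ s ∈ C.filter P3, F s := by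
    refine symm_dvd hp τ hτ hfix e E lam (C.filter P3) ?_ ?_
    · intro s hs
      obtain ⟨hsC, hs3⟩ := Finset.mem_filter.1 hs
      refine Finset.mem_filter.2 ⟨(hC _).2 fun j => ?_, fun j => ⟨?_, ?_⟩⟩
      · rw [vtx_act]
        exact hBτ _ ((hC s).1 hsC j)
      · rw [vtx_act]
        exact fun h => (hs3 j).1 (hI' _ h)
      · rw [vtx_act]
        exact fun h => (hs3 j).2 (disc_act_inj τ h)
    · intro s hs j
      obtain ⟨hsC, hs3⟩ := Finset.mem_filter.1 hs
      exact h4 _ (hs3 j).1 (hs3 j).2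
  rw [hsplit, hinner] at hzero
  have hdvd : (p : ℤ) ∣ 1 := by
    obtain ⟨m, hm⟩ := houter
    rw [hm] at hzero
    rcases hunit with h | h
    · exact ⟨-m, by rw [h] at hzero; linarith⟩
    · exact ⟨m, by rw [h] at hzero; linarith⟩
  have hp1 : p ∣ 1 := by exact_mod_cast hdvd
  exact hp.one_lt.ne' (Nat.dvd_one.1 hp1)

end Pool.Agent.CubeE
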