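import Pool.Agent.CubeE.Engine

/-!
# MP_c0b923_gt, package EngW: the engine with complex functionals

PROOF. Write `χ = ZMod.stdAddChar (N := p)`, `χ (m l) = exp (2 π i m l / p)`. `U'` = the set of all
`x : ZMod p → Fin n → ℝ` whose Euclidean version (`WithLp.toLp 2` in each component) is in `U`; closure and
frontier correspond. Choose an injection `b : σ → Fin n × {m : ℕ | 1 ≤ m ≤ (p - 1) / 2}` (cardinalities:
`p` is odd, `2 * card σ < n (p - 1)`) and `(i0, m0)` not in its range. Put
`G x l i = g x i + ∑ s with (b s).1 = i, Re ((h s x) ^ (b s).2 * χ ((b s).2 * l))`.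
Equivariance: `(h s (shift x)) ^ m = χ m * (h s x) ^ m`. Constants: `h s c = χ 1 * h s c` and `χ 1 ≠ 1`
(`p > 1`), so `h s c = 0` and `G c = c`. `Lam y = ∑ l, y l i0 * Re (χ (m0 * l))`:
`Lam (e_(0,i0)) = 1`; `Lam (G x) = g x i0 * ∑ l, Re (χ (m0 l)) + ∑ s, Re ((h s x)^m ∑ l, χ (m l) Re (χ (m0 l)))
= 0` because `Re (χ (m0 l)) = (χ (m0 l) + χ (-m0 l)) / 2` and `m ± m0`, `m0` are not `0` mod `p` (for
`(b s).1 = i0` we have `m ≠ m0`, both in `1 .. (p - 1) / 2`), and `∑ l, χ (t l) = 0` for `t ≠ 0`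
(`AddChar.sum_mulShift`). If `G x = 0` then, for each `i`, multiplying with `χ (-t l)` and summing over
`l`: `t = 0` gives `p * g x i = 0`, `t = m = (b s).2` with `(b s).1 = i` gives `(p / 2) (h s x)^m = 0`.
-/

set_option autoImplicit false

open Finset

namespace Pool.Agent.CubeE

private theorem engW_sum (p : ℕ) [Fact p.Prime] (t : ZMod p) :
    ∑ l : ZMod p, (ZMod.stdAddChar (t * l) : ℂ) = if t = 0 then (p : ℂ) else 0 := by
  have h := AddChar.sum_mulShift t (ZMod.isPrimitive_stdAddChar p)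
  rw [ZMod.card] at h
  rw [Finset.sum_congr rfl (fun l _ => by rw [mul_comm t l]), h]
  split_ifs <;> simp

private theorem engW_orth (p : ℕ) [Fact p.Prime] (z : ℂ) (m t : ZMod p) :
    ∑ l : ZMod p, (((z * ZMod.stdAddChar (m * l)).re : ℝ) : ℂ) * ZMod.stdAddChar (t * l) =
      (if m + t = 0 then (p : ℂ) * z / 2 else 0)
        + (if t - m = 0 then (p : ℂ) * (starRingEnd ℂ) z / 2 else 0) := by
  have h1 : ∀ l : ZMod p,
      (((z * ZMod.stdAddChar (m * l)).re : ℝ) : ℂ) * ZMod.stdAddChar (t * l)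
        = z / 2 * ZMod.stdAddChar ((m + t) * l)
          + (starRingEnd ℂ) z / 2 * ZMod.stdAddChar ((t - m) * l) := by
    intro l
    rw [Complex.re_eq_add_conj, map_mul (starRingEnd ℂ), ← AddChar.map_neg_eq_conj]
    rw [show (m + t) * l = m * l + t * l by ring, show (t - m) * l = -(m * l) + t * l by ring,
      AddChar.map_add_eq_mul, AddChar.map_add_eq_mul]
    ring
  rw [Finset.sum_congr rfl (fun l _ => h1 l), Finset.sum_add_distrib, ← Finset.mul_sum,
    ← Finset.mul_sum, engW_sum, engW_sum]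
  split_ifs <;> ring

/-- the homeomorphism between the sup norm version and the Euclidean version -/
private noncomputable def engWHom (p n : ℕ) :
    (ZMod p → Fin n → ℝ) ≃ₜ (ZMod p → EuclideanSpace ℝ (Fin n)) :=
  Homeomorph.piCongrRight fun _ => (EuclideanSpace.equiv (Fin n) ℝ).symm.toHomeomorph

private theorem engWHom_apply (p n : ℕ) (x : ZMod p → Fin n → ℝ) (l : ZMod p) (i : Fin n) :
    engWHom p n x l i = x l i := rfl

private theorem engWHom_shift (p n : ℕ) (x : ZMod p → Fin n → ℝ) :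
    engWHom p n (shift x) = shift (engWHom p n x) := rfl

/-- the real map built from the complex functionals -/
private noncomputable def engWG {p n : ℕ} [NeZero p] {σ : Type} [Fintype σ] (ix : σ → Fin n)
    (fr : σ → ℕ) (g : (ZMod p → EuclideanSpace ℝ (Fin n)) → Fin n → ℝ)
    (h : σ → (ZMod p → EuclideanSpace ℝ (Fin n)) → ℂ)
    (x : ZMod p → Fin n → ℝ) (l : ZMod p) (i : Fin n) : ℝ :=
  g (engWHom p n x) i + ∑ s, if ix s = i then
    ((h s (engWHom p n x)) ^ fr s * ZMod.stdAddChar ((fr s : ZMod p) * l)).re else 0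

private theorem engWG_cont {p n : ℕ} [NeZero p] {σ : Type} [Fintype σ] (ix : σ → Fin n)
    (fr : σ → ℕ) (g : (ZMod p → EuclideanSpace ℝ (Fin n)) → Fin n → ℝ)
    (h : σ → (ZMod p → EuclideanSpace ℝ (Fin n)) → ℂ)
    (T : Set (ZMod p → EuclideanSpace ℝ (Fin n))) (hg : ContinuousOn g T)
    (hh : ∀ s, ContinuousOn (h s) T) :
    ContinuousOn (engWG ix fr g h) (engWHom p n ⁻¹' T) := by
  have hm : Set.MapsTo (engWHom p n) (engWHom p n ⁻¹' T) T := fun x hx => hx
  have hc : ContinuousOn (engWHom p n) (engWHom p n ⁻¹' T) :=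
    (engWHom p n).continuous.continuousOn
  have hg' : ContinuousOn (fun x => g (engWHom p n x)) (engWHom p n ⁻¹' T) := hg.comp hc hm
  have hh' : ∀ s, ContinuousOn (fun x => h s (engWHom p n x)) (engWHom p n ⁻¹' T) :=
    fun s => (hh s).comp hc hm
  refine continuousOn_pi.2 fun l => continuousOn_pi.2 fun i => ?_
  unfold engWG
  refine ContinuousOn.add ?_ ?_
  · exact continuousOn_pi.1 hg' i
  · refine continuousOn_finsetSum _ fun s _ => ?_
    split_ifs
    · exact Complex.continuous_re.comp_continuousOn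
        (((hh' s).pow _).mul continuousOn_const)
    · exact continuousOn_const

private theorem engWG_shift {p n : ℕ} [NeZero p] {σ : Type} [Fintype σ] (ix : σ → Fin n)
    (fr : σ → ℕ) (g : (ZMod p → EuclideanSpace ℝ (Fin n)) → Fin n → ℝ)
    (h : σ → (ZMod p → EuclideanSpace ℝ (Fin n)) → ℂ) (x : ZMod p → Fin n → ℝ)
    (hg : g (shift (engWHom p n x)) = g (engWHom p n x))
    (hh : ∀ s, h s (shift (engWHom p n x))
      = ZMod.stdAddChar (1 : ZMod p) * h s (engWHom p n x)) :
    engWG ix fr g h (shift x) = shift (engWG ix fr g h x) := by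
  funext l i
  change engWG ix fr g h (shift x) l i = engWG ix fr g h x (l + 1) i
  unfold engWG
  rw [engWHom_shift, hg]
  congr 1
  refine Finset.sum_congr rfl fun s _ => ?_
  split_ifs
  · congr 1
    rw [hh s, mul_pow, mul_add, AddChar.map_add_eq_mul, mul_one,
      ← AddChar.map_nsmul_eq_pow, nsmul_one]
    ring
  · rfl

private theorem engWG_const {p n : ℕ} [Fact p.Prime] {σ : Type} [Fintype σ] (ix : σ → Fin n)
    (fr : σ → ℕ) (hfr : ∀ s, fr s ≠ 0)
    (g : (ZMod p → EuclideanSpace ℝ (Fin n)) → Fin n → ℝ)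
    (h : σ → (ZMod p → EuclideanSpace ℝ (Fin n)) → ℂ) (c : Fin n → ℝ)
    (hg : ∀ i, g (engWHom p n (fun _ => c)) i = c i)
    (hh : ∀ s, h s (shift (engWHom p n (fun _ => c)))
      = ZMod.stdAddChar (1 : ZMod p) * h s (engWHom p n (fun _ => c))) :
    engWG ix fr g h (fun _ => c) = fun _ => c := by
  have hne : (ZMod.stdAddChar (1 : ZMod p) : ℂ) ≠ 1 := by
    intro h1
    have h2 : (ZMod.stdAddChar (1 : ZMod p) : ℂ) = ZMod.stdAddChar (0 : ZMod p) := by
      rw [h1, AddChar.map_zero_eq_one]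
    exact one_ne_zero (ZMod.injective_stdAddChar h2)
  have hz : ∀ s, h s (engWHom p n (fun _ => c)) = 0 := by
    intro s
    have h1 := hh s
    have h2 : shift (engWHom p n (fun _ => c)) = engWHom p n (fun _ => c) := rfl
    rw [h2] at h1
    have h3 : (ZMod.stdAddChar (1 : ZMod p) - 1) * h s (engWHom p n (fun _ => c)) = 0 := by
      linear_combination -h1
    rcases mul_eq_zero.1 h3 with h4 | h4
    · exact absurd (sub_eq_zero.1 h4) hne
    · exact h4
  funext l i
  unfold engWG
  rw [hg i, Finset.sum_eq_zero, add_zero]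
  intro s _
  split_ifs
  · rw [hz s, zero_pow (hfr s), zero_mul, Complex.zero_re]
  · rfl

private theorem engWG_sum {p n : ℕ} [Fact p.Prime] {σ : Type} [Fintype σ] (ix : σ → Fin n)
    (fr : σ → ℕ) (g : (ZMod p → EuclideanSpace ℝ (Fin n)) → Fin n → ℝ)
    (h : σ → (ZMod p → EuclideanSpace ℝ (Fin n)) → ℂ) (x : ZMod p → Fin n → ℝ) (i : Fin n)
    (t : ZMod p) :
    ∑ l : ZMod p, ((engWG ix fr g h x l i : ℝ) : ℂ) * ZMod.stdAddChar (t * l)
      = (if t = 0 then (p : ℂ) * (g (engWHom p n x) i : ℝ) else 0)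
        + ∑ s, if ix s = i then
          ((if (fr s : ZMod p) + t = 0 then
              (p : ℂ) * (h s (engWHom p n x)) ^ fr s / 2 else 0)
            + (if t - (fr s : ZMod p) = 0 then
              (p : ℂ) * (starRingEnd ℂ) ((h s (engWHom p n x)) ^ fr s) / 2 else 0)) else 0 := by
  have h1 : ∀ l : ZMod p, ((engWG ix fr g h x l i : ℝ) : ℂ) * ZMod.stdAddChar (t * l)
      = ((g (engWHom p n x) i : ℝ) : ℂ) * ZMod.stdAddChar (t * l)
        + ∑ s, if ix s = i then
          ((((h s (engWHom p n x)) ^ fr s * ZMod.stdAddChar ((fr s : ZMod p) * l)).re : ℝ) : ℂ)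
            * ZMod.stdAddChar (t * l) else 0 := by
    intro l
    unfold engWG
    rw [Complex.ofReal_add, add_mul, Complex.ofReal_sum, Finset.sum_mul]
    congr 1
    refine Finset.sum_congr rfl fun s _ => ?_
    split_ifs <;> simp
  rw [Finset.sum_congr rfl (fun l _ => h1 l), Finset.sum_add_distrib, ← Finset.mul_sum,
    engW_sum, Finset.sum_comm]
  congr 1
  · split_ifs <;> ring
  · refine Finset.sum_congr rfl fun s _ => ?_
    by_cases hs : ix s = i
    · simp only [if_pos hs]
      exact engW_orth p _ _ _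
    · simp only [if_neg hs, Finset.sum_const_zero]

/-- the functional -/
private noncomputable def engWL (p : ℕ) [NeZero p] (n : ℕ) (i0 : Fin n) (t : ZMod p) :
    (ZMod p → Fin n → ℝ) →ₗ[ℝ] ℝ where
  toFun := fun y => ∑ l : ZMod p, y l i0 * (ZMod.stdAddChar (t * l) : ℂ).re
  map_add' := by
    intro x y
    rw [← Finset.sum_add_distrib]
    refine Finset.sum_congr rfl fun l _ => ?_
    simp only [Pi.add_apply]
    ring
  map_smul' := by
    intro c y
    simp only [RingHom.id_apply, smul_eq_mul]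
    rw [Finset.mul_sum]
    refine Finset.sum_congr rfl fun l _ => ?_
    simp only [Pi.smul_apply, smul_eq_mul]
    ring

private theorem engWL_apply (p : ℕ) [NeZero p] (n : ℕ) (i0 : Fin n) (t : ZMod p)
    (y : ZMod p → Fin n → ℝ) :
    engWL p n i0 t y = (∑ l : ZMod p, ((y l i0 : ℝ) : ℂ) * ZMod.stdAddChar (t * l)).re := by
  rw [Complex.re_sum]
  refine Finset.sum_congr rfl fun l _ => ?_
  rw [Complex.re_ofReal_mul]

private theorem engW_ne {p q : ℕ} (hpq : p = 2 * q + 1) {a b : ℕ} (ha : a < q) (hb : b < q) :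
    ((a + 1 : ℕ) : ZMod p) + ((b + 1 : ℕ) : ZMod p) ≠ 0 := by
  intro h
  rw [← Nat.cast_add, ZMod.natCast_eq_zero_iff] at h
  have := Nat.le_of_dvd (by omega) h
  omega

private theorem engW_inj {p q : ℕ} (hpq : p = 2 * q + 1) {a b : ℕ} (ha : a < q) (hb : b < q)
    (h : ((a + 1 : ℕ) : ZMod p) - ((b + 1 : ℕ) : ZMod p) = 0) : a = b := by
  rw [sub_eq_zero, ZMod.natCast_eq_natCast_iff', Nat.mod_eq_of_lt (by omega),
    Nat.mod_eq_of_lt (by omega)] at h
  omega

private theorem engW_ne0 {p q : ℕ} (hpq : p = 2 * q + 1) {a : ℕ} (ha : a < q) :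
    ((a + 1 : ℕ) : ZMod p) ≠ 0 := by
  intro h
  rw [ZMod.natCast_eq_zero_iff] at h
  have := Nat.le_of_dvd (by omega) h
  omega

theorem engineW (p : ℕ) [Fact p.Prime] (hp2 : p ≠ 2) (n : ℕ) {σ : Type} [Fintype σ]
    (hM : 2 * Fintype.card σ < n * (p - 1)) (U : Set (ZMod p → EuclideanSpace ℝ (Fin n)))
    (hU : IsOpen U) (hb : Bornology.IsBounded U) (hS : ∀ x ∈ U, shift x ∈ U)
    (h0 : (0 : ZMod p → EuclideanSpace ℝ (Fin n)) ∈ U)
    (g : (ZMod p → EuclideanSpace ℝ (Fin n)) → Fin n → ℝ) (hg : ContinuousOn g (closure U))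
    (hgS : ∀ x ∈ closure U, g (shift x) = g x)
    (hgc : ∀ c : EuclideanSpace ℝ (Fin n), (fun _ => c) ∈ closure U →
      ∀ i, g (fun _ => c) i = c i)
    (h : σ → (ZMod p → EuclideanSpace ℝ (Fin n)) → ℂ)
    (hh : ∀ s, ContinuousOn (h s) (closure U))
    (hhS : ∀ s, ∀ x ∈ closure U, h s (shift x) = ZMod.stdAddChar (1 : ZMod p) * h s x) :
    ∃ x ∈ frontier U, (∀ i, g x i = 0) ∧ ∀ s, h s x = 0 := by
  classical
  obtain ⟨q, hpq⟩ := ((Fact.out : p.Prime).eq_two_or_odd').resolve_left hp2
  have hcard : Fintype.card σ < Fintype.card (Fin n × Fin q) := by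
    rw [Fintype.card_prod, Fintype.card_fin, Fintype.card_fin]
    have h1 : p - 1 = 2 * q := by omega
    rw [h1] at hM
    nlinarith
  obtain ⟨b⟩ := Function.Embedding.nonempty_of_card_le hcard.le
  obtain ⟨⟨i0, m0⟩, hb0⟩ : ∃ y, ∀ s, b s ≠ y := by
    by_contra hcon
    push Not at hcon
    exact absurd (Fintype.card_le_of_surjective b hcon) (not_le.2 hcard)
  set ix : σ → Fin n := fun s => (b s).1 with hix
  set fr : σ → ℕ := fun s => ((b s).2 : ℕ) + 1 with hfr
  set G := engWG (p := p) ix fr g h with hGdef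
  have hcl : closure (engWHom p n ⁻¹' U) = engWHom p n ⁻¹' closure U :=
    ((engWHom p n).preimage_closure U).symm
  have hfrn : frontier (engWHom p n ⁻¹' U) = engWHom p n ⁻¹' frontier U :=
    ((engWHom p n).preimage_frontier U).symm
  obtain ⟨x, hx, hGx⟩ := engineE p n (engWHom p n ⁻¹' U)
    (hU.preimage (engWHom p n).continuous)
    (by
      obtain ⟨B, hB⟩ := isBounded_iff_forall_norm_le.1 hb
      refine isBounded_iff_forall_norm_le.2 ⟨max B 0, fun x hx => ?_⟩
      refine (pi_norm_le_iff_of_nonneg (le_max_right _ _)).2 fun l => ?_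
      refine (pi_norm_le_iff_of_nonneg (le_max_right _ _)).2 fun i => ?_
      calc ‖x l i‖ = ‖engWHom p n x l i‖ := by rw [engWHom_apply]
        _ ≤ ‖engWHom p n x l‖ := PiLp.norm_apply_le _ _
        _ ≤ ‖engWHom p n x‖ := norm_le_pi_norm _ _
        _ ≤ B := hB _ hx
        _ ≤ max B 0 := le_max_left _ _)
    (fun x hx => by
      change engWHom p n (shift x) ∈ U
      rw [engWHom_shift]
      exact hS _ hx)
    (by
      change engWHom p n 0 ∈ U
      have h1 : engWHom p n 0 = 0 := by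
        funext l
        ext i
        rfl
      rw [h1]
      exact h0)
    G
    (by
      rw [hcl]
      exact engWG_cont ix fr g h (closure U) hg hh)
    (fun x hx => by
      rw [hcl] at hx
      exact engWG_shift ix fr g h x (hgS _ hx) (fun s => hhS s _ hx))
    (fun c hc => by
      rw [hcl] at hc
      exact engWG_const ix fr (fun s => Nat.succ_ne_zero _) g h c
        (fun i => hgc _ hc i) (fun s => hhS s _ hc))
    (engWL p n i0 (((m0 : ℕ) + 1 : ℕ) : ZMod p))
    (fun x _ => by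
      rw [engWL_apply, engWG_sum ix fr g h x i0, if_neg (engW_ne0 hpq m0.2), zero_add,
        Finset.sum_eq_zero, Complex.zero_re]
      intro s _
      split_ifs with h1 h2 h3 h3
      · exact absurd h2 (engW_ne hpq (b s).2.2 m0.2)
      · exact absurd h2 (engW_ne hpq (b s).2.2 m0.2)
      · exact absurd (Prod.ext h1 (Fin.ext (engW_inj hpq m0.2 (b s).2.2 h3).symm)) (hb0 s)
      · rw [add_zero]
      · rfl)
    0 i0
    (by
      rw [engWL_apply, Finset.sum_eq_single (0 : ZMod p)]
      · simp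
      · intro l _ hl
        simp [Pi.single_eq_of_ne hl]
      · intro h1
        exact absurd (Finset.mem_univ _) h1)
  have hz : ∀ i (t : ZMod p),
      ∑ l : ZMod p, ((G x l i : ℝ) : ℂ) * ZMod.stdAddChar (t * l) = 0 := by
    intro i t
    refine Finset.sum_eq_zero fun l _ => ?_
    rw [hGx]
    simp
  have hp0 : (p : ℂ) ≠ 0 := by exact_mod_cast (Fact.out : p.Prime).ne_zero
  rw [hfrn] at hx
  refine ⟨engWHom p n x, hx, fun i => ?_, fun s0 => ?_⟩
  · have h1 := hz i 0
    rw [hGdef, engWG_sum ix fr g h x i 0, if_pos rfl, Finset.sum_eq_zero, add_zero] at h1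
    · rcases mul_eq_zero.1 h1 with h2 | h2
      · exact absurd h2 hp0
      · exact_mod_cast h2
    · intro s _
      split_ifs with h2 h3 h4 h4
      · rw [add_zero] at h3
        exact absurd h3 (engW_ne0 hpq (b s).2.2)
      · rw [add_zero] at h3
        exact absurd h3 (engW_ne0 hpq (b s).2.2)
      · rw [zero_sub, neg_eq_zero] at h4
        exact absurd h4 (engW_ne0 hpq (b s).2.2)
      · rw [add_zero]
      · rfl
  · have h1 := hz (ix s0) (-(fr s0 : ZMod p))
    rw [hGdef, engWG_sum ix fr g h x (ix s0), if_neg, zero_add,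
      Finset.sum_eq_single s0] at h1
    · rw [if_pos rfl, if_pos (add_neg_cancel _), if_neg, add_zero] at h1
      · have h2 : (h s0 (engWHom p n x)) ^ fr s0 = 0 := by
          have h3 : (p : ℂ) * (h s0 (engWHom p n x)) ^ fr s0 = 0 := by
            linear_combination 2 * h1
          exact (mul_eq_zero.1 h3).resolve_left hp0
        exact pow_eq_zero_iff (Nat.succ_ne_zero _) |>.1 h2
      · intro h2
        have h3 : (fr s0 : ZMod p) + (fr s0 : ZMod p) = 0 := by linear_combination -h2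
        exact engW_ne hpq (b s0).2.2 (b s0).2.2 h3
    · intro s _ hs
      split_ifs with h2 h3 h4 h4
      · rw [← sub_eq_add_neg] at h3
        exact absurd (b.injective (Prod.ext h2 (Fin.ext (engW_inj hpq (b s).2.2
          (b s0).2.2 h3)))) hs
      · rw [← sub_eq_add_neg] at h3
        exact absurd (b.injective (Prod.ext h2 (Fin.ext (engW_inj hpq (b s).2.2
          (b s0).2.2 h3)))) hs
      · have h5 : (fr s0 : ZMod p) + (fr s : ZMod p) = 0 := by linear_combination -h4
        exact absurd h5 (engW_ne hpq (b s0).2.2 (b s).2.2)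
      · rw [add_zero]
      · rfl
    · intro h2
      exact absurd (Finset.mem_univ _) h2
    · intro h2
      rw [neg_eq_zero] at h2
      exact engW_ne0 hpq (b s0).2.2 h2

end Pool.Agent.CubeE
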