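import Pool.Agent.CubeE.Disc

/-!
# MP_c0b923_gt, package Engine: equivariant maps of open subsets of `(ℝ^n)^p`

PROOF. (A.6 of /team-store/CUBE.md.) Sup norm on `V = ZMod p → Fin n → ℝ`; `shift` is an isometry of
order `p`, so `U`, `closure U`, `frontier U` are invariant. Suppose `G x ≠ 0` for all `x ∈ frontier U`.
Choose `ρ > 0` with `closedBall 0 (3 ρ) ⊆ U`, `χ x = max 0 (min 1 (3 - ‖x‖ / ρ))` and
`G1 x = (1 - χ x) • G x + χ x • x`: continuous on `closure U`, equivariant, `G1 = G` for `‖x‖ ≥ 3 ρ`,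
`G1 x = x` for `‖x‖ ≤ 2 ρ` and for constant `x ∈ closure U`. `W0 = {x ∈ closure U | G1 x = 0} ∪
closedBall 0 (3 ρ)` is compact (`closure U` is compact) and contained in `U` (a point of `closure U` not
in `U` is in the frontier, has norm `> 3 ρ`, and `G1 = G ≠ 0` there). So there is `δ > 0` with
`ball x (2 δ) ⊆ U` for `x ∈ W0` (`IsCompact.exists_thickening_subset_open`), and `η > 0` with
`‖G1 x‖ ≥ η` for all `x ∈ closure U` such that some `y ∉ U` has `dist x y ≤ δ`: the set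
`{x ∈ closure U | infDist x Uᶜ ≤ δ}` is compact and disjoint from `W0` (if it is empty take `η = 1`).
Write `L (l, i) = Lam (Pi.single l (Pi.single i 1))`, so `Lam y = ∑ L (l, i) * y l i`. Choose `ω > 0`
with `ω < ρ / 2`, `ω < η`, `ω * ∑ |L| < η * |L k|`, `k = (l0, i0)`; by uniform continuity of `G1` on the
compact set `closure U` choose `m : ℕ`, `m ≥ 1`, `1 / m ≤ δ`, `2 / m ≤ ρ`, with `‖G1 x - G1 y‖ ≤ ω` for
`x, y ∈ closure U`, `dist x y ≤ 1 / m`. Apply `disc` with `ι = ZMod p × Fin n`, `τ (l, i) = (l - 1, i)`,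
`d + 1 = p * n` (`n ≥ 1` by `i0`), `x_v l i = v (l, i) / m`, `B = {v | x_v ∈ U}` (finite, as `U` is
bounded), `G v (l, i) = if x_v ∈ U then G1 x_v l i else 0`, `c = 1 / m`, `R = ⌊ρ m⌋` (`2 ≤ ρ m`, so
`R ≥ ρ m / 2`, `c R ≥ ρ / 2 > ω`, `c (R + 1) ≤ 2 ρ`). `x_{actV τ v} = shift x_v`. In `hbd`:
`dist x_v x_v' ≤ 1 / m ≤ δ` and `x_v' ∉ U`, so `x_v ∉ W0`, `G1 x_v = G x_v`, `Lam (G x_v) = 0` and
`‖G1 x_v‖ ≥ η`.
-/

set_option autoImplicit false

open Finset

namespace Pool.Agent.CubeE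

/-- cyclic shift -/
def shift {p : ℕ} {α : Type*} (x : ZMod p → α) : ZMod p → α := fun l => x (l + 1)

private theorem eng_iter {p : ℕ} {α : Type*} (x : ZMod p → α) (k : ℕ) (l : ZMod p) :
    (shift^[k] x) l = x (l + k) := by
  induction k generalizing l with
  | zero => simp
  | succ k ih =>
    rw [Function.iterate_succ_apply']
    change (shift^[k] x) (l + 1) = _
    rw [ih]
    push_cast
    congr 1
    ring

private theorem eng_const {p : ℕ} [Fact p.Prime] {α : Type*} (f : ZMod p → α)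
    (h : ∀ l, f (l + 1) = f l) (l : ZMod p) : f l = f 0 := by
  have h1 : ∀ k : ℕ, f (k : ZMod p) = f 0 := by
    intro k
    induction k with
    | zero => simp
    | succ k ih => rw [Nat.cast_succ, h, ih]
  have h2 := h1 l.val
  rwa [ZMod.natCast_zmod_val] at h2

private theorem eng_mem {p : ℕ} [Fact p.Prime] {α : Type*} {U : Set (ZMod p → α)}
    (hS : ∀ x ∈ U, shift x ∈ U) {x : ZMod p → α} (h : shift x ∈ U) : x ∈ U := by
  have h1 : ∀ k : ℕ, shift^[k] (shift x) ∈ U := by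
    intro k
    induction k with
    | zero => exact h
    | succ k ih =>
      rw [Function.iterate_succ_apply']
      exact hS _ ih
  have h2 := h1 (p - 1)
  have h3 : shift^[p - 1] (shift x) = x := by
    rw [← Function.iterate_succ_apply]
    funext l
    rw [eng_iter]
    have h4 : (p - 1).succ = p := Nat.succ_pred_eq_of_pos (Fact.out (p := p.Prime)).pos
    rw [h4]
    simp
  rwa [h3] at h2

/-- the permutation of the coordinates -/
private def engTau (p n : ℕ) : Equiv.Perm (ZMod p × Fin n) :=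
  Equiv.prodCongr (Equiv.subRight (1 : ZMod p)) (Equiv.refl (Fin n))

private theorem engTau_pow (p n k : ℕ) (x : ZMod p × Fin n) :
    (engTau p n ^ k) x = (x.1 - k, x.2) := by
  induction k with
  | zero => simp
  | succ k ih =>
    rw [pow_succ', Equiv.Perm.mul_apply, ih]
    refine Prod.ext ?_ rfl
    change x.1 - k - 1 = x.1 - ((k + 1 : ℕ) : ZMod p)
    push_cast
    ring

private theorem eng_core {p : ℕ} [Fact p.Prime] {n : ℕ} (U : Set (ZMod p → Fin n → ℝ))
    (hb : Bornology.IsBounded U) (hcc : IsCompact (closure U)) (hS : ∀ x ∈ U, shift x ∈ U)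
    (G : (ZMod p → Fin n → ℝ) → ZMod p → Fin n → ℝ) (hG : ContinuousOn G (closure U))
    (hGS : ∀ x ∈ U, G (shift x) = shift (G x))
    (ρ : ℝ) (hρ : 0 < ρ) (hρU : ∀ x : ZMod p → Fin n → ℝ, ‖x‖ ≤ 2 * ρ → x ∈ U)
    (hGρ : ∀ x : ZMod p → Fin n → ℝ, ‖x‖ ≤ 2 * ρ → G x = x)
    (hGc : ∀ c : Fin n → ℝ, (fun _ => c) ∈ U → G (fun _ => c) = fun _ => c)
    (Lam : (ZMod p → Fin n → ℝ) →ₗ[ℝ] ℝ) (δ η : ℝ) (hδ : 0 < δ) (hη : 0 < η)
    (hnear : ∀ x ∈ U, ∀ y ∉ U, dist x y ≤ δ → η ≤ ‖G x‖ ∧ Lam (G x) = 0)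
    (l0 : ZMod p) (i0 : Fin n) (hk : Lam (Pi.single l0 (Pi.single i0 1)) ≠ 0) : False := by
  classical
  have hp : p.Prime := Fact.out
  -- the linear form
  let L : ZMod p × Fin n → ℝ := fun i => Lam (Pi.single i.1 (Pi.single i.2 1))
  have hLam : ∀ y : ZMod p → Fin n → ℝ, ∑ i : ZMod p × Fin n, L i * y i.1 i.2 = Lam y := by
    intro y
    have h1 : y = ∑ i : ZMod p × Fin n,
        y i.1 i.2 • (Pi.single i.1 (Pi.single i.2 1) : ZMod p → Fin n → ℝ) := by
      funext l j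
      rw [Finset.sum_apply, Finset.sum_apply, Finset.sum_eq_single (l, j)]
      · simp
      · rintro ⟨l', j'⟩ - hne
        by_cases h : l' = l
        · subst h
          have h2 : j' ≠ j := fun h3 => hne (by rw [h3])
          simp [Pi.single_eq_of_ne (Ne.symm h2)]
        · simp [Pi.single_eq_of_ne (Ne.symm h)]
      · intro h
        exact absurd (Finset.mem_univ _) h
    conv_rhs => rw [h1, map_sum]
    refine Finset.sum_congr rfl fun i _ => ?_
    rw [map_smul, smul_eq_mul, mul_comm]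
  have hLk : 0 < |L (l0, i0)| := abs_pos.2 hk
  let TT : ℝ := ∑ i, |L i|
  have hTT : 0 ≤ TT := Finset.sum_nonneg fun i _ => abs_nonneg _
  -- `ω`
  obtain ⟨ω, hω, hω1, hω2, hω3⟩ : ∃ ω : ℝ, 0 < ω ∧ ω < ρ / 2 ∧ ω < η ∧
      ω * TT < η * |L (l0, i0)| := by
    have hpos : 0 < η * |L (l0, i0)| := mul_pos hη hLk
    refine ⟨min (ρ / 4) (min (η / 2) (η * |L (l0, i0)| / (2 * (TT + 1)))), ?_, ?_, ?_, ?_⟩
    · exact lt_min (by positivity) (lt_min (by positivity) (by positivity))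
    · exact lt_of_le_of_lt (min_le_left _ _) (by linarith)
    · exact lt_of_le_of_lt ((min_le_right _ _).trans (min_le_left _ _)) (by linarith)
    · have h1 : min (ρ / 4) (min (η / 2) (η * |L (l0, i0)| / (2 * (TT + 1)))) ≤
          η * |L (l0, i0)| / (2 * (TT + 1)) := (min_le_right _ _).trans (min_le_right _ _)
      refine lt_of_le_of_lt (mul_le_mul_of_nonneg_right h1 hTT) ?_
      rw [div_mul_eq_mul_div, div_lt_iff₀ (by positivity)]
      nlinarith
  -- the mesh
  have huc := hcc.uniformContinuousOn_of_continuous hG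
  rw [Metric.uniformContinuousOn_iff] at huc
  obtain ⟨δ', hδ', huc⟩ := huc ω hω
  obtain ⟨m, hm⟩ := exists_nat_gt (1 / min δ (min δ' (ρ / 2)))
  have hmin : 0 < min δ (min δ' (ρ / 2)) := lt_min hδ (lt_min hδ' (by positivity))
  have hm0 : (0 : ℝ) < m := lt_trans (by positivity) hm
  obtain ⟨c, hcdef⟩ : ∃ c : ℝ, c = 1 / m := ⟨_, rfl⟩
  have hc : 0 < c := by rw [hcdef]; positivity
  have hcm : c < min δ (min δ' (ρ / 2)) := by
    rw [hcdef, div_lt_iff₀ hm0]
    rw [div_lt_iff₀ hmin] at hm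
    linarith
  have hcδ : c < δ := lt_of_lt_of_le hcm (min_le_left _ _)
  have hcδ' : c < δ' := lt_of_lt_of_le hcm ((min_le_right _ _).trans (min_le_left _ _))
  have hcρ : c < ρ / 2 := lt_of_lt_of_le hcm ((min_le_right _ _).trans (min_le_right _ _))
  -- lattice points
  let xv : (ZMod p × Fin n → ℤ) → ZMod p → Fin n → ℝ := fun v l i => c * v (l, i)
  have hxdist : ∀ v v' : ZMod p × Fin n → ℤ, (∀ i, |v i - v' i| ≤ 1) →
      dist (xv v) (xv v') ≤ c := by
    intro v v' h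
    refine (dist_pi_le_iff hc.le).2 fun l => (dist_pi_le_iff hc.le).2 fun i => ?_
    change dist (c * (v (l, i) : ℝ)) (c * (v' (l, i) : ℝ)) ≤ c
    rw [Real.dist_eq, ← mul_sub, abs_mul, abs_of_pos hc]
    have h1 : |(v (l, i) : ℝ) - v' (l, i)| ≤ 1 := by exact_mod_cast h (l, i)
    nlinarith
  have hxshift : ∀ v, xv (actV (engTau p n) v) = shift (xv v) := by
    intro v
    rfl
  let G' : (ZMod p × Fin n → ℤ) → ZMod p × Fin n → ℝ := fun v i =>
    if xv v ∈ U then G (xv v) i.1 i.2 else 0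
  have hG'in : ∀ v, xv v ∈ U → ∀ i, G' v i = G (xv v) i.1 i.2 := fun v hv i => if_pos hv
  have hG'out : ∀ v, xv v ∉ U → ∀ i, G' v i = 0 := fun v hv i => if_neg hv
  -- the radius
  have hρc : 2 ≤ ρ / c := by
    rw [le_div_iff₀ hc]
    linarith
  obtain ⟨R, hRdef⟩ : ∃ R : ℕ, R = ⌊ρ / c⌋₊ := ⟨_, rfl⟩
  have hR1 : (R : ℝ) ≤ ρ / c := by
    rw [hRdef]
    exact Nat.floor_le (by positivity)
  have hR2 : ρ / c < R + 1 := by
    rw [hRdef]
    exact Nat.lt_floor_add_one _
  have hR1' : c * R ≤ ρ := by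
    rw [le_div_iff₀ hc] at hR1
    linarith
  have hR2' : ρ < c * (R + 1) := by
    rw [div_lt_iff₀ hc] at hR2
    linarith
  -- the bijection
  have hcard : Fintype.card (ZMod p × Fin n) = (p * n - 1) + 1 := by
    rw [Fintype.card_prod, ZMod.card, Fintype.card_fin]
    have h1 : 0 < n := lt_of_le_of_lt (Nat.zero_le _) i0.2
    have h2 : 0 < p * n := Nat.mul_pos hp.pos h1
    omega
  refine disc (d := p * n - 1) hp (engTau p n) ?_ ?_ (Fintype.equivFinOfCardEq hcard).symm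
    {v | xv v ∈ U} ?_ ?_ G' ?_ R ?_ c hc ?_ ?_ ω η hω ?_ ?_ L (l0, i0) hω2 hω3 ?_
  · -- `τ ^ p = 1`
    ext x : 1
    rw [engTau_pow]
    simp
  · -- no fixed points
    rintro ⟨l, i⟩ h
    have h1 : l - 1 = l := congrArg Prod.fst h
    have h2 : (1 : ZMod p) = 0 := by
      have h3 : l - 1 - l = 0 := by rw [h1, sub_self]
      have h4 : l - 1 - l = -1 := by ring
      rw [h4] at h3
      exact neg_eq_zero.1 h3
    exact one_ne_zero h2
  · -- `B` is finite
    obtain ⟨M, hM⟩ := hb.exists_norm_le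
    obtain ⟨K, hK⟩ := exists_nat_ge (M / c)
    refine (Set.finite_Icc (fun _ => -(K : ℤ) : ZMod p × Fin n → ℤ) (fun _ => (K : ℤ))).subset ?_
    intro v hv
    have h1 : ∀ i, |v i| ≤ (K : ℤ) := by
      intro i
      have h2 : ‖xv v i.1 i.2‖ ≤ M :=
        ((norm_le_pi_norm (xv v i.1) i.2).trans (norm_le_pi_norm (xv v) i.1)).trans (hM _ hv)
      have h3 : |c * (v i : ℝ)| ≤ M := h2
      rw [abs_mul, abs_of_pos hc] at h3
      have h4 : |(v i : ℝ)| ≤ M / c := by
        rw [le_div_iff₀ hc]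
        linarith
      have h5 : |(v i : ℝ)| ≤ K := h4.trans hK
      exact_mod_cast h5
    exact ⟨fun i => (abs_le.1 (h1 i)).1, fun i => (abs_le.1 (h1 i)).2⟩
  · -- `B` is invariant
    intro v hv
    change xv (actV (engTau p n) v) ∈ U
    rw [hxshift]
    exact hS _ hv
  · -- equivariance
    rintro v ⟨l, j⟩
    by_cases hv : xv v ∈ U
    · have h1 : xv (actV (engTau p n) v) ∈ U := by
        rw [hxshift]
        exact hS _ hv
      rw [hG'in _ h1, hG'in _ hv, hxshift, hGS _ hv]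
      rfl
    · have h1 : xv (actV (engTau p n) v) ∉ U := by
        rw [hxshift]
        exact fun h => hv (eng_mem hS h)
      rw [hG'out _ h1, hG'out _ hv]
  · -- `1 ≤ R`
    rw [hRdef]
    exact Nat.le_floor (by push_cast; linarith)
  · -- the ball
    intro v hv
    have h1 : ‖xv v‖ ≤ 2 * ρ := by
      refine (pi_norm_le_iff_of_nonneg (by positivity)).2 fun l =>
        (pi_norm_le_iff_of_nonneg (by positivity)).2 fun i => ?_
      change |c * (v (l, i) : ℝ)| ≤ 2 * ρ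
      rw [abs_mul, abs_of_pos hc]
      have h2 : |(v (l, i) : ℝ)| ≤ R + 1 := by exact_mod_cast hv (l, i)
      nlinarith
    refine ⟨hρU _ h1, fun i => ?_⟩
    rw [hG'in _ (hρU _ h1), hGρ _ h1]
  · -- constants
    intro v hv hfix i
    have h1 : ∀ l j, v (l, j) = v (0, j) := by
      intro l j
      refine eng_const (fun l => v (l, j)) (fun l => ?_) l
      exact congrFun hfix (l, j)
    have h2 : xv v = fun _ => fun j => c * (v (0, j) : ℝ) := by
      funext l j
      change c * (v (l, j) : ℝ) = _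
      rw [h1]
    have hv' : xv v ∈ U := hv
    rw [hG'in _ hv']
    have h3 : G (xv v) = xv v := by
      rw [h2] at hv' ⊢
      exact hGc _ hv'
    rw [h3]
  · -- `ω < c R`
    nlinarith
  · -- adjacent points
    intro v hv v' hv' h i
    have hv1 : xv v ∈ U := hv
    have hv2 : xv v' ∈ U := hv'
    rw [hG'in _ hv1, hG'in _ hv2, ← Real.dist_eq]
    have h1 := huc _ (subset_closure hv1) _ (subset_closure hv2)
      (lt_of_le_of_lt (hxdist v v' h) hcδ')
    exact ((dist_le_pi_dist (G (xv v) i.1) (G (xv v') i.1) i.2).trans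
      (dist_le_pi_dist (G (xv v)) (G (xv v')) i.1)).trans h1.le
  · -- the boundary
    intro v hv v' hv' h
    have hv1 : xv v ∈ U := hv
    have hv2 : xv v' ∉ U := hv'
    obtain ⟨h1, h2⟩ := hnear _ hv1 _ hv2 ((hxdist v v' h).trans hcδ.le)
    constructor
    · rw [← h2, ← hLam]
      refine Finset.sum_congr rfl fun i _ => ?_
      rw [hG'in _ hv1]
    · by_contra hcon
      push Not at hcon
      refine absurd h1 (not_le.2 ?_)
      refine (pi_norm_lt_iff hη).2 fun l => (pi_norm_lt_iff hη).2 fun i => ?_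
      have h3 := hcon (l, i)
      rw [hG'in _ hv1] at h3
      exact h3

theorem engineE (p : ℕ) [Fact p.Prime] (n : ℕ) (U : Set (ZMod p → Fin n → ℝ)) (hU : IsOpen U)
    (hb : Bornology.IsBounded U) (hS : ∀ x ∈ U, shift x ∈ U)
    (h0 : (0 : ZMod p → Fin n → ℝ) ∈ U)
    (G : (ZMod p → Fin n → ℝ) → ZMod p → Fin n → ℝ) (hG : ContinuousOn G (closure U))
    (hGS : ∀ x ∈ closure U, G (shift x) = shift (G x))
    (hGc : ∀ c : Fin n → ℝ, (fun _ => c) ∈ closure U → G (fun _ => c) = fun _ => c)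
    (Lam : (ZMod p → Fin n → ℝ) →ₗ[ℝ] ℝ) (hL : ∀ x ∈ closure U, Lam (G x) = 0)
    (l0 : ZMod p) (i0 : Fin n) (hk : Lam (Pi.single l0 (Pi.single i0 1)) ≠ 0) :
    ∃ x ∈ frontier U, G x = 0 := by
  classical
  by_contra hcon
  push Not at hcon
  have hcc : IsCompact (closure U) :=
    Metric.isCompact_of_isClosed_isBounded isClosed_closure hb.closure
  obtain ⟨r, hr, hball⟩ := Metric.isOpen_iff.1 hU 0 h0
  obtain ⟨ρ, hρdef⟩ : ∃ ρ : ℝ, ρ = r / 4 := ⟨_, rfl⟩
  have hρ : 0 < ρ := by rw [hρdef]; positivity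
  have hρU : ∀ x : ZMod p → Fin n → ℝ, ‖x‖ ≤ 3 * ρ → x ∈ U := by
    intro x hx
    apply hball
    rw [mem_ball_zero_iff]
    rw [hρdef] at hx
    linarith
  -- the cut-off function
  let χ : (ZMod p → Fin n → ℝ) → ℝ := fun x => max 0 (min 1 (3 - ‖x‖ / ρ))
  have hχc : Continuous χ := by
    have h1 : Continuous fun x : ZMod p → Fin n → ℝ => 3 - ‖x‖ / ρ := by fun_prop
    exact continuous_const.max (continuous_const.min h1)
  have hsn : ∀ x : ZMod p → Fin n → ℝ, ‖shift x‖ = ‖x‖ := by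
    intro x
    refine le_antisymm ?_ ?_
    · exact (pi_norm_le_iff_of_nonneg (norm_nonneg _)).2 fun l => norm_le_pi_norm x (l + 1)
    · refine (pi_norm_le_iff_of_nonneg (norm_nonneg _)).2 fun l => ?_
      have h1 := norm_le_pi_norm (shift x) (l - 1)
      have h2 : shift x (l - 1) = x l := by
        change x (l - 1 + 1) = x l
        rw [sub_add_cancel]
      rwa [h2] at h1
  have hχs : ∀ x, χ (shift x) = χ x := by
    intro x
    change max 0 (min 1 (3 - ‖shift x‖ / ρ)) = max 0 (min 1 (3 - ‖x‖ / ρ))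
    rw [hsn]
  have hχ0 : ∀ x, 3 * ρ ≤ ‖x‖ → χ x = 0 := by
    intro x hx
    have h1 : 3 ≤ ‖x‖ / ρ := by rwa [le_div_iff₀ hρ]
    exact max_eq_left ((min_le_right _ _).trans (by linarith))
  have hχ1 : ∀ x, ‖x‖ ≤ 2 * ρ → χ x = 1 := by
    intro x hx
    have h1 : ‖x‖ / ρ ≤ 2 := by rwa [div_le_iff₀ hρ]
    change max 0 (min 1 (3 - ‖x‖ / ρ)) = 1
    rw [min_eq_left (by linarith), max_eq_right zero_le_one]
  let G1 : (ZMod p → Fin n → ℝ) → ZMod p → Fin n → ℝ := fun x => (1 - χ x) • G x + χ x • x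
  have hG1c : ContinuousOn G1 (closure U) :=
    ((continuous_const.sub hχc).continuousOn.smul hG).add
      (hχc.continuousOn.smul continuousOn_id)
  have hG1s : ∀ x ∈ closure U, G1 (shift x) = shift (G1 x) := by
    intro x hx
    change (1 - χ (shift x)) • G (shift x) + χ (shift x) • shift x = _
    rw [hχs, hGS x hx]
    rfl
  have hG1far : ∀ x, 3 * ρ ≤ ‖x‖ → G1 x = G x := by
    intro x hx
    change (1 - χ x) • G x + χ x • x = G x
    rw [hχ0 x hx, sub_zero, one_smul, zero_smul, add_zero]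
  have hG1near : ∀ x, ‖x‖ ≤ 2 * ρ → G1 x = x := by
    intro x hx
    change (1 - χ x) • G x + χ x • x = x
    rw [hχ1 x hx, sub_self, zero_smul, one_smul, zero_add]
  have hG1const : ∀ c : Fin n → ℝ, (fun _ => c) ∈ closure U → G1 (fun _ => c) = fun _ => c := by
    intro c hc
    change (1 - χ (fun _ => c)) • G (fun _ => c) + χ (fun _ => c) • (fun _ => c) = fun _ => c
    rw [hGc c hc, ← add_smul, sub_add_cancel, one_smul]
  -- the compact set
  have hZc : IsClosed (closure U ∩ G1 ⁻¹' {0}) :=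
    hG1c.preimage_isClosed_of_isClosed isClosed_closure isClosed_singleton
  have hWc : IsCompact (closure U ∩ G1 ⁻¹' {0} ∪ Metric.closedBall 0 (3 * ρ)) :=
    (hcc.of_isClosed_subset hZc Set.inter_subset_left).union (isCompact_closedBall _ _)
  have hWU : closure U ∩ G1 ⁻¹' {0} ∪ Metric.closedBall 0 (3 * ρ) ⊆ U := by
    rintro x (⟨hx1, hx2⟩ | hx)
    · by_contra hxU
      have h1 : x ∈ frontier U := by
        rw [hU.frontier_eq]
        exact ⟨hx1, hxU⟩
      have h2 : 3 * ρ ≤ ‖x‖ := by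
        by_contra h3
        exact hxU (hρU x (not_le.1 h3).le)
      have h3 : G1 x = 0 := hx2
      rw [hG1far x h2] at h3
      exact hcon x h1 h3
    · rw [mem_closedBall_zero_iff] at hx
      exact hρU x hx
  obtain ⟨δ0, hδ0, hthick⟩ := hWc.exists_thickening_subset_open hU hWU
  -- the lower bound
  have hfar : ∀ x ∈ closure U, x ∈ Metric.cthickening (δ0 / 2) Uᶜ → G1 x ≠ 0 ∧ 3 * ρ ≤ ‖x‖ := by
    intro x hx hx2
    have h1 : x ∈ Metric.thickening δ0 Uᶜ :=
      Metric.cthickening_subset_thickening' hδ0 (by linarith) _ hx2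
    rw [Metric.mem_thickening_iff] at h1
    obtain ⟨y, hy, hxy⟩ := h1
    have h2 : x ∉ closure U ∩ G1 ⁻¹' {0} ∪ Metric.closedBall 0 (3 * ρ) := by
      intro h3
      apply hy
      apply hthick
      rw [Metric.mem_thickening_iff]
      exact ⟨x, h3, by rwa [dist_comm]⟩
    constructor
    · intro h3
      exact h2 (Or.inl ⟨hx, h3⟩)
    · by_contra h3
      refine h2 (Or.inr ?_)
      rw [mem_closedBall_zero_iff]
      exact (not_le.1 h3).le
  obtain ⟨η, hη, hlow⟩ : ∃ η : ℝ, 0 < η ∧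
      ∀ x ∈ closure U ∩ Metric.cthickening (δ0 / 2) Uᶜ, η ≤ ‖G1 x‖ := by
    have hc1 : IsCompact (closure U ∩ Metric.cthickening (δ0 / 2) Uᶜ) :=
      hcc.inter_right Metric.isClosed_cthickening
    rcases (closure U ∩ Metric.cthickening (δ0 / 2) Uᶜ).eq_empty_or_nonempty with he | hne
    · refine ⟨1, one_pos, fun x hx => ?_⟩
      rw [he] at hx
      exact absurd hx (Set.notMem_empty _)
    · obtain ⟨x0, hx0, hmin⟩ := hc1.exists_isMinOn hne
        ((hG1c.mono Set.inter_subset_left).norm)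
      refine ⟨‖G1 x0‖, norm_pos_iff.2 (hfar x0 hx0.1 hx0.2).1, fun x hx => ?_⟩
      exact isMinOn_iff.1 hmin x hx
  refine eng_core U hb hcc hS G1 hG1c (fun x hx => hG1s x (subset_closure hx)) ρ hρ
    (fun x hx => hρU x (by linarith)) hG1near (fun c hc => hG1const c (subset_closure hc)) Lam
    (δ0 / 2) η (by positivity) hη ?_ l0 i0 hk
  intro x hx y hy hxy
  have h1 : x ∈ Metric.cthickening (δ0 / 2) Uᶜ :=
    Metric.mem_cthickening_of_dist_le x y _ _ hy hxy
  refine ⟨hlow x ⟨subset_closure hx, h1⟩, ?_⟩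
  rw [hG1far x (hfar x (subset_closure hx) h1).2]
  exact hL x (subset_closure hx)

end Pool.Agent.CubeE
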