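import Pool.Agent.CubeE.Alt
import Pool.Agent.CubeE.Sign

/-!
# MP_c0b923_gt, package Four: a Fourier coefficient of low index does not vanish

`hh M b u` is the balanced touch function `s⁻ φ⁺ - s⁺ φ⁻` with `φ± = (± u - b)₊` and
`s± = ∑_{k < M} φ±`; `cc M b m u` are its Fourier coefficients.

Proof of `four`. Otherwise `h = hh M b u` is orthogonal to `exp (2 π i t k / M)`, `|t| ≤ A`. By
`sign_structure` it has the sign `(-1)^(card {q | θ q ≤ k})` on one period, as the product
`T k = ∏ q, sin (π (k - θ q + 1 / 2) / M)` over `q : Fin (2 A)`; so `∑ h k * T k > 0`, while `T` is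
a linear combination of these exponentials.
-/

set_option autoImplicit false

open Finset

namespace Pool.Agent.CubeE

/-- positive part of the excess over `b` -/
def phiP (b : ℝ) (u : ℤ → ℝ) (k : ℤ) : ℝ := max (u k - b) 0

/-- positive part of the excess of `-u` over `b` -/
def phiM (b : ℝ) (u : ℤ → ℝ) (k : ℤ) : ℝ := max (-u k - b) 0

/-- balanced touch function -/
def hh (M : ℕ) (b : ℝ) (u : ℤ → ℝ) (k : ℤ) : ℝ :=
  (∑ k' ∈ range M, phiM b u k') * phiP b u k - (∑ k' ∈ range M, phiP b u k') * phiM b u k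

/-- Fourier coefficients of the balanced touch function -/
noncomputable def cc (M : ℕ) (b : ℝ) (m : ℕ) (u : ℤ → ℝ) : ℂ :=
  ∑ k ∈ range M, (hh M b u k : ℂ) * Complex.exp (-(2 * Real.pi * Complex.I * m * k / M))

/-- the sum over a window of the length of the period does not depend on the window -/
private theorem four_window {G : Type*} [AddCommGroup G] {M : ℕ} {f : ℤ → G}
    (hf : ∀ k, f (k + M) = f k) (a : ℤ) :
    ∑ i ∈ range M, f (a + i) = ∑ i ∈ range M, f i := by
  have step : ∀ a : ℤ, ∑ i ∈ range M, f (a + 1 + i) = ∑ i ∈ range M, f (a + i) := by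
    intro a
    have h1 : ∑ i ∈ range (M + 1), f (a + i) = ∑ i ∈ range M, f (a + i) + f (a + M) :=
      Finset.sum_range_succ (fun i : ℕ => f (a + i)) M
    have h2 : ∑ i ∈ range (M + 1), f (a + i) =
        ∑ i ∈ range M, f (a + ((i + 1 : ℕ) : ℤ)) + f (a + ((0 : ℕ) : ℤ)) :=
      Finset.sum_range_succ' (fun i : ℕ => f (a + i)) M
    rw [h1, hf] at h2
    have h3 : ∑ i ∈ range M, f (a + ((i + 1 : ℕ) : ℤ)) = ∑ i ∈ range M, f (a + 1 + i) := by
      refine Finset.sum_congr rfl fun i _ => ?_
      congr 1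
      push_cast
      ring
    rw [h3] at h2
    simp only [Nat.cast_zero, add_zero] at h2
    exact (add_right_cancel h2).symm
  have h0 : ∑ i ∈ range M, f (0 + i) = ∑ i ∈ range M, f i := by simp
  rw [← h0]
  induction a using Int.induction_on with
  | zero => rfl
  | succ n ih => rw [step, ih]
  | pred n ih =>
    rw [← ih, ← step]
    refine Finset.sum_congr rfl fun i _ => ?_
    congr 1
    ring

private theorem four_mod {X : Type*} {M : ℕ} {f : ℤ → X} (hf : ∀ k, f (k + M) = f k)
    (k : ℤ) : f (k % M) = f k := by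
  have hp : Function.Periodic f (M : ℤ) := hf
  rw [Int.emod_def, mul_comm]
  exact hp.sub_int_mul_eq (k / M)

private theorem four_pos {M : ℕ} (hM : 0 < M) {f : ℤ → ℝ} (hf : ∀ k, f (k + M) = f k)
    (h0 : ∀ k, 0 ≤ f k) {k : ℤ} (hk : 0 < f k) : 0 < ∑ i ∈ range M, f i := by
  have hM' : (0 : ℤ) < M := by exact_mod_cast hM
  have h1 : 0 ≤ k % M := Int.emod_nonneg _ hM'.ne'
  have h2 : k % M < M := Int.emod_lt_of_pos _ hM'
  obtain ⟨n, hn⟩ := Int.eq_ofNat_of_zero_le h1
  have h3 : n < M := by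
    rw [hn] at h2
    exact_mod_cast h2
  have h4 : 0 < f (n : ℤ) := by
    have := four_mod hf k
    rw [hn] at this
    have e : f (n : ℤ) = f k := this
    rw [e]
    exact hk
  exact Finset.sum_pos' (fun i _ => h0 _) ⟨n, mem_range.2 h3, h4⟩

private theorem phiP_nonneg (b : ℝ) (u : ℤ → ℝ) (k : ℤ) : 0 ≤ phiP b u k := le_max_right _ _

private theorem phiM_nonneg (b : ℝ) (u : ℤ → ℝ) (k : ℤ) : 0 ≤ phiM b u k := le_max_right _ _

private theorem hh_periodic {M : ℕ} {b : ℝ} {u : ℤ → ℝ} (hper : ∀ k, u (k + M) = u k) (k : ℤ) :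
    hh M b u (k + M) = hh M b u k := by
  unfold hh phiP phiM
  rw [hper]

private theorem hh_sum {M : ℕ} {b : ℝ} {u : ℤ → ℝ} : ∑ k ∈ range M, hh M b u k = 0 := by
  unfold hh
  rw [Finset.sum_sub_distrib, ← Finset.mul_sum, ← Finset.mul_sum, mul_comm, sub_self]

private theorem hh_pos_iff {M : ℕ} {b : ℝ} (hb : 0 ≤ b) {u : ℤ → ℝ}
    (hsP : 0 < ∑ k ∈ range M, phiP b u k) (hsM : 0 < ∑ k ∈ range M, phiM b u k) (k : ℤ) :
    0 < hh M b u k ↔ b < u k := by
  constructor
  · intro h
    by_contra hc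
    push Not at hc
    have e : phiP b u k = 0 := max_eq_right (by linarith)
    have := mul_nonneg hsP.le (phiM_nonneg b u k)
    unfold hh at h
    rw [e, mul_zero] at h
    linarith
  · intro h
    have e : phiM b u k = 0 := max_eq_right (by linarith)
    have e2 : 0 < phiP b u k := lt_max_of_lt_left (by linarith)
    unfold hh
    rw [e, mul_zero, sub_zero]
    exact mul_pos hsM e2

private theorem hh_neg_iff {M : ℕ} {b : ℝ} (hb : 0 ≤ b) {u : ℤ → ℝ}
    (hsP : 0 < ∑ k ∈ range M, phiP b u k) (hsM : 0 < ∑ k ∈ range M, phiM b u k) (k : ℤ) :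
    hh M b u k < 0 ↔ u k < -b := by
  constructor
  · intro h
    by_contra hc
    push Not at hc
    have e : phiM b u k = 0 := max_eq_right (by linarith)
    have := mul_nonneg hsM.le (phiP_nonneg b u k)
    unfold hh at h
    rw [e, mul_zero] at h
    linarith
  · intro h
    have e : phiP b u k = 0 := max_eq_right (by linarith)
    have e2 : 0 < phiM b u k := lt_max_of_lt_left (by linarith)
    have := mul_pos hsP e2
    unfold hh
    rw [e, mul_zero]
    linarith

/-- sign of the trigonometric product -/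
private theorem four_sign {M A : ℕ} (hM : 0 < M) {α : ℤ} {θ : Fin (2 * A) → ℤ}
    (hθ : ∀ q, α ≤ θ q ∧ θ q ≤ α + M) {k : ℤ} (h1 : α ≤ k) (h2 : k < α + M) :
    0 < (-1 : ℝ) ^ (Finset.univ.filter fun q => θ q ≤ k).card *
      ∏ q, Real.sin (Real.pi * ((k : ℝ) - θ q + 1 / 2) / M) := by
  have hMr : (0 : ℝ) < M := by exact_mod_cast hM
  have hpi := Real.pi_pos
  have key : ∀ q, 0 < (if θ q ≤ k then (1 : ℝ) else -1) *
      Real.sin (Real.pi * ((k : ℝ) - θ q + 1 / 2) / M) := by
    intro q
    by_cases hq : θ q ≤ k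
    · rw [if_pos hq, one_mul]
      have e1 : (θ q : ℝ) ≤ k := by exact_mod_cast hq
      have e2 : (k : ℝ) + 1 ≤ θ q + M := by
        have : k + 1 ≤ θ q + M := by
          have := (hθ q).1
          omega
        exact_mod_cast this
      apply Real.sin_pos_of_pos_of_lt_pi
      · apply div_pos _ hMr
        apply mul_pos hpi
        linarith
      · rw [div_lt_iff₀ hMr]
        apply mul_lt_mul_of_pos_left _ hpi
        linarith
    · rw [if_neg hq]
      push Not at hq
      have e1 : (k : ℝ) + 1 ≤ θ q := by exact_mod_cast hq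
      have e2 : (θ q : ℝ) ≤ k + M := by
        have : θ q ≤ k + M := by
          have := (hθ q).2
          omega
        exact_mod_cast this
      have : Real.sin (Real.pi * ((k : ℝ) - θ q + 1 / 2) / M) < 0 := by
        apply Real.sin_neg_of_neg_of_neg_pi_lt
        · apply div_neg_of_neg_of_pos _ hMr
          apply mul_neg_of_pos_of_neg hpi
          linarith
        · rw [lt_div_iff₀ hMr]
          have : -Real.pi * M = Real.pi * (-M) := by ring
          rw [this]
          apply mul_lt_mul_of_pos_left _ hpi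
          linarith
      linarith
  have hprod := Finset.prod_pos (s := Finset.univ) (fun q _ => key q)
  rw [Finset.prod_mul_distrib, Finset.prod_ite, Finset.prod_const_one, one_mul,
    Finset.prod_const] at hprod
  have hcard := Finset.card_filter_add_card_filter_not (s := (Finset.univ : Finset (Fin (2 * A))))
    (fun q => θ q ≤ k)
  rw [Finset.card_univ, Fintype.card_fin] at hcard
  have hpow : (-1 : ℝ) ^ (Finset.univ.filter fun q => θ q ≤ k).card =
      (-1) ^ (Finset.univ.filter fun q => ¬ θ q ≤ k).card := by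
    have e : (-1 : ℝ) ^ (Finset.univ.filter fun q => θ q ≤ k).card *
        (-1) ^ (Finset.univ.filter fun q => ¬ θ q ≤ k).card = 1 := by
      rw [← pow_add, hcard, pow_mul]
      norm_num
    rcases neg_one_pow_eq_or ℝ (Finset.univ.filter fun q => θ q ≤ k).card with h | h <;>
    rcases neg_one_pow_eq_or ℝ (Finset.univ.filter fun q => ¬ θ q ≤ k).card with h' | h' <;>
    rw [h, h'] at e ⊢ <;> norm_num at e
  rw [hpow]
  exact hprod

/-- the trigonometric product as a Laurent polynomial in the exponential -/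
private theorem four_laurent {M A : ℕ} (hM : 0 < M) (θ : Fin (2 * A) → ℤ) :
    ∃ c : ℕ → ℂ, ∀ k : ℤ,
      ((∏ q, Real.sin (Real.pi * ((k : ℝ) - θ q + 1 / 2) / M) : ℝ) : ℂ) =
      ∑ j ∈ range (2 * A + 1), c j *
        Complex.exp (2 * Real.pi * Complex.I * (((j : ℤ) - A : ℤ) : ℂ) * k / M) := by
  have hMc : (M : ℂ) ≠ 0 := by
    have : (M : ℕ) ≠ 0 := hM.ne'
    exact_mod_cast this
  let g : Fin (2 * A) → ℂ := fun q =>
    Complex.exp (Real.pi * Complex.I * (1 / 2 - θ q) / M)
  let P : Polynomial ℂ := ∏ q, (1 - Polynomial.C (g q ^ 2) * Polynomial.X)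
  have hPdeg : P.natDegree ≤ 2 * A := by
    refine (Polynomial.natDegree_prod_le _ _).trans ?_
    refine (Finset.sum_le_sum (g := fun _ => 1) fun q _ => ?_).trans (by simp)
    refine (Polynomial.natDegree_sub_le _ _).trans ?_
    refine max_le (by simp) ?_
    exact (Polynomial.natDegree_C_mul_le _ _).trans Polynomial.natDegree_X_le
  refine ⟨fun j => (∏ q, ((g q)⁻¹ * (Complex.I / 2))) * P.coeff j, fun k => ?_⟩
  set w : ℂ := Complex.exp (Real.pi * Complex.I * k / M) with hw
  have hw0 : w ≠ 0 := Complex.exp_ne_zero _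
  have hsin : ∀ q, ((Real.sin (Real.pi * ((k : ℝ) - θ q + 1 / 2) / M) : ℝ) : ℂ) =
      w⁻¹ * (((g q)⁻¹ * (Complex.I / 2)) * (1 - g q ^ 2 * w ^ 2)) := by
    intro q
    have hg0 : g q ≠ 0 := Complex.exp_ne_zero _
    have e1 : Complex.exp ((Real.pi * ((k : ℂ) - θ q + 1 / 2) / M) * Complex.I) = w * g q := by
      rw [hw, ← Complex.exp_add]
      congr 1
      ring
    have e2 : Complex.exp (-(Real.pi * ((k : ℂ) - θ q + 1 / 2) / M) * Complex.I) =
        w⁻¹ * (g q)⁻¹ := by
      rw [neg_mul, Complex.exp_neg, e1, mul_inv]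
    rw [Complex.ofReal_sin, Complex.sin]
    push_cast
    rw [e1, e2]
    field_simp
  rw [Complex.ofReal_prod, Finset.prod_congr rfl (fun q _ => hsin q), Finset.prod_mul_distrib,
    Finset.prod_mul_distrib, Finset.prod_const, Finset.card_univ, Fintype.card_fin]
  have hPw : ∏ q, (1 - g q ^ 2 * w ^ 2) = P.eval (w ^ 2) := by
    rw [Polynomial.eval_prod]
    refine Finset.prod_congr rfl fun q _ => ?_
    simp
  rw [hPw, Polynomial.eval_eq_sum_range' (lt_of_le_of_lt hPdeg (Nat.lt_succ_self _)),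
    Finset.mul_sum, Finset.mul_sum]
  refine Finset.sum_congr rfl fun j _ => ?_
  have hexp : Complex.exp (2 * Real.pi * Complex.I * (((j : ℤ) - A : ℤ) : ℂ) * k / M) =
      w⁻¹ ^ (2 * A) * (w ^ 2) ^ j := by
    have e : (2 * Real.pi * Complex.I * (((j : ℤ) - A : ℤ) : ℂ) * k / M : ℂ) =
        ((2 * A : ℕ) : ℂ) * (-(Real.pi * Complex.I * k / M)) +
        ((2 * j : ℕ) : ℂ) * (Real.pi * Complex.I * k / M) := by
      push_cast
      ring
    rw [e, Complex.exp_add, Complex.exp_nat_mul, Complex.exp_nat_mul, Complex.exp_neg, ← hw,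
      ← pow_mul]
  rw [hexp]
  ring

private theorem exp_periodic {M : ℕ} (hM : 0 < M) (t k : ℤ) :
    Complex.exp (2 * Real.pi * Complex.I * (t : ℂ) * ((k + M : ℤ) : ℂ) / M) =
      Complex.exp (2 * Real.pi * Complex.I * (t : ℂ) * (k : ℂ) / M) := by
  have hMc : (M : ℂ) ≠ 0 := by
    have : (M : ℕ) ≠ 0 := hM.ne'
    exact_mod_cast this
  have e : (2 * Real.pi * Complex.I * (t : ℂ) * ((k + M : ℤ) : ℂ) / M : ℂ) =
      2 * Real.pi * Complex.I * (t : ℂ) * (k : ℂ) / M + t * (2 * Real.pi * Complex.I) := by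
    push_cast
    field_simp
  rw [e, Complex.exp_add, Complex.exp_int_mul_two_pi_mul_I, mul_one]

/-- vanishing of all coefficients of index between `-A` and `A` -/
private theorem four_coeff {M : ℕ} {b : ℝ} {u : ℤ → ℝ} {A : ℕ}
    (hz : ∀ m, 1 ≤ m → m ≤ A → cc M b m u = 0) {t : ℤ} (h1 : -(A : ℤ) ≤ t) (h2 : t ≤ A) :
    ∑ k ∈ range M, (hh M b u k : ℂ) *
      Complex.exp (2 * Real.pi * Complex.I * (t : ℂ) * ((k : ℤ) : ℂ) / M) = 0 := by
  rcases lt_trichotomy t 0 with h | h | h
  · obtain ⟨m, hm⟩ := Int.eq_ofNat_of_zero_le (show 0 ≤ -t by omega)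
    have hmt : t = -(m : ℤ) := by
      have : (-t) = (m : ℤ) := hm
      omega
    have := hz m (by omega) (by omega)
    rw [cc] at this
    rw [← this]
    refine Finset.sum_congr rfl fun k _ => ?_
    rw [hmt]
    congr 2
    push_cast
    ring
  · rw [h]
    have : ∀ k ∈ range M, (hh M b u k : ℂ) *
      Complex.exp (2 * Real.pi * Complex.I * ((0 : ℤ) : ℂ) * ((k : ℤ) : ℂ) / M) =
        ((hh M b u k : ℝ) : ℂ) := by
      intro k _
      simp
    rw [Finset.sum_congr rfl this, ← Complex.ofReal_sum, hh_sum, Complex.ofReal_zero]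
  · obtain ⟨m, hm⟩ := Int.eq_ofNat_of_zero_le h.le
    have hmt : t = (m : ℤ) := hm
    have hh0 := hz m (by omega) (by omega)
    rw [cc] at hh0
    have := congrArg (starRingEnd ℂ) hh0
    rw [map_sum, map_zero] at this
    rw [← this]
    refine Finset.sum_congr rfl fun k _ => ?_
    rw [map_mul, Complex.conj_ofReal, ← Complex.exp_conj, hmt]
    congr 2
    simp only [map_neg, map_div₀, map_mul, Complex.conj_ofReal, Complex.conj_I, map_natCast,
      map_ofNat]
    push_cast
    ring

theorem four {M : ℕ} (hM : 0 < M) {b : ℝ} (hb : 0 ≤ b) {u : ℤ → ℝ}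
    (hper : ∀ k, u (k + M) = u k)
    (hP : ∃ k, b < u k) (hN : ∃ k, u k < -b) (A : ℕ)
    (hA : ¬ ∃ c, b < c ∧ Alt M c (A + 1) u) :
    ∃ m, 1 ≤ m ∧ m ≤ A ∧ cc M b m u ≠ 0 := by
  by_contra hcon
  push Not at hcon
  obtain ⟨α, hα⟩ := hP
  obtain ⟨ν, hν⟩ := hN
  have hsP : 0 < ∑ k ∈ range M, phiP b u k :=
    four_pos hM (fun k => by unfold phiP; rw [hper]) (phiP_nonneg b u)
      (show 0 < phiP b u α from lt_max_of_lt_left (by linarith))
  have hsM : 0 < ∑ k ∈ range M, phiM b u k :=
    four_pos hM (fun k => by unfold phiM; rw [hper]) (phiM_nonneg b u)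
      (show 0 < phiM b u ν from lt_max_of_lt_left (by linarith))
  have hpos := hh_pos_iff (M := M) hb hsP hsM
  have hneg := hh_neg_iff (M := M) hb hsP hsM
  have hno : ¬ ∃ e : ℕ → ℤ, α ≤ e 0 ∧ (∀ l < 2 * A, e l < e (l + 1)) ∧ e (2 * A) < α + M ∧
      ∀ l ≤ 2 * A, 0 < -1 * (-1) ^ l * hh M b u (e l) := by
    rintro ⟨e, he0, hinc, hlast, hs⟩
    apply hA
    let e' : ℕ → ℤ := fun l => Nat.casesOn l α e
    have he'0 : e' 0 = α := rfl
    have he's : ∀ l, e' (l + 1) = e l := fun l => rfl
    have hval : ∀ l < 2 * (A + 1), b < (-1) ^ l * u (e' l) := by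
      intro l hl
      rcases l with _ | l
      · rw [he'0, pow_zero, one_mul]
        exact hα
      · rw [he's]
        have h1 := hs l (by omega)
        have h2 : 0 < (-1) ^ (l + 1) * hh M b u (e l) := by
          rw [pow_succ]
          linarith
        rcases neg_one_pow_eq_or ℝ (l + 1) with h | h
        · rw [h, one_mul] at h2 ⊢
          exact (hpos _).1 h2
        · rw [h] at h2 ⊢
          have := (hneg (e l)).1 (by linarith)
          linarith
    have hne : (range (2 * (A + 1))).Nonempty := ⟨0, mem_range.2 (by omega)⟩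
    refine ⟨(range (2 * (A + 1))).inf' hne (fun l => (-1) ^ l * u (e' l)), ?_, e', ?_, ?_, ?_⟩
    · rw [Finset.lt_inf'_iff]
      intro l hl
      exact hval l (mem_range.1 hl)
    · intro l hl
      rcases l with _ | l
      · rw [he'0, he's]
        rcases he0.lt_or_eq with h | h
        · exact h
        · exfalso
          have h1 := hs 0 (by omega)
          rw [← h] at h1
          have h2 := (hpos α).2 hα
          rw [pow_zero] at h1
          linarith
      · rw [he's, he's]
        exact hinc l (by omega)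
    · have : 2 * (A + 1) - 1 = 2 * A + 1 := by omega
      rw [this, he's, he'0]
      exact hlast
    · intro l hl
      exact Finset.inf'_le _ (mem_range.2 hl)
  obtain ⟨θ, hθ, hsign⟩ := sign_structure (hh M b u) (2 * A) α (α + M) (by omega) 1 (Or.inl rfl)
    hno
  set T : ℤ → ℝ := fun k => ∏ q, Real.sin (Real.pi * ((k : ℝ) - θ q + 1 / 2) / M) with hT
  have hTs : ∀ k, α ≤ k → k < α + M →
      0 < (-1 : ℝ) ^ (Finset.univ.filter fun q => θ q ≤ k).card * T k := fun k h1 h2 =>
    four_sign hM hθ h1 h2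
  have hnn : ∀ k, α ≤ k → k < α + M → 0 ≤ hh M b u k * T k := by
    intro k h1 h2
    have a1 := hTs k h1 h2
    have a2 := hsign k h1 h2
    rw [one_mul] at a2
    have a3 := mul_nonneg a2 a1.le
    have a4 : (-1 : ℝ) ^ (Finset.univ.filter fun q => θ q ≤ k).card *
        (-1 : ℝ) ^ (Finset.univ.filter fun q => θ q ≤ k).card = 1 := by
      rw [← mul_pow]
      norm_num
    calc (0 : ℝ) ≤ _ := a3
      _ = ((-1 : ℝ) ^ (Finset.univ.filter fun q => θ q ≤ k).card *
        (-1 : ℝ) ^ (Finset.univ.filter fun q => θ q ≤ k).card) * (hh M b u k * T k) := by ring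
      _ = _ := by rw [a4, one_mul]
  have hS : 0 < ∑ i ∈ range M, hh M b u (α + i) * T (α + i) := by
    refine Finset.sum_pos' (fun i hi => hnn _ (by omega) ?_) ⟨0, mem_range.2 hM, ?_⟩
    · have := mem_range.1 hi
      omega
    · have e0 : α + ((0 : ℕ) : ℤ) = α := by simp
      rw [e0]
      have h1 := hnn α le_rfl (by omega)
      have h2 := hTs α le_rfl (by omega)
      have h3 : T α ≠ 0 := by
        intro h
        rw [h, mul_zero] at h2
        exact lt_irrefl _ h2
      exact lt_of_le_of_ne h1 (mul_ne_zero ((hpos α).2 hα).ne' h3).symm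
  obtain ⟨c, hc⟩ := four_laurent hM θ
  have hzero : ((∑ i ∈ range M, hh M b u (α + i) * T (α + i) : ℝ) : ℂ) = 0 := by
    push_cast
    have e1 : ∀ i ∈ range M, (hh M b u (α + i) : ℂ) * (T (α + i) : ℂ) =
        ∑ j ∈ range (2 * A + 1), c j * ((hh M b u (α + i) : ℂ) *
        Complex.exp (2 * Real.pi * Complex.I * (((j : ℤ) - A : ℤ) : ℂ) *
          ((α + i : ℤ) : ℂ) / M)) := by
      intro i _
      rw [hT]
      simp only
      rw [hc, Finset.mul_sum]
      refine Finset.sum_congr rfl fun j _ => ?_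
      ring
    rw [Finset.sum_congr rfl e1, Finset.sum_comm]
    refine Finset.sum_eq_zero fun j hj => ?_
    rw [← Finset.mul_sum]
    have hj' := mem_range.1 hj
    have e2 := four_window (M := M) (f := fun k : ℤ => (hh M b u k : ℂ) *
        Complex.exp (2 * Real.pi * Complex.I * (((j : ℤ) - A : ℤ) : ℂ) * (k : ℂ) / M))
      (fun k => by rw [hh_periodic hper, exp_periodic hM]) α
    have e3 := four_coeff (M := M) (b := b) (u := u) hcon (t := (j : ℤ) - A) (by omega) (by omega)
    rw [e3] at e2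
    rw [e2, mul_zero]
  have := Complex.ofReal_eq_zero.1 hzero
  rw [this] at hS
  exact lt_irrefl _ hS

theorem cc_shift {p N : ℕ} [NeZero p] (hN : 0 < N) {b : ℝ} {u : ℤ → ℝ}
    (hper : ∀ k, u (k + (p * N : ℕ)) = u k) (m : ℕ) :
    cc (p * N) b m (fun k => u (k + N)) =
      ZMod.stdAddChar ((m : ℕ) : ZMod p) * cc (p * N) b m u := by
  have hp : 0 < p := Nat.pos_of_ne_zero (NeZero.ne p)
  have hM : 0 < p * N := Nat.mul_pos hp hN
  have hpc : (p : ℂ) ≠ 0 := by exact_mod_cast hp.ne'
  have hNc : (N : ℂ) ≠ 0 := by exact_mod_cast hN.ne'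
  have hhs : ∀ k, hh (p * N) b (fun k => u (k + N)) k = hh (p * N) b u (N + k) := by
    intro k
    have w1 := four_window (M := p * N) (f := phiM b u)
      (fun k => by unfold phiM; rw [hper]) (N : ℤ)
    have w2 := four_window (M := p * N) (f := phiP b u)
      (fun k => by unfold phiP; rw [hper]) (N : ℤ)
    have v1 : ∀ k : ℤ, phiM b (fun k => u (k + N)) k = phiM b u (N + k) := by
      intro k
      unfold phiM
      rw [add_comm]
    have v2 : ∀ k : ℤ, phiP b (fun k => u (k + N)) k = phiP b u (N + k) := by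
      intro k
      unfold phiP
      rw [add_comm]
    unfold hh
    simp only [v1, v2]
    rw [w1, w2]
  have hchar : (ZMod.stdAddChar ((m : ℕ) : ZMod p) : ℂ) =
      Complex.exp (2 * Real.pi * Complex.I * m / p) := by
    have := ZMod.stdAddChar_coe (N := p) (m : ℤ)
    push_cast at this
    exact this
  have w3 := four_window (M := p * N) (f := fun k : ℤ => (hh (p * N) b u k : ℂ) *
      Complex.exp (2 * Real.pi * Complex.I * ((-(m : ℤ) : ℤ) : ℂ) * (k : ℂ) / ((p * N : ℕ) : ℂ)))
    (fun k => by rw [hh_periodic hper, exp_periodic hM]) (N : ℤ)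
  have e0 : cc (p * N) b m u = ∑ i ∈ range (p * N), (hh (p * N) b u (i : ℤ) : ℂ) *
      Complex.exp (2 * Real.pi * Complex.I * ((-(m : ℤ) : ℤ) : ℂ) * ((i : ℤ) : ℂ) /
        ((p * N : ℕ) : ℂ)) := by
    unfold cc
    refine Finset.sum_congr rfl fun k _ => ?_
    congr 2
    push_cast
    ring
  rw [e0, ← w3, hchar, Finset.mul_sum]
  unfold cc
  refine Finset.sum_congr rfl fun k _ => ?_
  rw [hhs]
  have e4 : Complex.exp (-(2 * Real.pi * Complex.I * m * k / ((p * N : ℕ) : ℂ))) =
      Complex.exp (2 * Real.pi * Complex.I * m / p) *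
      Complex.exp (2 * Real.pi * Complex.I * ((-(m : ℤ) : ℤ) : ℂ) * (((N : ℤ) + (k : ℤ) : ℤ) : ℂ) /
        ((p * N : ℕ) : ℂ)) := by
    rw [← Complex.exp_add]
    congr 1
    push_cast
    field_simp
    ring
  rw [e4]
  ring

theorem cc_continuousOn {X : Type*} [TopologicalSpace X] {S : Set X} {M : ℕ} {b : ℝ} {m : ℕ}
    {u : X → ℤ → ℝ} (hc : ∀ k, ContinuousOn (fun x => u x k) S) :
    ContinuousOn (fun x => cc M b m (u x)) S := by
  have h1 : ∀ k, ContinuousOn (fun x => phiP b (u x) k) S := by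
    intro k
    unfold phiP
    exact ((hc k).sub continuousOn_const).sup continuousOn_const
  have h2 : ∀ k, ContinuousOn (fun x => phiM b (u x) k) S := by
    intro k
    unfold phiM
    exact ((hc k).neg.sub continuousOn_const).sup continuousOn_const
  unfold cc
  refine continuousOn_finsetSum _ fun k _ => ?_
  refine ContinuousOn.mul ?_ continuousOn_const
  refine Complex.continuous_ofReal.comp_continuousOn ?_
  unfold hh
  refine ContinuousOn.sub (ContinuousOn.mul ?_ (h1 k)) (ContinuousOn.mul ?_ (h2 k))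
  · exact continuousOn_finsetSum _ fun i _ => h2 i
  · exact continuousOn_finsetSum _ fun i _ => h1 i

/-- untouched functions have vanishing coefficients -/
theorem cc_eq_zero_of_le {M : ℕ} {b : ℝ} {m : ℕ} {u : ℤ → ℝ} (hu : ∀ k, |u k| ≤ b) :
    cc M b m u = 0 := by
  have h1 : ∀ k, phiP b u k = 0 := fun k =>
    max_eq_right (by have := (abs_le.1 (hu k)).2; linarith)
  have h2 : ∀ k, phiM b u k = 0 := fun k =>
    max_eq_right (by have := (abs_le.1 (hu k)).1; linarith)
  unfold cc
  refine Finset.sum_eq_zero fun k _ => ?_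
  unfold hh
  simp [h1, h2]

end Pool.Agent.CubeE
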