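import Pool.Agent.CubeE.Loop
import Pool.Agent.CubeE.Four
import Pool.Agent.CubeE.Bal

/-!
# MP_c0b923_gt, package Fun: the functionals of Theorem T

`wt m` is the inverse of `m` modulo `p`, as a natural number. `bt b m i x` is the depth of the `m`-fold
cyclic alternation of the coordinate `i` of the closed chain, times the `wt m`-th power of the
`m`-th Fourier coefficient: a functional of weight one. `fam2` is the corresponding power of the
Fourier coefficient of the vertices `f (x l)`.

PROOFS. `YY f N a (shift x) k = YY f N a x (k + N)` (`YY_shift`). `bt_shift`: `bet_shift`, `cc_shift`, and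
`(χ m * z) ^ (wt m) = χ (wt m * m) * z ^ (wt m)`, `wt m * m = 1` in `ZMod p` as `1 ≤ m < p`
(`AddChar.map_nsmul_eq_pow`, `ZMod.natCast_zmod_val`). `fam2_shift`: substitute `l ↦ l - 1` in the sum
(`Equiv.sum_comp`). Continuity: `YY_continuousOn`, `bet_continuousOn` (periodicity `YY_periodic`, bound
`YY_abs`), `cc_continuousOn`; in `fam2`: `f` is continuous on the cube, and `x l` is in the cube for
`x ∈ closure UU` (`YY_vertex`, `a < 1`); the coordinate map is continuous.
-/

set_option autoImplicit false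

open Finset

namespace Pool.Agent.CubeE

open Pool.Agent.Expand

variable {n p : ℕ}

/-- inverse modulo `p` -/
def wt (p m : ℕ) : ℕ := ((m : ZMod p)⁻¹).val

/-- coordinate `i` of the closed chain -/
noncomputable def uu (f : EuclideanSpace ℝ (Fin n) → EuclideanSpace ℝ (Fin n)) (N : ℕ) (a : ℝ)
    (x : ZMod p → EuclideanSpace ℝ (Fin n)) (i : Fin n) (k : ℤ) : ℝ := YY f N a x k i

/-- functional of weight one -/
noncomputable def bt (f : EuclideanSpace ℝ (Fin n) → EuclideanSpace ℝ (Fin n)) (N : ℕ)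
    (a b : ℝ) (m : ℕ) (i : Fin n) (x : ZMod p → EuclideanSpace ℝ (Fin n)) : ℂ :=
  (bet (p * N) b m (uu f N a x i) : ℂ) * cc (p * N) b m (uu f N a x i) ^ wt p m

/-- Fourier coefficients of the vertices -/
noncomputable def fam2 [NeZero p] (f : EuclideanSpace ℝ (Fin n) → EuclideanSpace ℝ (Fin n))
    (m : ℕ) (i : Fin n) (x : ZMod p → EuclideanSpace ℝ (Fin n)) : ℂ :=
  (∑ l : ZMod p, ((f (x l) i : ℝ) : ℂ) * ZMod.stdAddChar (-((m : ZMod p) * l))) ^ wt p m

section

variable {f : EuclideanSpace ℝ (Fin n) → EuclideanSpace ℝ (Fin n)} {N : ℕ} {a δ r : ℝ}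
  {q : EuclideanSpace ℝ (Fin n)}

private theorem Fun_uu_shift (H : Hyp f N a δ r q) (x : ZMod p → EuclideanSpace ℝ (Fin n))
    (i : Fin n) : uu f N a (shift x) i = fun k => uu f N a x i (k + (N : ℤ)) := by
  funext k
  unfold uu
  rw [YY_shift H]

private theorem Fun_uu_per (H : Hyp f N a δ r q) (x : ZMod p → EuclideanSpace ℝ (Fin n))
    (i : Fin n) (k : ℤ) : uu f N a x i (k + ((p * N : ℕ) : ℤ)) = uu f N a x i k := by
  unfold uu
  rw [YY_periodic H]

private theorem Fun_wt [Fact p.Prime] {m : ℕ} (hm : 1 ≤ m) (hmp : m < p) :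
    (ZMod.stdAddChar ((m : ℕ) : ZMod p) : ℂ) ^ wt p m = ZMod.stdAddChar (1 : ZMod p) := by
  rw [← AddChar.map_nsmul_eq_pow]
  congr 1
  have hne : ((m : ℕ) : ZMod p) ≠ 0 := by
    intro h
    rw [ZMod.natCast_eq_zero_iff] at h
    exact absurd (Nat.le_of_dvd (by omega) h) (by omega)
  rw [nsmul_eq_mul]
  unfold wt
  rw [ZMod.natCast_zmod_val]
  exact inv_mul_cancel₀ hne

private theorem Fun_coord (i : Fin n) :
    Continuous fun y : EuclideanSpace ℝ (Fin n) => y i :=
  (EuclideanSpace.proj (𝕜 := ℝ) i).continuous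

private theorem Fun_uu_cont [Fact p.Prime] (H : Hyp f N a δ r q) (i : Fin n) (k : ℤ) :
    ContinuousOn (fun x : ZMod p → EuclideanSpace ℝ (Fin n) => uu f N a x i k)
      (closure (UU p f N a)) :=
  (Fun_coord i).comp_continuousOn (YY_continuousOn H k)

private theorem Fun_pos [Fact p.Prime] (H : Hyp f N a δ r q) : 0 < p * N :=
  Nat.mul_pos (Fact.out : p.Prime).pos H.hN0

theorem bt_shift [Fact p.Prime] (H : Hyp f N a δ r q) (b : ℝ) {m : ℕ} (hm : 1 ≤ m)
    (hmp : m < p) (i : Fin n) (x : ZMod p → EuclideanSpace ℝ (Fin n)) :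
    bt f N a b m i (shift x) = ZMod.stdAddChar (1 : ZMod p) * bt f N a b m i x := by
  unfold bt
  rw [Fun_uu_shift H, bet_shift (uu f N a x i) (N : ℤ),
    cc_shift H.hN0 (fun k => Fun_uu_per H x i k) m, mul_pow, Fun_wt hm hmp]
  ring

theorem bt_continuousOn [Fact p.Prime] (H : Hyp f N a δ r q) (b : ℝ) {m : ℕ} (hm : 1 ≤ m)
    (i : Fin n) :
    ContinuousOn (fun x : ZMod p → EuclideanSpace ℝ (Fin n) => bt f N a b m i x)
      (closure (UU p f N a)) := by
  unfold bt
  refine ContinuousOn.mul ?_ (ContinuousOn.pow ?_ _)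
  · refine Complex.continuous_ofReal.comp_continuousOn ?_
    exact bet_continuousOn (Fun_pos H) (K := a) hm (fun x hx k => YY_abs H hx k i)
      (fun x _ k => Fun_uu_per H x i k) (fun k => Fun_uu_cont H i k)
  · exact cc_continuousOn fun k => Fun_uu_cont H i k

theorem fam2_shift [Fact p.Prime] (f : EuclideanSpace ℝ (Fin n) → EuclideanSpace ℝ (Fin n))
    {m : ℕ} (hm : 1 ≤ m) (hmp : m < p) (i : Fin n) (x : ZMod p → EuclideanSpace ℝ (Fin n)) :
    fam2 f m i (shift x) = ZMod.stdAddChar (1 : ZMod p) * fam2 f m i x := by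
  unfold fam2
  rw [← Fun_wt hm hmp, ← mul_pow]
  congr 1
  rw [Finset.mul_sum]
  refine Fintype.sum_equiv (Equiv.addRight (1 : ZMod p)) _ _ fun l => ?_
  have e : -((m : ZMod p) * l) = (m : ZMod p) + -((m : ZMod p) * (l + 1)) := by ring
  rw [Equiv.coe_addRight, e, AddChar.map_add_eq_mul]
  unfold shift
  ring

theorem fam2_continuousOn [Fact p.Prime] (H : Hyp f N a δ r q) (m : ℕ) (i : Fin n) :
    ContinuousOn (fun x : ZMod p → EuclideanSpace ℝ (Fin n) => fam2 f m i x)
      (closure (UU p f N a)) := by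
  unfold fam2
  refine ContinuousOn.pow ?_ _
  refine continuousOn_finsetSum _ fun l _ => ?_
  refine ContinuousOn.mul ?_ continuousOn_const
  refine Complex.continuous_ofReal.comp_continuousOn ?_
  refine (Fun_coord i).comp_continuousOn ?_
  refine H.hf.comp (continuous_apply l).continuousOn fun x hx => ?_
  intro j
  exact (YY_vertex H hx l j).trans H.ha1.le

theorem uu_bal_shift [Fact p.Prime] (H : Hyp f N a δ r q)
    (x : ZMod p → EuclideanSpace ℝ (Fin n)) (i : Fin n) :
    bal (p * N) (uu f N a (shift x) i) = bal (p * N) (uu f N a x i) := by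
  rw [Fun_uu_shift H]
  exact bal_shift (Fun_pos H) (fun k => Fun_uu_per H x i k) (N : ℤ)

theorem uu_bal_continuousOn [Fact p.Prime] (H : Hyp f N a δ r q) :
    ContinuousOn (fun (x : ZMod p → EuclideanSpace ℝ (Fin n)) (i : Fin n) =>
      bal (p * N) (uu f N a x i)) (closure (UU p f N a)) := by
  refine continuousOn_pi.2 fun i => ?_
  exact bal_continuousOn (Fun_pos H) fun k => Fun_uu_cont H i k

theorem uu_bal_const [Fact p.Prime] (H : Hyp f N a δ r q) (c : EuclideanSpace ℝ (Fin n))
    (hc : (fun _ => c) ∈ closure (UU p f N a)) (i : Fin n) :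
    bal (p * N) (uu f N a (fun _ : ZMod p => c) i) = c i := by
  refine bal_const (Fun_pos H) fun k => ?_
  unfold uu
  rw [YY_const H c hc k]

end

end Pool.Agent.CubeE
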