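import Pool.Agent.CubeE.Lab

/-!
# MP_c0b923_gt, package Kuhn: Kuhn simplices and the boundary lemma

A simplex of the Kuhn (Freudenthal) triangulation of `ℝ^ι`, `|ι| = d + 1`, is a pair `(z, π)` with
`z : ι → ℤ` and `π : Fin (d + 1) ≃ ι`; its vertices are `v_j = z + 1[π⁻¹ i < j]`, `j ≤ d + 1`.

PROOF of `boundary`. Neighbour of `(z, π)` through the facet `j` (the facet omits `v_j`):
* `0 < j < d + 1`: `(z, (swap (j - 1) j).trans π)`, facet `j`;
* `j = 0`: `(z + e_{π 0}, (finRotate (d + 1)).trans π)`, facet `d + 1`;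
* `j = d + 1`: `(z - e_{π (last d)}, (finRotate (d + 1)).symm.trans π)`, facet `0`.
This map on triples `(z, π, j)` is an involution without fixed points, the ordered facet
`vtx s ∘ j.succAbove` is the same, and `sg π * (-1)^j` changes its sign (`sign_finRotate`:
`(-1)^d`). Insert `hlab_expand k`, and apply `Finset.sum_involution` to the finite set of triples
`(s, j)` with `s ∈ C` and `Hlab k (lam ∘ vtx s ∘ j.succAbove) ≠ 0`: by `hC` the neighbour of
such a triple is again in `C`.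
-/

set_option autoImplicit false

open Finset

namespace Pool.Agent.CubeE

variable {ι : Type} {d : ℕ}

/-- vertices of a Kuhn simplex -/
def vtx (s : (ι → ℤ) × (Fin (d + 1) ≃ ι)) (j : Fin (d + 2)) : ι → ℤ :=
  fun i => s.1 i + if (s.2.symm i : ℕ) < (j : ℕ) then 1 else 0

/-- the sign of the ordering `π`, relative to the reference ordering `e` -/
def sg (e π : Fin (d + 1) ≃ ι) : ℤ := (Equiv.Perm.sign (π.trans e.symm) : ℤ)

open Classical in
/-- the neighbour of a Kuhn simplex through a facet -/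
private noncomputable def kuhnNb (t : ((ι → ℤ) × (Fin (d + 1) ≃ ι)) × Fin (d + 2)) :
    ((ι → ℤ) × (Fin (d + 1) ≃ ι)) × Fin (d + 2) :=
  if t.2 = 0 then
    ((t.1.1 + Pi.single (t.1.2 0) 1, (finRotate (d + 1)).trans t.1.2), Fin.last (d + 1))
  else if t.2 = Fin.last (d + 1) then
    ((t.1.1 - Pi.single (t.1.2 (Fin.last d)) 1, (finRotate (d + 1)).symm.trans t.1.2), 0)
  else ((t.1.1, (Equiv.swap (Fin.ofNat (d + 1) ((t.2 : ℕ) - 1)) (Fin.ofNat (d + 1) (t.2 : ℕ))).trans
    t.1.2), t.2)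

open Classical in
private theorem kuhnNb_zero (z : ι → ℤ) (π : Fin (d + 1) ≃ ι) :
    kuhnNb ((z, π), (0 : Fin (d + 2))) =
      ((z + Pi.single (π 0) 1, (finRotate (d + 1)).trans π), Fin.last (d + 1)) := by
  unfold kuhnNb
  rw [if_pos rfl]

open Classical in
private theorem kuhnNb_last (z : ι → ℤ) (π : Fin (d + 1) ≃ ι) :
    kuhnNb ((z, π), Fin.last (d + 1)) =
      ((z - Pi.single (π (Fin.last d)) 1, (finRotate (d + 1)).symm.trans π), 0) := by
  unfold kuhnNb
  rw [if_neg (Fin.last_pos).ne', if_pos rfl]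

private theorem kuhnNb_mid (z : ι → ℤ) (π : Fin (d + 1) ≃ ι) (j : Fin (d + 2)) (h0 : j ≠ 0)
    (h1 : j ≠ Fin.last (d + 1)) :
    kuhnNb ((z, π), j) = ((z, (Equiv.swap (Fin.ofNat (d + 1) ((j : ℕ) - 1))
      (Fin.ofNat (d + 1) (j : ℕ))).trans π), j) := by
  unfold kuhnNb
  rw [if_neg h0, if_neg h1]

private theorem kuhn_rot_cases (l : Fin (d + 1)) :
    (l = Fin.last d ∧ finRotate (d + 1) l = 0) ∨
      (l ≠ Fin.last d ∧ ((finRotate (d + 1) l : Fin (d + 1)) : ℕ) = l + 1) := by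
  by_cases h : l = Fin.last d
  · left
    refine ⟨h, ?_⟩
    rw [h, finRotate_last]
  · right
    exact ⟨h, coe_finRotate_of_ne_last h⟩

private theorem kuhnNb_invol (t : ((ι → ℤ) × (Fin (d + 1) ≃ ι)) × Fin (d + 2)) :
    kuhnNb (kuhnNb t) = t := by
  classical
  obtain ⟨⟨z, π⟩, j⟩ := t
  by_cases h0 : j = 0
  · subst h0
    rw [kuhnNb_zero, kuhnNb_last]
    refine Prod.ext (Prod.ext ?_ ?_) rfl
    · have h : ((finRotate (d + 1)).trans π) (Fin.last d) = π 0 := by
        rw [Equiv.trans_apply, finRotate_last]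
      rw [h]
      exact add_sub_cancel_right _ _
    · ext i
      simp
  · by_cases h1 : j = Fin.last (d + 1)
    · subst h1
      rw [kuhnNb_last, kuhnNb_zero]
      refine Prod.ext (Prod.ext ?_ ?_) rfl
      · have h : ((finRotate (d + 1)).symm.trans π) 0 = π (Fin.last d) := by
          rw [Equiv.trans_apply]
          exact congrArg π ((Equiv.symm_apply_eq _).2 finRotate_last.symm)
        rw [h]
        exact sub_add_cancel _ _
      · ext i
        simp
    · rw [kuhnNb_mid z π j h0 h1, kuhnNb_mid _ _ j h0 h1]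
      refine Prod.ext (Prod.ext rfl ?_) rfl
      ext i
      simp

private theorem kuhn_sg_trans (e π : Fin (d + 1) ≃ ι) (ρ : Equiv.Perm (Fin (d + 1))) :
    sg e (ρ.trans π) = (Equiv.Perm.sign ρ : ℤ) * sg e π := by
  unfold sg
  have h : (ρ.trans π).trans e.symm = (π.trans e.symm : Equiv.Perm (Fin (d + 1))) * ρ := by
    ext i
    rfl
  rw [h, Equiv.Perm.sign_mul, Units.val_mul, mul_comm]

private theorem kuhnNb_sign (e : Fin (d + 1) ≃ ι)
    (t : ((ι → ℤ) × (Fin (d + 1) ≃ ι)) × Fin (d + 2)) :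
    sg e (kuhnNb t).1.2 * (-1) ^ ((kuhnNb t).2 : ℕ) = -(sg e t.1.2 * (-1) ^ (t.2 : ℕ)) := by
  classical
  obtain ⟨⟨z, π⟩, j⟩ := t
  by_cases h0 : j = 0
  · subst h0
    rw [kuhnNb_zero]
    simp only [kuhn_sg_trans, sign_finRotate, Fin.val_last, Fin.val_zero, pow_zero, mul_one]
    push_cast
    have h : ((-1 : ℤ) ^ d) * ((-1 : ℤ) ^ d) = 1 := by
      rw [← mul_pow]
      norm_num
    rw [pow_succ]
    linear_combination (-(sg e π)) * h
  · by_cases h1 : j = Fin.last (d + 1)
    · subst h1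
      rw [kuhnNb_last]
      simp only [kuhn_sg_trans, Equiv.Perm.sign_symm, sign_finRotate, Fin.val_last, Fin.val_zero,
        pow_zero, mul_one]
      push_cast
      rw [pow_succ]
      ring
    · rw [kuhnNb_mid z π j h0 h1]
      have hj0 : (j : ℕ) ≠ 0 := fun h => h0 (Fin.ext h)
      have hj1 : (j : ℕ) < d + 1 := by
        have := j.isLt
        have h : (j : ℕ) ≠ d + 1 := fun h => h1 (Fin.ext h)
        omega
      have hne : Fin.ofNat (d + 1) ((j : ℕ) - 1) ≠ Fin.ofNat (d + 1) (j : ℕ) := by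
        intro h
        have h' := congrArg Fin.val h
        simp only [Fin.ofNat] at h'
        rw [Nat.mod_eq_of_lt (by omega), Nat.mod_eq_of_lt hj1] at h'
        omega
      simp only [kuhn_sg_trans, Equiv.Perm.sign_swap hne]
      push_cast
      ring

private theorem kuhnNb_face (t : ((ι → ℤ) × (Fin (d + 1) ≃ ι)) × Fin (d + 2)) :
    vtx (kuhnNb t).1 ∘ (kuhnNb t).2.succAbove = vtx t.1 ∘ t.2.succAbove := by
  classical
  obtain ⟨⟨z, π⟩, j⟩ := t
  by_cases h0 : j = 0
  · subst h0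
    rw [kuhnNb_zero]
    funext i
    simp only [Function.comp_apply, Fin.succAbove_last, Fin.succAbove_zero]
    funext x
    obtain ⟨m, rfl⟩ := π.surjective x
    obtain ⟨l, rfl⟩ := (finRotate (d + 1)).surjective m
    simp only [vtx, Pi.add_apply, Equiv.symm_trans_apply, Equiv.symm_apply_apply, Fin.val_castSucc,
      Fin.val_succ]
    rcases kuhn_rot_cases l with ⟨h1, h2⟩ | ⟨h1, h2⟩
    · rw [h2, h1, Pi.single_eq_same, if_neg (by rw [Fin.val_last]; omega), if_pos (by simp)]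
      ring
    · have h3 : finRotate (d + 1) l ≠ 0 := by
        intro h
        rw [h] at h2
        simp at h2
      rw [Pi.single_eq_of_ne (fun h => h3 (π.injective h)), h2]
      simp only [add_zero, Nat.add_lt_add_iff_right]
  · by_cases h1 : j = Fin.last (d + 1)
    · subst h1
      rw [kuhnNb_last]
      funext i
      simp only [Function.comp_apply, Fin.succAbove_last, Fin.succAbove_zero]
      funext x
      obtain ⟨m, rfl⟩ := π.surjective x
      simp only [vtx, Pi.sub_apply, Equiv.symm_trans_apply, Equiv.symm_apply_apply,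
        Fin.val_castSucc, Fin.val_succ, Equiv.symm_symm]
      rcases kuhn_rot_cases m with ⟨h1, h2⟩ | ⟨h1, h2⟩
      · rw [h2, h1, Pi.single_eq_same, if_pos (by simp), if_neg (by rw [Fin.val_last]; omega)]
        ring
      · rw [Pi.single_eq_of_ne (fun h => h1 (π.injective h)), h2]
        simp only [sub_zero, Nat.add_lt_add_iff_right]
    · rw [kuhnNb_mid z π j h0 h1]
      have hj0 : (j : ℕ) ≠ 0 := fun h => h0 (Fin.ext h)
      have hj1 : (j : ℕ) < d + 1 := by
        have := j.isLt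
        have h : (j : ℕ) ≠ d + 1 := fun h => h1 (Fin.ext h)
        omega
      have ha : ((Fin.ofNat (d + 1) ((j : ℕ) - 1) : Fin (d + 1)) : ℕ) = (j : ℕ) - 1 := by
        simp only [Fin.ofNat]
        exact Nat.mod_eq_of_lt (by omega)
      have hb : ((Fin.ofNat (d + 1) (j : ℕ) : Fin (d + 1)) : ℕ) = (j : ℕ) := by
        simp only [Fin.ofNat]
        exact Nat.mod_eq_of_lt hj1
      funext i
      simp only [Function.comp_apply]
      have hq : j.succAbove i ≠ j := Fin.succAbove_ne j i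
      generalize j.succAbove i = q at hq
      have hq' : (q : ℕ) ≠ (j : ℕ) := fun h => hq (Fin.ext h)
      funext x
      obtain ⟨m, rfl⟩ := π.surjective x
      simp only [vtx, Equiv.symm_trans_apply, Equiv.symm_apply_apply, Equiv.symm_swap]
      congr 1
      generalize Fin.ofNat (d + 1) ((j : ℕ) - 1) = a at ha
      generalize Fin.ofNat (d + 1) (j : ℕ) = b at hb
      have key : ((Equiv.swap a b m : Fin (d + 1)) : ℕ) < (q : ℕ) ↔ (m : ℕ) < (q : ℕ) := by
        by_cases hma : m = a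
        · rw [hma, Equiv.swap_apply_left]
          omega
        · by_cases hmb : m = b
          · rw [hmb, Equiv.swap_apply_right]
            omega
          · rw [Equiv.swap_apply_of_ne_of_ne hma hmb]
      simp only [key]

theorem boundary (e : Fin (d + 1) ≃ ι) (k : Fin (d + 2)) (lam : (ι → ℤ) → Fin (d + 2))
    (C : Finset ((ι → ℤ) × (Fin (d + 1) ≃ ι)))
    (hC : ∀ s ∈ C, ∀ j : Fin (d + 2), ∀ s' ∉ C, ∀ j' : Fin (d + 2),
      (vtx s' ∘ j'.succAbove = vtx s ∘ j.succAbove) →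
      Hlab k (lam ∘ vtx s ∘ j.succAbove) = 0) :
    ∑ s ∈ C, sg e s.2 * hlab (lam ∘ vtx s) = 0 := by
  classical
  have h1 : ∑ s ∈ C, sg e s.2 * hlab (lam ∘ vtx s) =
      ∑ t ∈ C ×ˢ (univ : Finset (Fin (d + 2))), (-1) ^ (k : ℕ) * (sg e t.1.2 * (-1) ^ (t.2 : ℕ)) *
        Hlab k (lam ∘ vtx t.1 ∘ t.2.succAbove) := by
    rw [Finset.sum_product]
    refine Finset.sum_congr rfl fun s _ => ?_
    rw [hlab_expand k, Finset.mul_sum]
    refine Finset.sum_congr rfl fun j _ => ?_
    rw [pow_add]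
    have h2 : (lam ∘ vtx s) ∘ j.succAbove = lam ∘ vtx s ∘ j.succAbove := rfl
    rw [h2]
    ring
  rw [h1, ← Finset.sum_filter_ne_zero]
  have hH : ∀ t ∈ (C ×ˢ (univ : Finset (Fin (d + 2)))).filter
      (fun t => (-1) ^ (k : ℕ) * (sg e t.1.2 * (-1) ^ (t.2 : ℕ)) *
        Hlab k (lam ∘ vtx t.1 ∘ t.2.succAbove) ≠ 0),
      Hlab k (lam ∘ vtx t.1 ∘ t.2.succAbove) ≠ 0 := by
    intro t ht h
    rw [Finset.mem_filter, h, mul_zero] at ht
    exact ht.2 rfl
  have hface : ∀ t : ((ι → ℤ) × (Fin (d + 1) ≃ ι)) × Fin (d + 2),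
      Hlab k (lam ∘ vtx (kuhnNb t).1 ∘ (kuhnNb t).2.succAbove) =
        Hlab k (lam ∘ vtx t.1 ∘ t.2.succAbove) := fun t => by rw [kuhnNb_face t]
  refine Finset.sum_involution (fun t _ => kuhnNb t) ?_ ?_ ?_ ?_
  · intro t ht
    rw [hface t, kuhnNb_sign]
    ring
  · intro t ht hne heq
    have h2 := kuhnNb_sign e t
    rw [heq] at h2
    apply hne
    have h3 : sg e t.1.2 * (-1) ^ (t.2 : ℕ) = 0 := by linarith
    rw [h3, mul_zero, zero_mul]
  · intro t ht
    have h2 := hH t ht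
    have h3 : (kuhnNb t).1 ∈ C := by
      by_contra h4
      rw [Finset.mem_filter, Finset.mem_product] at ht
      exact h2 (hC t.1 ht.1.1 t.2 (kuhnNb t).1 h4 (kuhnNb t).2 (kuhnNb_face t))
    rw [Finset.mem_filter]
    refine ⟨Finset.mem_product.2 ⟨h3, Finset.mem_univ _⟩, ?_⟩
    rw [Finset.mem_filter] at ht
    rw [hface t, kuhnNb_sign]
    intro h5
    apply ht.2
    have h6 : (-1 : ℤ) ^ (k : ℕ) * -(sg e t.1.2 * (-1) ^ (t.2 : ℕ)) *
        Hlab k (lam ∘ vtx t.1 ∘ t.2.succAbove) = -((-1) ^ (k : ℕ) *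
        (sg e t.1.2 * (-1) ^ (t.2 : ℕ)) * Hlab k (lam ∘ vtx t.1 ∘ t.2.succAbove)) := by ring
    rw [h6] at h5
    exact neg_eq_zero.1 h5
  · intro t ht
    exact kuhnNb_invol t

end Pool.Agent.CubeE
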