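import Mathlib

/-!
# MP_c0b923_gt, package Lab: the signed indicator of a complete labelling

`hlab l` is the determinant of the matrix `[l j = i]`; `Hlab k m` the determinant of the matrix
`[m j = k.succAbove i]`.

PROOFS.
`bijective_of_hlab`: if `l` is not surjective (the types are finite) the matrix has a zero row.
`hlab_bij`: for bijective `l` it is a permutation matrix (or: `hlab (σ ∘ l)` with `σ` the inverse,
`hlab_perm`, and the matrix of the identity is `1`).
`hlab_perm`: permutation of the rows (`Matrix.det_permute`): `[σ (l j) = i] = [l j = σ⁻¹ i]`.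
`hlab_expand`: replace row `k` by the sum of all rows (`Matrix.det_updateRow_add_smul_self`, or
`Matrix.det_updateRow_sum`, or multiply from the left by a unipotent matrix); this does not change
the determinant and the new row is `(1, ..., 1)`, since each column contains exactly one `1`.
Expand along the row `k` (`Matrix.det_succ_row`); the minors do not contain the row `k`.
`mem_of_Hlab`: if the label `i = k.succAbove i'` is not attained, then row `i'` is zero.
-/

set_option autoImplicit false

open Finset

namespace Pool.Agent.CubeE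

variable {D : ℕ}

/-- signed indicator of a complete labelling -/
def hlab (l : Fin (D + 1) → Fin (D + 1)) : ℤ :=
  (Matrix.of fun i j : Fin (D + 1) => if l j = i then (1 : ℤ) else 0).det

/-- signed indicator of a labelling of a facet by all labels except `k` -/
def Hlab (k : Fin (D + 1)) (m : Fin D → Fin (D + 1)) : ℤ :=
  (Matrix.of fun i j : Fin D => if m j = k.succAbove i then (1 : ℤ) else 0).det

theorem bijective_of_hlab (l : Fin (D + 1) → Fin (D + 1)) (h : hlab l ≠ 0) :
    Function.Bijective l := by
  rw [← Finite.surjective_iff_bijective]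
  intro i
  by_contra hi
  push Not at hi
  apply h
  unfold hlab
  refine Matrix.det_eq_zero_of_row_eq_zero i fun j => ?_
  simp [hi j]

theorem hlab_perm (σ : Equiv.Perm (Fin (D + 1))) (l : Fin (D + 1) → Fin (D + 1)) :
    hlab (σ ∘ l) = (Equiv.Perm.sign σ : ℤ) * hlab l := by
  have h : (Matrix.of fun i j : Fin (D + 1) => if (σ ∘ l) j = i then (1 : ℤ) else 0) =
      (Matrix.of fun i j : Fin (D + 1) => if l j = i then (1 : ℤ) else 0).submatrix
        (σ⁻¹ : Equiv.Perm (Fin (D + 1))) id := by
    ext i j
    simp only [Matrix.of_apply, Function.comp_apply, Matrix.submatrix_apply, id_eq]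
    congr 1
    rw [Equiv.Perm.eq_inv_iff_eq]
  unfold hlab
  rw [h, Matrix.det_permute, Equiv.Perm.sign_inv, Int.cast_id]

theorem hlab_bij (l : Fin (D + 1) → Fin (D + 1)) (h : Function.Bijective l) :
    hlab l = 1 ∨ hlab l = -1 := by
  have h1 : hlab (id : Fin (D + 1) → Fin (D + 1)) = 1 := by
    unfold hlab
    have : (Matrix.of fun i j : Fin (D + 1) => if (id : Fin (D + 1) → Fin (D + 1)) j = i
        then (1 : ℤ) else 0) = 1 := by
      ext i j
      simp only [Matrix.of_apply, id_eq, Matrix.one_apply]
      congr 1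
      exact propext eq_comm
    rw [this, Matrix.det_one]
  have h2 := hlab_perm (Equiv.ofBijective l h) id
  rw [h1, mul_one] at h2
  have h3 : (Equiv.ofBijective l h : Fin (D + 1) → Fin (D + 1)) ∘ id = l := by
    ext j
    simp
  rw [h3] at h2
  rw [h2]
  rcases Int.units_eq_one_or (Equiv.Perm.sign (Equiv.ofBijective l h)) with h4 | h4 <;>
    simp [h4]

theorem hlab_expand (k : Fin (D + 1)) (l : Fin (D + 1) → Fin (D + 1)) :
    hlab l = ∑ j : Fin (D + 1), (-1) ^ ((k : ℕ) + (j : ℕ)) * Hlab k (l ∘ j.succAbove) := by
  set M : Matrix (Fin (D + 1)) (Fin (D + 1)) ℤ :=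
    Matrix.of fun i j : Fin (D + 1) => if l j = i then (1 : ℤ) else 0 with hM
  have h1 : (M.updateRow k (fun _ => (1 : ℤ))).det = M.det := by
    have h2 := Matrix.det_updateRow_sum M k (fun _ => (1 : ℤ))
    have h3 : (∑ i, (fun _ : Fin (D + 1) => (1 : ℤ)) i • M i) = fun _ => (1 : ℤ) := by
      ext j
      simp [hM]
    rw [h3, one_smul] at h2
    exact h2
  have h4 : hlab l = M.det := rfl
  rw [h4, ← h1, Matrix.det_succ_row _ k]
  refine Finset.sum_congr rfl fun j _ => ?_
  rw [Matrix.updateRow_self, mul_one]
  congr 1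
  unfold Hlab
  congr 1
  ext a b
  rw [Matrix.submatrix_apply, Matrix.updateRow_ne (Fin.succAbove_ne k a)]
  simp [hM]

theorem mem_of_Hlab (k : Fin (D + 1)) (m : Fin D → Fin (D + 1)) (h : Hlab k m ≠ 0)
    (i : Fin (D + 1)) (hi : i ≠ k) : ∃ j, m j = i := by
  obtain ⟨a, rfl⟩ := Fin.exists_succAbove_eq hi
  by_contra hj
  push Not at hj
  apply h
  unfold Hlab
  refine Matrix.det_eq_zero_of_row_eq_zero a fun j => ?_
  simp [hj j]

end Pool.Agent.CubeE
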