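import Pool.Agent.CubeE.Chain
import Pool.Agent.CubeE.Engine

/-!
# MP_c0b923_gt, package Loop: closed chains over polygons

`UU f N a` is the set of `x : ZMod p → E` such that consecutive points are joined by chains in the
open cube of half side `a`; `YY f N a x : ℤ → E` is the closed chain, with period `p * N`.

PROOFS. (C.3 of /team-store/CUBE.md.) Everything follows from the black boxes of `Chain`.
`closure_UU`: the set `{x | ∀ l, (x l, x (l + 1)) ∈ EE f N a}` is closed and contains `UU`.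
`YY_shift`: `(k + N) / N = k / N + 1`, `(k + N) % N = k % N` (`N > 0`). `YY_periodic`: `((k / N + p : ℤ) :
ZMod p) = ((k / N : ℤ) : ZMod p)`. `frontier_UU`: `x ∈ closure UU`, `x ∉ UU` (open), so some pair
`(x l, x (l + 1)) ∈ EE \ EE0`, `touch_of_not_EE0` gives `s : Fin (N + 1)`; if `s < N` take `k = l.val * N + s`,
if `s = N` the value is `x (l + 1)`, take `k = (l + 1).val * N`. `YY_step`: if `k % N + 1 < N` both
values belong to the same chain (`sum_chain_le`); if `k % N = N - 1` then `YY (k + 1) = x (l + 1) =`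
the last point of the chain of `l = k / N`. `sum_YY`: sum `YY_step` over `k < p N`; each `l` occurs `N`
times (`Finset.sum_range` with `Nat` division, or `Finset.sum_comm` over `Fin p × Fin N`).
-/

set_option autoImplicit false

open Finset

namespace Pool.Agent.CubeE

open Pool.Agent.Expand

variable {n p : ℕ}

/-- polygons whose edges lift to chains in the open cube -/
def UU (p : ℕ) (f : EuclideanSpace ℝ (Fin n) → EuclideanSpace ℝ (Fin n)) (N : ℕ) (a : ℝ) :
    Set (ZMod p → EuclideanSpace ℝ (Fin n)) :=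
  {x | ∀ l, (x l, x (l + 1)) ∈ EE0 f N a}

/-- the closed chain -/
noncomputable def YY (f : EuclideanSpace ℝ (Fin n) → EuclideanSpace ℝ (Fin n)) (N : ℕ) (a : ℝ)
    (x : ZMod p → EuclideanSpace ℝ (Fin n)) (k : ℤ) : EuclideanSpace ℝ (Fin n) :=
  ch f N a (x ((k / N : ℤ) : ZMod p), x (((k / N : ℤ) : ZMod p) + 1))
    (Fin.ofNat (N + 1) (k % N).toNat)

section

variable {f : EuclideanSpace ℝ (Fin n) → EuclideanSpace ℝ (Fin n)} {N : ℕ} {a δ r : ℝ}
  {q : EuclideanSpace ℝ (Fin n)}

private theorem loop_cont (l : ZMod p) :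
    Continuous (fun x : ZMod p → EuclideanSpace ℝ (Fin n) => (x l, x (l + 1))) :=
  (continuous_apply l).prodMk (continuous_apply (l + 1))

theorem isOpen_UU [NeZero p] (H : Hyp f N a δ r q) : IsOpen (UU p f N a) := by
  have h : UU p f N a = ⋂ l : ZMod p,
      (fun x : ZMod p → EuclideanSpace ℝ (Fin n) => (x l, x (l + 1))) ⁻¹' (EE0 f N a) := by
    ext x
    simp [UU]
  rw [h]
  exact isOpen_iInter_of_finite fun l => (isOpen_EE0 H).preimage (loop_cont l)

theorem isBounded_UU [NeZero p] (H : Hyp f N a δ r q) :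
    Bornology.IsBounded (UU p f N a) := by
  rw [← Bornology.forall_isBounded_image_eval_iff]
  intro l
  have h1 : IsCompact (Prod.fst '' (EE f N a)) := (isCompact_EE H).image continuous_fst
  refine h1.isBounded.subset ?_
  rintro y ⟨x, hx, rfl⟩
  exact ⟨(x l, x (l + 1)), EE0_subset f N a (hx l), rfl⟩

theorem shift_UU (x : ZMod p → EuclideanSpace ℝ (Fin n)) (hx : x ∈ UU p f N a) :
    shift x ∈ UU p f N a := by
  intro l
  exact hx (l + 1)

theorem zero_UU (H : Hyp f N a δ r q) : (0 : ZMod p → EuclideanSpace ℝ (Fin n)) ∈ UU p f N a := by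
  intro l
  refine ⟨fun _ => 0, isChain_const N (x := (0 : EuclideanSpace ℝ (Fin n))) ?_, ?_⟩
  · intro i
    simpa using H.ha0.le
  · intro s i
    simpa using H.ha0

theorem closure_UU [NeZero p] (H : Hyp f N a δ r q) {x : ZMod p → EuclideanSpace ℝ (Fin n)}
    (hx : x ∈ closure (UU p f N a)) (l : ZMod p) : (x l, x (l + 1)) ∈ EE f N a := by
  have hc : IsClosed ((fun x : ZMod p → EuclideanSpace ℝ (Fin n) => (x l, x (l + 1))) ⁻¹'
      (EE f N a)) := (isCompact_EE H).isClosed.preimage (loop_cont l)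
  have hs : UU p f N a ⊆ (fun x : ZMod p → EuclideanSpace ℝ (Fin n) => (x l, x (l + 1))) ⁻¹'
      (EE f N a) := fun y hy => EE0_subset f N a (hy l)
  exact closure_minimal hs hc hx

theorem YY_continuousOn [NeZero p] (H : Hyp f N a δ r q) (k : ℤ) :
    ContinuousOn (fun x : ZMod p → EuclideanSpace ℝ (Fin n) => YY f N a x k)
      (closure (UU p f N a)) := by
  have h1 : ContinuousOn (fun x : ZMod p → EuclideanSpace ℝ (Fin n) =>
      ch f N a (x ((k / N : ℤ) : ZMod p), x (((k / N : ℤ) : ZMod p) + 1)))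
      (closure (UU p f N a)) :=
    (continuousOn_ch H).comp (loop_cont _).continuousOn fun x hx => closure_UU H hx _
  exact (continuous_apply _).comp_continuousOn h1

theorem YY_shift (H : Hyp f N a δ r q) (x : ZMod p → EuclideanSpace ℝ (Fin n)) (k : ℤ) :
    YY f N a (shift x) k = YY f N a x (k + N) := by
  have hN : (N : ℤ) ≠ 0 := by
    have := H.hN0
    omega
  have h1 : (k + (N : ℤ)) / N = k / N + 1 := by
    rw [Int.add_ediv_of_dvd_right (dvd_refl _), Int.ediv_self hN]
  have h2 : (k + (N : ℤ)) % N = k % N := by simp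
  unfold YY shift
  rw [h1, h2]
  push_cast
  rfl

theorem YY_periodic (H : Hyp f N a δ r q) (x : ZMod p → EuclideanSpace ℝ (Fin n)) (k : ℤ) :
    YY f N a x (k + (p * N : ℕ)) = YY f N a x k := by
  have hN : (N : ℤ) ≠ 0 := by
    have := H.hN0
    omega
  have h1 : (k + ((p * N : ℕ) : ℤ)) / N = k / N + p := by
    push_cast
    exact Int.add_mul_ediv_right k p hN
  have h2 : (k + ((p * N : ℕ) : ℤ)) % N = k % N := by
    push_cast
    simp
  have h3 : ((k / N + (p : ℤ) : ℤ) : ZMod p) = ((k / N : ℤ) : ZMod p) := by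
    push_cast
    simp
  unfold YY
  rw [h1, h2, h3]

theorem YY_const [NeZero p] (H : Hyp f N a δ r q) (c : EuclideanSpace ℝ (Fin n))
    (hc : (fun _ => c) ∈ closure (UU p f N a)) (k : ℤ) :
    YY f N a (fun _ : ZMod p => c) k = c := by
  have h1 : (c, c) ∈ EE f N a := closure_UU H hc (0 : ZMod p)
  have h2 := isChain_ch h1
  have h3 : ∀ i, |c i| ≤ a := by
    intro i
    have h4 := h2.2.2.1 0 i
    rw [h2.1] at h4
    exact h4
  have h5 := (ch_eq H (isChain_const (f := f) N h3)).2
  unfold YY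
  rw [h5]

theorem YY_abs [NeZero p] (H : Hyp f N a δ r q) {x : ZMod p → EuclideanSpace ℝ (Fin n)}
    (hx : x ∈ closure (UU p f N a)) (k : ℤ) (i : Fin n) : |YY f N a x k i| ≤ a :=
  (isChain_ch (closure_UU H hx ((k / N : ℤ) : ZMod p))).2.2.1 _ i

theorem YY_vertex [NeZero p] (H : Hyp f N a δ r q) {x : ZMod p → EuclideanSpace ℝ (Fin n)}
    (hx : x ∈ closure (UU p f N a)) (l : ZMod p) : ∀ i, |x l i| ≤ a := by
  intro i
  have h2 := isChain_ch (closure_UU H hx l)
  have h4 := h2.2.2.1 0 i
  rw [h2.1] at h4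
  exact h4

theorem frontier_UU [NeZero p] (H : Hyp f N a δ r q) {x : ZMod p → EuclideanSpace ℝ (Fin n)}
    (hx : x ∈ frontier (UU p f N a)) : ∃ k i, |YY f N a x k i| = a := by
  have hN : (N : ℤ) ≠ 0 := by
    have := H.hN0
    omega
  have hN0 := H.hN0
  rw [(isOpen_UU H).frontier_eq] at hx
  obtain ⟨hxc, hxn⟩ := hx
  have h1 : ∃ l, (x l, x (l + 1)) ∉ EE0 f N a := by
    by_contra h
    push Not at h
    exact hxn h
  obtain ⟨l, hl⟩ := h1
  obtain ⟨s, i, hs⟩ := touch_of_not_EE0 (closure_UU H hxc l) hl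
  by_cases hsN : (s : ℕ) < N
  · refine ⟨(l.val : ℤ) * N + (s : ℕ), i, ?_⟩
    have e1 : ((l.val : ℤ) * N + ((s : ℕ) : ℤ)) / N = (l.val : ℤ) := by
      rw [add_comm, Int.add_mul_ediv_right _ _ hN, Int.ediv_eq_zero_of_lt (by positivity)
        (by exact_mod_cast hsN)]
      simp
    have e2 : ((l.val : ℤ) * N + ((s : ℕ) : ℤ)) % N = ((s : ℕ) : ℤ) := by
      rw [add_comm, Int.add_mul_emod_self_right]
      exact Int.emod_eq_of_lt (by positivity) (by exact_mod_cast hsN)
    have e3 : (((l.val : ℕ) : ℤ) : ZMod p) = l := by simp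
    have e4 : Fin.ofNat (N + 1) (((s : ℕ) : ℤ)).toNat = s := by
      ext
      simp only [Int.toNat_natCast, Fin.ofNat]
      exact Nat.mod_eq_of_lt s.isLt
    unfold YY
    rw [e1, e2, e3, e4]
    exact hs
  · have hsl : s = Fin.last N := by
      ext
      have := s.isLt
      simp only [Fin.val_last]
      omega
    refine ⟨((l + 1).val : ℤ) * N, i, ?_⟩
    have e1 : (((l + 1).val : ℤ) * N) / N = ((l + 1).val : ℤ) := Int.mul_ediv_cancel _ hN
    have e2 : (((l + 1).val : ℤ) * N) % N = 0 := Int.mul_emod_left _ _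
    have e3 : ((((l + 1).val : ℕ) : ℤ) : ZMod p) = l + 1 := by simp
    have e4 : Fin.ofNat (N + 1) ((0 : ℤ)).toNat = 0 := by
      ext
      simp [Fin.ofNat]
    have h5 := isChain_ch (closure_UU H hxc (l + 1))
    have h6 := isChain_ch (closure_UU H hxc l)
    unfold YY
    rw [e1, e2, e3, e4, h5.1]
    rw [hsl, h6.2.1] at hs
    exact hs

theorem YY_step [NeZero p] (H : Hyp f N a δ r q) {x : ZMod p → EuclideanSpace ℝ (Fin n)}
    (hx : x ∈ closure (UU p f N a)) (k : ℤ) :
    dist (YY f N a x (k + 1)) (YY f N a x k) ≤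
      dist (f (x (((k / N : ℤ) : ZMod p) + 1))) (f (x ((k / N : ℤ) : ZMod p))) / N := by
  have hN0 := H.hN0
  have hNp : (0 : ℤ) < N := by exact_mod_cast hN0
  have hs0 : 0 ≤ k % N := Int.emod_nonneg _ hNp.ne'
  have hs1 : k % N < N := Int.emod_lt_of_pos _ hNp
  have hsn : (k % N).toNat < N := by omega
  have hch := isChain_ch (closure_UU H hx ((k / N : ℤ) : ZMod p))
  have hch2 := isChain_ch (closure_UU H hx (((k / N : ℤ) : ZMod p) + 1))
  have hkey := sum_chain_le hN0 hch ⟨(k % N).toNat, hsn⟩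
  have hk : k = (k / N) * N + k % N := by
    have := Int.emod_add_mul_ediv k N
    linarith [mul_comm (k / (N : ℤ)) (N : ℤ)]
  have e0 : YY f N a x k = ch f N a (x ((k / N : ℤ) : ZMod p), x (((k / N : ℤ) : ZMod p) + 1))
      (Fin.castSucc ⟨(k % N).toNat, hsn⟩) := by
    unfold YY
    congr 1
    ext
    simp only [Fin.ofNat, Fin.val_castSucc]
    exact Nat.mod_eq_of_lt (by omega)
  have e1 : YY f N a x (k + 1) = ch f N a
      (x ((k / N : ℤ) : ZMod p), x (((k / N : ℤ) : ZMod p) + 1))
      (Fin.succ ⟨(k % N).toNat, hsn⟩) := by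
    by_cases hs : k % N + 1 < N
    · have d1 : (k + 1) / N = k / N := by
        conv_lhs => rw [hk]
        rw [show (k / N) * N + k % N + 1 = (k % N + 1) + (k / N) * N by ring,
          Int.add_mul_ediv_right _ _ hNp.ne', Int.ediv_eq_zero_of_lt (by omega) hs]
        simp
      have d2 : (k + 1) % N = k % N + 1 := by
        conv_lhs => rw [hk]
        rw [show (k / N) * N + k % N + 1 = (k % N + 1) + (k / N) * N by ring,
          Int.add_mul_emod_self_right]
        exact Int.emod_eq_of_lt (by omega) hs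
      unfold YY
      rw [d1, d2]
      congr 1
      ext
      simp only [Fin.ofNat, Fin.val_succ]
      rw [Nat.mod_eq_of_lt (by omega)]
      omega
    · have hs2 : k % N + 1 = N := by omega
      have d1 : (k + 1) / N = k / N + 1 := by
        conv_lhs => rw [hk]
        rw [show (k / N) * N + k % N + 1 = (k % N + 1) + (k / N) * N by ring, hs2,
          Int.add_mul_ediv_right _ _ hNp.ne', Int.ediv_self hNp.ne']
        ring
      have d2 : (k + 1) % N = 0 := by
        conv_lhs => rw [hk]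
        rw [show (k / N) * N + k % N + 1 = (k % N + 1) + (k / N) * N by ring, hs2,
          Int.add_mul_emod_self_right]
        exact Int.emod_self
      have d3 : Fin.ofNat (N + 1) ((0 : ℤ)).toNat = 0 := by
        ext
        simp [Fin.ofNat]
      have d4 : (Fin.succ ⟨(k % N).toNat, hsn⟩ : Fin (N + 1)) = Fin.last N := by
        ext
        simp only [Fin.val_succ, Fin.val_last]
        omega
      have d5 : ((k / N + 1 : ℤ) : ZMod p) = ((k / N : ℤ) : ZMod p) + 1 := by
        push_cast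
        rfl
      unfold YY
      rw [d1, d2, d3, d4, d5, hch2.1, hch.2.1]
  rw [e0, e1]
  exact hkey

private theorem loop_sum (g : ℕ → ℝ) (hN : 0 < N) (m : ℕ) :
    ∑ k ∈ range (m * N), g (k / N) = N * ∑ j ∈ range m, g j := by
  induction m with
  | zero => simp
  | succ m ih =>
    rw [Nat.succ_mul, Finset.sum_range_add, ih, Finset.sum_range_succ, mul_add]
    congr 1
    have h : ∀ s ∈ range N, g ((m * N + s) / N) = g m := by
      intro s hs
      rw [Finset.mem_range] at hs
      congr 1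
      rw [add_comm, Nat.add_mul_div_right _ _ hN, Nat.div_eq_of_lt hs]
      simp
    rw [Finset.sum_congr rfl h]
    simp

private theorem loop_zmod [NeZero p] (g : ZMod p → ℝ) :
    ∑ j ∈ range p, g (j : ZMod p) = ∑ l : ZMod p, g l := by
  refine Finset.sum_bij (fun j _ => (j : ZMod p)) (fun j _ => Finset.mem_univ _) ?_ ?_
    (fun j _ => rfl)
  · intro i hi j hj hij
    rw [Finset.mem_range] at hi hj
    have h1 := congrArg ZMod.val hij
    rwa [ZMod.val_cast_of_lt hi, ZMod.val_cast_of_lt hj] at h1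
  · intro l _
    exact ⟨l.val, Finset.mem_range.2 (ZMod.val_lt l), by simp⟩

theorem sum_YY [NeZero p] (H : Hyp f N a δ r q) {x : ZMod p → EuclideanSpace ℝ (Fin n)}
    (hx : x ∈ closure (UU p f N a)) :
    ∑ k ∈ range (p * N), dist (YY f N a x ((k : ℤ) + 1)) (YY f N a x k) ≤
      ∑ l : ZMod p, dist (f (x (l + 1))) (f (x l)) := by
  have hN0 := H.hN0
  have hNr : (N : ℝ) ≠ 0 := by
    have : (0 : ℝ) < N := by exact_mod_cast hN0
    exact this.ne'
  have h1 : ∀ k ∈ range (p * N), dist (YY f N a x ((k : ℤ) + 1)) (YY f N a x k) ≤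
      (fun j : ℕ => dist (f (x ((j : ZMod p) + 1))) (f (x (j : ZMod p))) / N) (k / N) := by
    intro k _
    have h2 := YY_step H hx (k : ℤ)
    have h3 : (((k : ℤ) / (N : ℤ) : ℤ) : ZMod p) = ((k / N : ℕ) : ZMod p) := by
      rw [← Int.natCast_ediv]
      exact Int.cast_natCast _
    rw [h3] at h2
    exact h2
  refine (Finset.sum_le_sum h1).trans ?_
  rw [loop_sum (fun j : ℕ => dist (f (x ((j : ZMod p) + 1))) (f (x (j : ZMod p))) / N) hN0 p,
    loop_zmod (fun l : ZMod p => dist (f (x (l + 1))) (f (x l)) / N),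
    ← Finset.sum_div, mul_div_cancel₀ _ hNr]

end

end Pool.Agent.CubeE
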