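import Mathlib

/-!
# MP_c0b923_gt, package Num: choice of the parameters

PROOF. Put `S = sin (π / √n)`, `0 < S` (`n ≥ 4`, so `0 < π / √n ≤ π / 2`), `r * S < 2`. Choose `b` with
`max 0 (r * S / 2) < b < 1`, then a prime `p` (`Nat.exists_infinite_primes`) so large that `p ≥ 3`,
`p > √n` and `r * S < 2 * b * (1 - √n / p)`; `p` is odd. `j = ⌊p / √n⌋₊ ≥ 1`. `j ≤ p / √n ≤ p / 2`, and `2 j ≠ p`
since `p` is odd: `2 j < p`. `j / p ≤ 1 / √n ≤ 1 / 2`, so `sin (π j / p) ≤ S` (monotone on `[0, π / 2]`) and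
`≥ 0`. First inequality: `2 p r sin (π j / p) ≤ 2 p r S < 4 b p` (`r ≥ 0`). Second: `j > p / √n - 1` gives
`√n * j / p > 1 - √n / p`, so `√n * 2 p r S < √n * 2 p * 2 b (√n j / p) = 4 b n j` (`√n * √n = n`).
-/

set_option autoImplicit false

open Finset

namespace Pool.Agent.CubeE

theorem exists_params {n : ℕ} (hn : 4 ≤ n) {r : ℝ} (hr0 : 0 ≤ r)
    (hr : r < 2 / Real.sin (Real.pi / Real.sqrt n)) :
    ∃ (b : ℝ) (p j : ℕ), 0 < b ∧ b < 1 ∧ p.Prime ∧ p ≠ 2 ∧ 1 ≤ j ∧ 2 * j < p ∧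
      2 * p * r * Real.sin (Real.pi * j / p) < 4 * b * p ∧
      Real.sqrt n * (2 * p * r * Real.sin (Real.pi * j / p)) < 4 * b * n * j := by
  have hn4 : (4 : ℝ) ≤ n := by exact_mod_cast hn
  have hss : Real.sqrt n * Real.sqrt n = n := Real.mul_self_sqrt (by linarith)
  have hs2 : 2 ≤ Real.sqrt n := by
    rw [show (2 : ℝ) = Real.sqrt 4 by
      rw [show (4 : ℝ) = 2 ^ 2 by norm_num, Real.sqrt_sq (by norm_num)]]
    exact Real.sqrt_le_sqrt hn4
  set s : ℝ := Real.sqrt n with hs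
  have hs0 : 0 < s := by linarith
  have hpi := Real.pi_pos
  have hang0 : 0 < Real.pi / s := div_pos hpi hs0
  have hang2 : Real.pi / s ≤ Real.pi / 2 := by gcongr
  set S : ℝ := Real.sin (Real.pi / s) with hS
  have hS0 : 0 < S := Real.sin_pos_of_pos_of_lt_pi hang0 (by linarith)
  have hrS : r * S < 2 := by rwa [lt_div_iff₀ hS0] at hr
  have hrS0 : 0 ≤ r * S := by positivity
  obtain ⟨t, ht⟩ : ∃ t : ℝ, t = r * S / 2 := ⟨_, rfl⟩
  have ht0 : 0 ≤ t := by rw [ht]; positivity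
  have ht1 : t < 1 := by rw [ht]; linarith
  obtain ⟨b, hb⟩ : ∃ b : ℝ, b = (t + 1) / 2 := ⟨_, rfl⟩
  have hb0 : 0 < b := by rw [hb]; linarith
  have hb1 : b < 1 := by rw [hb]; linarith
  have htb : 0 < b - t := by rw [hb]; linarith
  obtain ⟨N, hN⟩ := exists_nat_gt (max s (s * b / (b - t)))
  obtain ⟨p, hpN, hp⟩ := Nat.exists_infinite_primes (max N 3)
  have hp3 : 3 ≤ p := le_trans (le_max_right _ _) hpN
  have hNp : (N : ℝ) ≤ p := by exact_mod_cast le_trans (le_max_left _ _) hpN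
  have hp0 : (0 : ℝ) < p := by
    have : 0 < p := by omega
    exact_mod_cast this
  have hsp : s < p := lt_of_lt_of_le (lt_of_le_of_lt (le_max_left _ _) hN) hNp
  have hkey : s * b < p * (b - t) := by
    have h1 : s * b / (b - t) < p :=
      lt_of_lt_of_le (lt_of_le_of_lt (le_max_right _ _) hN) hNp
    rwa [div_lt_iff₀ htb] at h1
  have hps1 : 1 ≤ (p : ℝ) / s := by rw [le_div_iff₀ hs0]; linarith
  have hps0 : 0 ≤ (p : ℝ) / s := by linarith
  obtain ⟨j, hj⟩ : ∃ j : ℕ, j = ⌊(p : ℝ) / s⌋₊ := ⟨_, rfl⟩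
  have hj1 : 1 ≤ j := by rw [hj]; exact (Nat.one_le_floor_iff _).2 hps1
  have hjle : (j : ℝ) ≤ p / s := by rw [hj]; exact Nat.floor_le hps0
  have hjlt : (p : ℝ) / s < j + 1 := by rw [hj]; exact Nat.lt_floor_add_one _
  have hjs : (j : ℝ) * s ≤ p := by rwa [le_div_iff₀ hs0] at hjle
  have hjs' : (p : ℝ) < (j + 1) * s := by rwa [div_lt_iff₀ hs0] at hjlt
  have hj0 : (0 : ℝ) ≤ j := Nat.cast_nonneg _
  have h2j : 2 * j ≤ p := by
    have : (2 : ℝ) * j ≤ p := by nlinarith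
    exact_mod_cast this
  have h2jne : 2 * j ≠ p := by
    intro h
    have h2 : 2 ∣ p := ⟨j, h.symm⟩
    have := (Nat.prime_dvd_prime_iff_eq Nat.prime_two hp).1 h2
    omega
  have hsin : Real.sin (Real.pi * j / p) ≤ S := by
    rw [hS]
    apply Real.sin_le_sin_of_le_of_le_pi_div_two _ hang2
    · rw [div_le_div_iff₀ hp0 hs0]
      nlinarith
    · have : 0 ≤ Real.pi * j / p := by positivity
      linarith
  have hpr : 2 * p * r * Real.sin (Real.pi * j / p) ≤ 4 * p * t := by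
    calc 2 * p * r * Real.sin (Real.pi * j / p) ≤ 2 * p * r * S :=
          mul_le_mul_of_nonneg_left hsin (by positivity)
      _ = 4 * p * t := by rw [ht]; ring
  refine ⟨b, p, j, hb0, hb1, hp, by omega, hj1, by omega, ?_, ?_⟩
  · refine lt_of_le_of_lt hpr ?_
    nlinarith
  · calc s * (2 * p * r * Real.sin (Real.pi * j / p)) ≤ s * (4 * p * t) :=
          mul_le_mul_of_nonneg_left hpr hs0.le
      _ < s * (4 * (b * (s * j))) := by
          apply mul_lt_mul_of_pos_left _ hs0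
          nlinarith
      _ = 4 * b * (s * s) * j := by ring
      _ = 4 * b * n * j := by rw [hss]

end Pool.Agent.CubeE
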