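import Pool.Agent.CubeE.Zero
import Pool.Agent.CubeE.EngW
import Pool.Agent.CubeE.Num
import Pool.Agent.CubeE.Loc

/-!
# MP_c0b923_gt, package MainT: radius at least `2 / sin (π / √n)`

PROOF. Suppose `r < 2 / sin (π / √n)`. `0 ≤ r` (`0` is in the cube). `exists_params` gives
`b, p, j`. Let `a = (b + 1) / 2`, `δ` from `exists_local`, `N ≥ 1` with `4 r < δ N`:
`H : Hyp f N a δ r q`. `K = n j - 1`, `σ = Fin K ⊕ (Fin n × Fin ((p - 1) / 2 - j))`,
`node t = ((Fintype.equivFin _ t : ℕ) : ℂ)`.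
Apply `engineW` with `U = UU p f N a`, `g x i = bal (p * N) (uu f N a x i)`,
`h (inl s) x = ∑ t : Fin n × Fin (p - 1), node t ^ s * bt f N a b (t.2 + 1) t.1 x`,
`h (inr (i, m')) x = fam2 f (j + 1 + m') i x`. Cardinality:
`2 (n j - 1) + 2 n ((p - 1) / 2 - j) = n (p - 1) - 2 < n (p - 1)` (`p` odd, `2 j ≤ p - 1`,
`n j ≥ 1`). The common zero on the frontier contradicts `no_zero`.
-/

set_option autoImplicit false

open Finset

namespace Pool.Agent.CubeE

open Pool.Agent.Expand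

private lemma mainT_card {n p j : ℕ} (hn : 4 ≤ n) (hodd : p % 2 = 1) (hj1 : 1 ≤ j)
    (hj2 : 2 * j < p) :
    2 * (n * j - 1 + n * ((p - 1) / 2 - j)) < n * (p - 1) := by
  obtain ⟨c, hc⟩ : ∃ c, p = 2 * (j + c) + 1 := ⟨(p - 1) / 2 - j, by omega⟩
  have h1 : (p - 1) / 2 - j = c := by omega
  have h2 : p - 1 = 2 * (j + c) := by omega
  rw [h1, h2]
  have h3 : 1 ≤ n * j := Nat.mul_pos (by omega) hj1
  have h4 : n * (2 * (j + c)) = 2 * (n * j) + 2 * (n * c) := by ring
  rw [h4]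
  omega

/-- the functionals -/
private noncomputable def mainTh {n : ℕ} (p : ℕ) [NeZero p]
    (f : EuclideanSpace ℝ (Fin n) → EuclideanSpace ℝ (Fin n)) (N : ℕ) (a b : ℝ) (j : ℕ)
    (node : Fin n × Fin (p - 1) → ℂ) :
    Fin (n * j - 1) ⊕ (Fin n × Fin ((p - 1) / 2 - j)) →
      (ZMod p → EuclideanSpace ℝ (Fin n)) → ℂ
  | Sum.inl s, x => ∑ t : Fin n × Fin (p - 1), node t ^ (s : ℕ) *
      bt f N a b ((t.2 : ℕ) + 1) t.1 x
  | Sum.inr z, x => fam2 f (j + 1 + (z.2 : ℕ)) z.1 x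

theorem two_over_sin_le {n : ℕ} (hn : 4 ≤ n)
    (f : EuclideanSpace ℝ (Fin n) → EuclideanSpace ℝ (Fin n))
    (hf : IsExpandingOn f (cube n)) (q : EuclideanSpace ℝ (Fin n)) (r : ℝ)
    (h : Set.MapsTo f (cube n) (Metric.closedBall q r)) :
    2 / Real.sin (Real.pi / Real.sqrt n) ≤ r := by
  by_contra hcon
  push Not at hcon
  have h0c : (0 : EuclideanSpace ℝ (Fin n)) ∈ cube n := by
    intro i
    simp
  have hr0 : 0 ≤ r := by
    have h1 := h h0c
    rw [Metric.mem_closedBall] at h1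
    exact dist_nonneg.trans h1
  obtain ⟨b, p, j, hb0, hb1, hp, hp2, hj1, hj2, hC1, hC2⟩ := exists_params hn hr0 hcon
  have : Fact p.Prime := ⟨hp⟩
  have ha0 : 0 < (b + 1) / 2 := by linarith
  have ha1 : (b + 1) / 2 < 1 := by linarith
  have hba : b < (b + 1) / 2 := by linarith
  obtain ⟨a, ha⟩ : ∃ a : ℝ, a = (b + 1) / 2 := ⟨_, rfl⟩
  rw [← ha] at ha0 ha1 hba
  obtain ⟨δ, hδ, hloc, hinv⟩ := exists_local hf ha1
  obtain ⟨N, hN⟩ := exists_nat_gt (max (4 * r / δ) 1)
  have hN1 : 4 * r < δ * N := by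
    have h1 := lt_of_le_of_lt (le_max_left _ _) hN
    rw [div_lt_iff₀ hδ] at h1
    linarith
  have hN0 : 0 < N := by
    have h1 := lt_of_le_of_lt (le_max_right _ _) hN
    have h2 : (0 : ℝ) < N := by linarith
    exact_mod_cast h2
  have H : Hyp f N a δ r q :=
    { ha0 := ha0, ha1 := ha1, hδ := hδ, hN0 := hN0, hN := hN1, hf := hf.1
      hr := fun x hx => Metric.mem_closedBall.1 (h hx)
      hloc := hloc, hinv := hinv }
  have hodd : p % 2 = 1 := Nat.odd_iff.1 (hp.odd_of_ne_two hp2)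
  obtain ⟨node, hnode⟩ : ∃ node : Fin n × Fin (p - 1) → ℂ, Function.Injective node := by
    refine ⟨fun t => ((Fintype.equivFin (Fin n × Fin (p - 1)) t : ℕ) : ℂ), ?_⟩
    intro t t' htt
    have h1 : ((Fintype.equivFin (Fin n × Fin (p - 1)) t : ℕ)) =
        ((Fintype.equivFin (Fin n × Fin (p - 1)) t' : ℕ)) := Nat.cast_injective htt
    exact (Fintype.equivFin _).injective (Fin.ext h1)
  obtain ⟨x, hx, hg, hh⟩ := engineW p hp2 n
    (σ := Fin (n * j - 1) ⊕ (Fin n × Fin ((p - 1) / 2 - j)))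
    (by
      rw [Fintype.card_sum, Fintype.card_prod, Fintype.card_fin, Fintype.card_fin,
        Fintype.card_fin]
      exact mainT_card hn hodd hj1 hj2)
    (UU p f N a) (isOpen_UU H) (isBounded_UU H) (fun x hx => shift_UU x hx) (zero_UU H)
    (fun x i => bal (p * N) (uu f N a x i)) (uu_bal_continuousOn H)
    (fun x _ => funext fun i => uu_bal_shift H x i)
    (fun c hc i => uu_bal_const H c hc i)
    (mainTh p f N a b j node)
    (by
      rintro (s | z)
      · refine continuousOn_finsetSum _ fun t _ => ?_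
        exact continuousOn_const.mul (bt_continuousOn H b (Nat.succ_pos _) t.1)
      · exact fam2_continuousOn H _ _)
    (by
      rintro (s | z) x _
      · show ∑ t : Fin n × Fin (p - 1), node t ^ (s : ℕ) *
            bt f N a b ((t.2 : ℕ) + 1) t.1 (shift x) = _ *
            ∑ t : Fin n × Fin (p - 1), node t ^ (s : ℕ) * bt f N a b ((t.2 : ℕ) + 1) t.1 x
        rw [Finset.mul_sum]
        refine Finset.sum_congr rfl fun t _ => ?_
        have ht := t.2.isLt
        rw [bt_shift H b (Nat.succ_pos _) (by omega) t.1 x]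
        ring
      · have hz := z.2.isLt
        exact fam2_shift f (by omega) (by omega) z.1 x)
  refine no_zero hp2 H hb0 hba hj1 hj2 hC1 hC2 node hnode hx hg ?_ ?_
  · intro s hs
    exact hh (Sum.inl ⟨s, hs⟩)
  · intro m hm1 hm2 i
    have h1 := hh (Sum.inr (i, ⟨m - (j + 1), by omega⟩))
    have h2 : j + 1 + (m - (j + 1)) = m := by omega
    have h3 : fam2 f (j + 1 + (m - (j + 1))) i x = 0 := h1
    rwa [h2] at h3

end Pool.Agent.CubeE
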