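import Mathlib

/-!
# MP_c0b923_gt, package OAlt: linear alternations (for odd maps)

`LAlt N c k u`: there are `k` indices `e 0 < ... < e (k - 1) ≤ N` and a sign `s` with `s (-1)^l u (e l) ≥ c`.
`lbet N b k u` = sup of `0` and of all `t ≥ 0` with `LAlt N (b + t) k u`.

PROOFS. As in the docstring of `Alt` (everything is finite here: `u : ℕ → ℝ`, only `u 0, ..., u N`
matter; for `k ≥ 1`, `LAlt N (b + t) k u` gives `b + t ≤ |u (e 0)|`, so the set is bounded above).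
`lbet_neg`: replace `s` by `-s`. `lalt_tv`: `∑_{s<N} |u (s + 1) - u s|` is at least `|u (e 0) - u 0| +
∑_{l + 1 < k} |u (e (l + 1)) - u (e l)| ≥ b + 2 b (k - 1)`, as `u 0 = 0`. `lalt_lt`: at most `N + 1`
alternations.
-/

set_option autoImplicit false

open Finset

namespace Pool.Agent.CubeE

/-- linear alternation -/
def LAlt (N : ℕ) (c : ℝ) (k : ℕ) (u : ℕ → ℝ) : Prop :=
  ∃ (e : ℕ → ℕ) (s : ℝ), (s = 1 ∨ s = -1) ∧ (∀ l, l + 1 < k → e l < e (l + 1)) ∧
    (∀ l < k, e l ≤ N) ∧ ∀ l < k, c ≤ s * (-1) ^ l * u (e l)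

/-- linear alternation depth -/
noncomputable def lbet (N : ℕ) (b : ℝ) (k : ℕ) (u : ℕ → ℝ) : ℝ :=
  sSup ({0} ∪ {t | 0 ≤ t ∧ LAlt N (b + t) k u})

theorem lbet_nonneg {N : ℕ} {b : ℝ} {k : ℕ} (hk : 1 ≤ k) (u : ℕ → ℝ) : 0 ≤ lbet N b k u := by
  have _ := hk
  refine Real.sSup_nonneg ?_
  rintro x (hx | hx)
  · exact le_of_eq hx.symm
  · exact hx.1

private lemma lbet_bdd_OAlt {N : ℕ} {b : ℝ} {k : ℕ} (hk : 1 ≤ k) (u : ℕ → ℝ) :
    BddAbove ({0} ∪ {t | 0 ≤ t ∧ LAlt N (b + t) k u}) := by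
  refine ⟨max 0 ((∑ s ∈ range (N + 1), |u s|) - b), ?_⟩
  rintro x (hx | ⟨_, e, s, hs, _, heN, hc⟩)
  · rw [Set.mem_singleton_iff] at hx
    rw [hx]
    exact le_max_left _ _
  · refine le_trans ?_ (le_max_right _ _)
    have h1 := hc 0 (by omega)
    have h2 : s * (-1) ^ 0 * u (e 0) ≤ |u (e 0)| := by
      rcases hs with rfl | rfl
      · simpa using le_abs_self (u (e 0))
      · simpa using neg_le_abs (u (e 0))
    have h3 : |u (e 0)| ≤ ∑ s ∈ range (N + 1), |u s| :=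
      single_le_sum (f := fun s => |u s|) (fun i _ => abs_nonneg _)
        (mem_range.2 (Nat.lt_succ_of_le (heN 0 (by omega))))
    linarith

theorem lalt_mono_c {N : ℕ} {c c' : ℝ} {k : ℕ} {u : ℕ → ℝ} (h : LAlt N c k u) (hc : c' ≤ c) :
    LAlt N c' k u := by
  obtain ⟨e, s, hs, he, heN, h⟩ := h
  exact ⟨e, s, hs, he, heN, fun l hl => hc.trans (h l hl)⟩

private lemma lalt_pert_OAlt {N : ℕ} {c κ : ℝ} {k : ℕ} {u v : ℕ → ℝ}
    (huv : ∀ s ≤ N, |u s - v s| ≤ κ) (h : LAlt N c k u) : LAlt N (c - κ) k v := by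
  obtain ⟨e, s, hs, he, heN, h⟩ := h
  refine ⟨e, s, hs, he, heN, fun l hl => ?_⟩
  have h1 := h l hl
  have h2 := huv (e l) (heN l hl)
  have h3 : s * (-1) ^ l * u (e l) - s * (-1) ^ l * v (e l) ≤ |u (e l) - v (e l)| := by
    rw [← mul_sub]
    refine (le_abs_self _).trans ?_
    rw [abs_mul, abs_mul, abs_pow, abs_neg, abs_one, one_pow, mul_one]
    rcases hs with rfl | rfl <;> simp
  linarith

private lemma lbet_lip_OAlt {N : ℕ} {b κ : ℝ} {k : ℕ} (hk : 1 ≤ k) {u v : ℕ → ℝ}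
    (hκ : 0 ≤ κ) (huv : ∀ s ≤ N, |u s - v s| ≤ κ) : lbet N b k u ≤ lbet N b k v + κ := by
  refine csSup_le ⟨0, Or.inl rfl⟩ ?_
  rintro x (hx | ⟨hx0, hx⟩)
  · rw [Set.mem_singleton_iff] at hx
    rw [hx]
    have := lbet_nonneg (N := N) (b := b) hk v
    linarith
  · rcases le_total x κ with h | h
    · have := lbet_nonneg (N := N) (b := b) hk v
      linarith
    · have h1 : LAlt N (b + (x - κ)) k v := by
        have := lalt_pert_OAlt huv hx
        rwa [add_sub_assoc] at this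
      have h2 : x - κ ≤ lbet N b k v :=
        le_csSup (lbet_bdd_OAlt hk v) (Or.inr ⟨by linarith, h1⟩)
      linarith

theorem lbet_continuousOn {X : Type*} [TopologicalSpace X] {S : Set X} {N : ℕ}
    {b : ℝ} {k : ℕ} (hk : 1 ≤ k) {u : X → ℕ → ℝ}
    (hc : ∀ s ≤ N, ContinuousOn (fun x => u x s) S) :
    ContinuousOn (fun x => lbet N b k (u x)) S := by
  intro x hx
  have hsum : Filter.Tendsto (fun y => ∑ s ∈ range (N + 1), |u y s - u x s|)
      (nhdsWithin x S) (nhds 0) := by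
    have h0 : (0 : ℝ) = ∑ s ∈ range (N + 1), |u x s - u x s| := by simp
    rw [h0]
    refine tendsto_finsetSum _ fun s hs => ?_
    have hs' : s ≤ N := Nat.lt_succ_iff.1 (mem_range.1 hs)
    exact ((hc s hs' x hx).sub tendsto_const_nhds).abs
  unfold ContinuousWithinAt
  rw [tendsto_iff_dist_tendsto_zero]
  refine squeeze_zero (fun _ => dist_nonneg) (fun y => ?_) hsum
  have hle : ∀ s ≤ N, |u y s - u x s| ≤ ∑ s ∈ range (N + 1), |u y s - u x s| := fun s hs =>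
    single_le_sum (f := fun s => |u y s - u x s|) (fun i _ => abs_nonneg _)
      (mem_range.2 (Nat.lt_succ_of_le hs))
  have hnn : 0 ≤ ∑ s ∈ range (N + 1), |u y s - u x s| := sum_nonneg fun i _ => abs_nonneg _
  have h1 := lbet_lip_OAlt (b := b) hk hnn hle
  have h2 := lbet_lip_OAlt (b := b) (u := u x) (v := u y) hk hnn
    (fun s hs => by rw [abs_sub_comm]; exact hle s hs)
  rw [Real.dist_eq, abs_le]
  constructor <;> linarith

theorem lbet_neg {N : ℕ} {b : ℝ} {k : ℕ} (u : ℕ → ℝ) :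
    lbet N b k (fun s => -u s) = lbet N b k u := by
  have key : ∀ (c : ℝ) (w : ℕ → ℝ), LAlt N c k w → LAlt N c k (fun s => -w s) := by
    rintro c w ⟨e, s, hs, he, heN, h⟩
    refine ⟨e, -s, ?_, he, heN, fun l hl => ?_⟩
    · rcases hs with rfl | rfl
      · exact Or.inr rfl
      · exact Or.inl (neg_neg 1)
    · have := h l hl
      have h2 : -s * (-1) ^ l * -w (e l) = s * (-1) ^ l * w (e l) := by ring
      rw [h2]
      exact this
  have hiff : ∀ c : ℝ, LAlt N c k (fun s => -u s) ↔ LAlt N c k u := fun c =>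
    ⟨fun h => by simpa using key c _ h, key c u⟩
  unfold lbet
  simp only [hiff]

theorem lbet_congr {N : ℕ} {b : ℝ} {k : ℕ} {u v : ℕ → ℝ} (h : ∀ s ≤ N, u s = v s) :
    lbet N b k u = lbet N b k v := by
  have key : ∀ (c : ℝ) (w w' : ℕ → ℝ), (∀ s ≤ N, w s = w' s) → LAlt N c k w → LAlt N c k w' := by
    rintro c w w' hw ⟨e, s, hs, he, heN, h⟩
    refine ⟨e, s, hs, he, heN, fun l hl => ?_⟩
    rw [← hw (e l) (heN l hl)]
    exact h l hl
  have hiff : ∀ c : ℝ, LAlt N c k u ↔ LAlt N c k v := fun c =>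
    ⟨key c u v h, key c v u fun s hs => (h s hs).symm⟩
  unfold lbet
  simp only [hiff]

theorem lbet_pos {N : ℕ} {b : ℝ} {k : ℕ} (hk : 1 ≤ k) (u : ℕ → ℝ) :
    0 < lbet N b k u ↔ ∃ c, b < c ∧ LAlt N c k u := by
  constructor
  · intro h
    have hne : (({0} : Set ℝ) ∪ {t | 0 ≤ t ∧ LAlt N (b + t) k u}).Nonempty := ⟨0, Or.inl rfl⟩
    obtain ⟨x, hx, hx0⟩ := exists_lt_of_lt_csSup hne h
    rcases hx with hx | ⟨_, hx⟩
    · rw [Set.mem_singleton_iff] at hx
      exact absurd hx0 (by rw [hx]; exact lt_irrefl 0)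
    · exact ⟨b + x, by linarith, hx⟩
  · rintro ⟨c, hc, h⟩
    have h1 : c - b ≤ lbet N b k u := by
      refine le_csSup (lbet_bdd_OAlt hk u) (Or.inr ⟨by linarith, ?_⟩)
      have : b + (c - b) = c := by ring
      rw [this]
      exact h
    linarith

theorem lalt_anti {N : ℕ} {c : ℝ} {k k' : ℕ} (hkk : k ≤ k') {u : ℕ → ℝ}
    (h : LAlt N c k' u) : LAlt N c k u := by
  obtain ⟨e, s, hs, he, heN, h⟩ := h
  exact ⟨e, s, hs, fun l hl => he l (by omega), fun l hl => heN l (by omega),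
    fun l hl => h l (by omega)⟩

private lemma tv_piece_OAlt (u : ℕ → ℝ) {m n : ℕ} (h : m ≤ n) :
    |u n - u m| ≤ ∑ s ∈ Ico m n, |u (s + 1) - u s| := by
  have h1 := dist_le_Ico_sum_dist u h
  simp only [Real.dist_eq] at h1
  rw [abs_sub_comm]
  refine h1.trans (le_of_eq (sum_congr rfl fun s _ => abs_sub_comm _ _))

private lemma tv_ind_OAlt {b : ℝ} {u : ℕ → ℝ} (h0 : u 0 = 0) {e : ℕ → ℕ} {s : ℝ}
    (hs : s = 1 ∨ s = -1) (k : ℕ) :
    (∀ l, l + 1 < k + 1 → e l < e (l + 1)) → (∀ l < k + 1, b ≤ s * (-1) ^ l * u (e l)) →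
    (2 * (k + 1 : ℕ) - 1) * b ≤ ∑ i ∈ range (e k), |u (i + 1) - u i| := by
  have habs : ∀ (l : ℕ) (x : ℝ), s * (-1) ^ l * x ≤ |x| := by
    intro l x
    refine (le_abs_self _).trans ?_
    rw [abs_mul, abs_mul, abs_pow, abs_neg, abs_one, one_pow, mul_one]
    rcases hs with rfl | rfl <;> simp
  induction k with
  | zero =>
    intro _ hc
    have h1 := hc 0 (by omega)
    have h2 := habs 0 (u (e 0))
    have h3 := tv_piece_OAlt u (Nat.zero_le (e 0))
    rw [h0, sub_zero, ← range_eq_Ico] at h3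
    have h4 : (2 * ((0 + 1 : ℕ) : ℝ) - 1) * b = b := by push_cast; ring
    rw [h4]
    linarith
  | succ k ih =>
    intro he hc
    have h1 := ih (fun l hl => he l (by omega)) (fun l hl => hc l (by omega))
    have h2 : e k < e (k + 1) := he k (by omega)
    have h3 := tv_piece_OAlt u h2.le
    have h4 := habs (k + 1) (u (e (k + 1)) - u (e k))
    have h5 := hc (k + 1) (by omega)
    have h6 := hc k (by omega)
    have h7 : s * (-1) ^ (k + 1) * (u (e (k + 1)) - u (e k)) =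
        s * (-1) ^ (k + 1) * u (e (k + 1)) + s * (-1) ^ k * u (e k) := by ring
    have h8 : ∑ i ∈ range (e (k + 1)), |u (i + 1) - u i| =
        ∑ i ∈ range (e k), |u (i + 1) - u i| + ∑ i ∈ Ico (e k) (e (k + 1)), |u (i + 1) - u i| := by
      rw [range_eq_Ico, range_eq_Ico, sum_Ico_consecutive _ (Nat.zero_le _) h2.le]
    have h9 : (2 * ((k + 1 + 1 : ℕ) : ℝ) - 1) * b = (2 * ((k + 1 : ℕ) : ℝ) - 1) * b + 2 * b := by
      push_cast
      ring
    rw [h8, h9]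
    linarith

theorem lalt_tv {N : ℕ} {b : ℝ} {k : ℕ} (hk : 1 ≤ k) {u : ℕ → ℝ} (h0 : u 0 = 0)
    (h : LAlt N b k u) : (2 * k - 1) * b ≤ ∑ s ∈ range N, |u (s + 1) - u s| := by
  obtain ⟨e, s, hs, he, heN, h⟩ := h
  obtain ⟨k, rfl⟩ : ∃ k', k = k' + 1 := ⟨k - 1, by omega⟩
  have h1 := tv_ind_OAlt h0 hs k he h
  refine h1.trans (sum_le_sum_of_subset_of_nonneg ?_ fun i _ _ => abs_nonneg _)
  intro i hi
  have := heN k (by omega)
  rw [mem_range] at hi ⊢
  omega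

end Pool.Agent.CubeE
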