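import Mathlib

/-!
# MP_c0b923_gt, package Peri: perimeter of a polygon with low frequencies

PROOF. (F.1 of /team-store/CUBE.md.) For `u : ZMod p → ℝ` write `û m = ∑ l, u l * χ (-m l)`, `χ =
ZMod.stdAddChar`. Parseval: `∑ l, |u l|^2 = (1 / p) ∑ m, |û m|^2` (`ZMod.dft`, or direct from the
orthogonality `AddChar.sum_mulShift`). For coordinate `i` of `v` and `D l = v (l + 1) i - v l i`:
`D̂ m = (χ m - 1) * û m`, which does not change if a constant is subtracted from `v`; so
`∑ l, D l ^ 2 = (1 / p) ∑ m, |χ m - 1|^2 |û m|^2 ≤ 4 sin (π j / p)^2 * (1 / p) ∑_{m ≠ 0} |û m|^2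
≤ 4 sin (π j / p)^2 ∑ l, (v l i - q i)^2`, because `û m = 0` for `m` not in `{-j, ..., j}` mod `p` (`û (-m)` is the
conjugate of `û m`; every nonzero class mod `p` is `± m` with `1 ≤ m ≤ (p - 1) / 2`, `p` odd) and
`|χ m - 1| = 2 |sin (π m / p)| ≤ 2 sin (π j / p)` for `|m| ≤ j ≤ p / 2` (`2 j < p`). Sum over `i`:
`∑ l, dist (v (l + 1)) (v l) ^ 2 ≤ 4 sin (π j / p)^2 * p * r^2`. Cauchy-Schwarz (`inner_mul_le_norm_mul_norm`
or `sq_sum_le_card_mul_sum_sq`): `(∑ l, dist)^2 ≤ p * ∑ dist^2 ≤ (2 p r sin (π j / p))^2`, and the right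
side is the square of a nonnegative number.
-/

set_option autoImplicit false

open Finset

namespace Pool.Agent.CubeE

private theorem peri_conj {p : ℕ} [NeZero p] (x : ZMod p) :
    (starRingEnd ℂ) (ZMod.stdAddChar x) = ZMod.stdAddChar (-x) :=
  (AddChar.map_neg_eq_conj _ _).symm

private theorem peri_parseval {p : ℕ} [NeZero p] (f : ZMod p → ℂ) :
    ∑ m : ZMod p, ‖∑ l : ZMod p, f l * ZMod.stdAddChar (-(m * l))‖ ^ 2 =
      p * ∑ l : ZMod p, ‖f l‖ ^ 2 := by
  have hc : ∀ z : ℂ, ((‖z‖ ^ 2 : ℝ) : ℂ) = z * (starRingEnd ℂ) z := by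
    intro z
    rw [Complex.mul_conj, Complex.normSq_eq_norm_sq]
  have hmain : ∑ m : ZMod p, (∑ l : ZMod p, f l * ZMod.stdAddChar (-(m * l))) *
      (starRingEnd ℂ) (∑ l : ZMod p, f l * ZMod.stdAddChar (-(m * l))) =
      p * ∑ l : ZMod p, f l * (starRingEnd ℂ) (f l) := by
    calc ∑ m : ZMod p, (∑ l : ZMod p, f l * ZMod.stdAddChar (-(m * l))) *
          (starRingEnd ℂ) (∑ l : ZMod p, f l * ZMod.stdAddChar (-(m * l)))
        = ∑ m : ZMod p, ∑ l : ZMod p, ∑ k : ZMod p,
            f l * (starRingEnd ℂ) (f k) * ZMod.stdAddChar (m * (k - l)) := by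
          refine Finset.sum_congr rfl fun m _ => ?_
          rw [map_sum, Finset.sum_mul_sum]
          refine Finset.sum_congr rfl fun l _ => Finset.sum_congr rfl fun k _ => ?_
          rw [map_mul, peri_conj, neg_neg]
          have : (ZMod.stdAddChar (m * (k - l)) : ℂ) =
              ZMod.stdAddChar (-(m * l)) * ZMod.stdAddChar (m * k) := by
            rw [← AddChar.map_add_eq_mul]
            congr 1
            ring
          rw [this]
          ring
      _ = ∑ l : ZMod p, ∑ k : ZMod p, f l * (starRingEnd ℂ) (f k) *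
            ∑ m : ZMod p, ZMod.stdAddChar (m * (k - l)) := by
          rw [Finset.sum_comm]
          refine Finset.sum_congr rfl fun l _ => ?_
          rw [Finset.sum_comm]
          refine Finset.sum_congr rfl fun k _ => ?_
          rw [Finset.mul_sum]
      _ = ∑ l : ZMod p, f l * (starRingEnd ℂ) (f l) * p := by
          refine Finset.sum_congr rfl fun l _ => ?_
          rw [Finset.sum_eq_single l]
          · rw [AddChar.sum_mulShift _ (ZMod.isPrimitive_stdAddChar p)]
            simp [ZMod.card]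
          · intro k _ hk
            rw [AddChar.sum_mulShift _ (ZMod.isPrimitive_stdAddChar p),
              if_neg (sub_ne_zero.mpr hk)]
            simp
          · intro h
            exact absurd (Finset.mem_univ l) h
      _ = p * ∑ l : ZMod p, f l * (starRingEnd ℂ) (f l) := by
          rw [← Finset.sum_mul, mul_comm]
  have h2 : ((∑ m : ZMod p, ‖∑ l : ZMod p, f l * ZMod.stdAddChar (-(m * l))‖ ^ 2 : ℝ) : ℂ) =
      ((p * ∑ l : ZMod p, ‖f l‖ ^ 2 : ℝ) : ℂ) := by
    rw [Complex.ofReal_sum, Complex.ofReal_mul, Complex.ofReal_sum]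
    simp only [hc]
    rw [hmain]
    simp
  exact_mod_cast h2

private theorem peri_chi {p : ℕ} [NeZero p] (m : ZMod p) {j : ℕ} (hj : 2 * j < p)
    (hm : m.valMinAbs.natAbs ≤ j) :
    ‖(ZMod.stdAddChar m : ℂ) - 1‖ ^ 2 ≤ 4 * Real.sin (Real.pi * j / p) ^ 2 := by
  have hp : (0 : ℝ) < p := by exact_mod_cast Nat.pos_of_ne_zero (NeZero.ne p)
  set a : ℤ := m.valMinAbs with ha
  have h1 : (ZMod.stdAddChar m : ℂ) =
      Complex.exp (Complex.I * ((2 * Real.pi * a / p : ℝ) : ℂ)) := by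
    rw [← ZMod.coe_valMinAbs m, ZMod.stdAddChar_coe]
    congr 1
    push_cast
    ring
  rw [h1, Complex.norm_exp_I_mul_ofReal_sub_one, Real.norm_eq_abs, sq_abs]
  have h2 : 2 * Real.pi * a / p / 2 = Real.pi * a / p := by ring
  rw [h2]
  have h3 : |Real.sin (Real.pi * a / p)| ≤ Real.sin (Real.pi * j / p) := by
    have h4 : |Real.sin (Real.pi * a / p)| = Real.sin (Real.pi * (a.natAbs : ℝ) / p) := by
      have hb : ((a.natAbs : ℕ) : ℝ) = |(a : ℝ)| := by
        rw [Nat.cast_natAbs, Int.cast_abs]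
      have hle : Real.pi * (a.natAbs : ℝ) / p ≤ Real.pi := by
        rw [div_le_iff₀ hp]
        have : (a.natAbs : ℝ) ≤ p := by
          have : a.natAbs ≤ p := by omega
          exact_mod_cast this
        exact mul_le_mul_of_nonneg_left this Real.pi_pos.le
      have hs : 0 ≤ Real.sin (Real.pi * (a.natAbs : ℝ) / p) :=
        Real.sin_nonneg_of_nonneg_of_le_pi (by positivity) hle
      rcases abs_choice (a : ℝ) with h | h
      · rw [hb, h] at hs ⊢
        exact abs_of_nonneg hs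
      · rw [hb, h] at hs ⊢
        have h5 : Real.pi * -(a : ℝ) / p = -(Real.pi * a / p) := by ring
        rw [h5, Real.sin_neg] at hs ⊢
        exact abs_of_nonpos (by linarith)
    rw [h4]
    refine Real.sin_le_sin_of_le_of_le_pi_div_two ?_ ?_ ?_
    · have : 0 ≤ Real.pi * (a.natAbs : ℝ) / p := by positivity
      linarith [Real.pi_pos]
    · rw [div_le_iff₀ hp]
      have : (2 * j : ℝ) ≤ p := by exact_mod_cast hj.le
      nlinarith [Real.pi_pos]
    · have : (a.natAbs : ℝ) ≤ j := by exact_mod_cast hm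
      gcongr
  calc (2 * Real.sin (Real.pi * a / p)) ^ 2 = 4 * |Real.sin (Real.pi * a / p)| ^ 2 := by
        rw [sq_abs]
        ring
    _ ≤ 4 * Real.sin (Real.pi * j / p) ^ 2 := by gcongr

private theorem peri_scalar {p : ℕ} [NeZero p] (hp : Odd p) (u : ZMod p → ℝ) (j : ℕ)
    (hj : 2 * j < p)
    (hF : ∀ m : ℕ, j < m → m ≤ (p - 1) / 2 →
      ∑ l : ZMod p, ((u l : ℝ) : ℂ) * ZMod.stdAddChar (-((m : ZMod p) * l)) = 0) :
    ∑ l : ZMod p, (u (l + 1) - u l) ^ 2 ≤
      4 * Real.sin (Real.pi * j / p) ^ 2 * ∑ l : ZMod p, u l ^ 2 := by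
  have hp0 : (0 : ℝ) < p := by exact_mod_cast Nat.pos_of_ne_zero (NeZero.ne p)
  have hshift : ∀ m : ZMod p,
      ∑ l : ZMod p, ((u (l + 1) - u l : ℝ) : ℂ) * ZMod.stdAddChar (-(m * l)) =
      (ZMod.stdAddChar m - 1) * ∑ l : ZMod p, (u l : ℂ) * ZMod.stdAddChar (-(m * l)) := by
    intro m
    have h1 : ∑ l : ZMod p, (u (l + 1) : ℂ) * ZMod.stdAddChar (-(m * l)) =
        ZMod.stdAddChar m * ∑ l : ZMod p, (u l : ℂ) * ZMod.stdAddChar (-(m * l)) := by
      rw [Finset.mul_sum]
      refine Fintype.sum_equiv (Equiv.addRight (1 : ZMod p)) _ _ fun l => ?_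
      have : (ZMod.stdAddChar (-(m * l)) : ℂ) =
          ZMod.stdAddChar m * ZMod.stdAddChar (-(m * (l + 1))) := by
        rw [← AddChar.map_add_eq_mul]
        congr 1
        ring
      rw [this]
      simp only [Equiv.coe_addRight]
      ring
    rw [sub_mul, ← h1, one_mul, ← Finset.sum_sub_distrib]
    refine Finset.sum_congr rfl fun l _ => ?_
    push_cast
    ring
  have hzero : ∀ m : ZMod p, j < m.valMinAbs.natAbs →
      ∑ l : ZMod p, (u l : ℂ) * ZMod.stdAddChar (-(m * l)) = 0 := by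
    intro m hm
    have hle : m.valMinAbs.natAbs ≤ (p - 1) / 2 := by
      have := ZMod.natAbs_valMinAbs_le m
      obtain ⟨k, hk⟩ := hp
      omega
    have h1 := hF _ hm hle
    rcases le_total 0 m.valMinAbs with h | h
    · have h2 : ((m.valMinAbs.natAbs : ℕ) : ZMod p) = m := by
        conv_rhs => rw [← ZMod.coe_valMinAbs m]
        rw [← Int.cast_natCast, Int.natAbs_of_nonneg h]
      rw [h2] at h1
      exact h1
    · have h2 : ((m.valMinAbs.natAbs : ℕ) : ZMod p) = -m := by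
        conv_rhs => rw [← ZMod.coe_valMinAbs m]
        rw [← Int.cast_natCast, Int.ofNat_natAbs_of_nonpos h]
        push_cast
        rfl
      rw [h2] at h1
      have h3 := congrArg (starRingEnd ℂ) h1
      rw [map_sum, map_zero] at h3
      rw [← h3]
      refine Finset.sum_congr rfl fun l _ => ?_
      rw [map_mul, Complex.conj_ofReal, peri_conj]
      congr 2
      ring
  have hP1 := peri_parseval (fun l : ZMod p => ((u (l + 1) - u l : ℝ) : ℂ))
  have hP2 := peri_parseval (fun l : ZMod p => (u l : ℂ))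
  have hcmp : ∑ m : ZMod p,
      ‖∑ l : ZMod p, ((u (l + 1) - u l : ℝ) : ℂ) * ZMod.stdAddChar (-(m * l))‖ ^ 2 ≤
      4 * Real.sin (Real.pi * j / p) ^ 2 *
        ∑ m : ZMod p, ‖∑ l : ZMod p, (u l : ℂ) * ZMod.stdAddChar (-(m * l))‖ ^ 2 := by
    rw [Finset.mul_sum]
    refine Finset.sum_le_sum fun m _ => ?_
    rw [hshift, norm_mul, mul_pow]
    rcases le_or_gt m.valMinAbs.natAbs j with h | h
    · exact mul_le_mul_of_nonneg_right (peri_chi m hj h) (by positivity)
    · rw [hzero m h]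
      simp
  rw [hP1, hP2] at hcmp
  simp only [Complex.norm_real, Real.norm_eq_abs, sq_abs] at hcmp
  have h5 : (p : ℝ) * ∑ l : ZMod p, (u (l + 1) - u l) ^ 2 ≤
      p * (4 * Real.sin (Real.pi * j / p) ^ 2 * ∑ l : ZMod p, u l ^ 2) := by
    refine hcmp.trans_eq ?_
    ring
  exact le_of_mul_le_mul_left h5 hp0

theorem perimeter {p : ℕ} [NeZero p] (hp : Odd p) {n : ℕ}
    (v : ZMod p → EuclideanSpace ℝ (Fin n)) (q : EuclideanSpace ℝ (Fin n)) {r : ℝ}
    (hv : ∀ l, dist (v l) q ≤ r) (j : ℕ) (hj : 2 * j < p)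
    (hF : ∀ m : ℕ, j < m → m ≤ (p - 1) / 2 → ∀ i : Fin n,
      ∑ l : ZMod p, ((v l i : ℝ) : ℂ) * ZMod.stdAddChar (-((m : ZMod p) * l)) = 0) :
    ∑ l : ZMod p, dist (v (l + 1)) (v l) ≤ 2 * p * r * Real.sin (Real.pi * j / p) := by
  have hp0 : (0 : ℝ) < p := by exact_mod_cast Nat.pos_of_ne_zero (NeZero.ne p)
  have hr : 0 ≤ r := dist_nonneg.trans (hv 0)
  have hs : 0 ≤ Real.sin (Real.pi * j / p) := by
    refine Real.sin_nonneg_of_nonneg_of_le_pi (by positivity) ?_
    rw [div_le_iff₀ hp0]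
    have : (j : ℝ) ≤ p := by
      have : j ≤ p := by omega
      exact_mod_cast this
    exact mul_le_mul_of_nonneg_left this Real.pi_pos.le
  have hcoord : ∀ i : Fin n, ∑ l : ZMod p, (v (l + 1) i - v l i) ^ 2 ≤
      4 * Real.sin (Real.pi * j / p) ^ 2 * ∑ l : ZMod p, (v l i - q i) ^ 2 := by
    intro i
    have h := peri_scalar hp (fun l => v l i - q i) j hj ?_
    · simpa using h
    · intro m hm1 hm2
      have h0 := hF m hm1 hm2 i
      have hm : (m : ZMod p) ≠ 0 := by
        rw [Ne, ZMod.natCast_eq_zero_iff]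
        intro hd
        have h1 : 0 < m := by omega
        have h2 := Nat.le_of_dvd h1 hd
        have h3 : 0 < p := Nat.pos_of_ne_zero (NeZero.ne p)
        omega
      have h1 : ∑ l : ZMod p, (ZMod.stdAddChar (-((m : ZMod p) * l)) : ℂ) = 0 := by
        have h2 := AddChar.sum_mulShift (-(m : ZMod p)) (ZMod.isPrimitive_stdAddChar p)
        rw [if_neg (neg_ne_zero.mpr hm)] at h2
        rw [Nat.cast_zero] at h2
        rw [← h2]
        refine Finset.sum_congr rfl fun l _ => ?_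
        congr 1
        ring
      have h3 : ∑ l : ZMod p, ((v l i - q i : ℝ) : ℂ) * ZMod.stdAddChar (-((m : ZMod p) * l)) =
          ∑ l : ZMod p, ((v l i : ℝ) : ℂ) * ZMod.stdAddChar (-((m : ZMod p) * l)) -
          (q i : ℂ) * ∑ l : ZMod p, (ZMod.stdAddChar (-((m : ZMod p) * l)) : ℂ) := by
        rw [Finset.mul_sum, ← Finset.sum_sub_distrib]
        refine Finset.sum_congr rfl fun l _ => ?_
        push_cast
        ring
      rw [h3, h0, h1]
      simp
  have hsq : ∑ l : ZMod p, dist (v (l + 1)) (v l) ^ 2 ≤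
      4 * Real.sin (Real.pi * j / p) ^ 2 * (p * r ^ 2) := by
    calc ∑ l : ZMod p, dist (v (l + 1)) (v l) ^ 2
        = ∑ i : Fin n, ∑ l : ZMod p, (v (l + 1) i - v l i) ^ 2 := by
          rw [Finset.sum_comm]
          refine Finset.sum_congr rfl fun l _ => ?_
          rw [EuclideanSpace.dist_sq_eq]
          simp [Real.dist_eq, sq_abs]
      _ ≤ ∑ i : Fin n, 4 * Real.sin (Real.pi * j / p) ^ 2 * ∑ l : ZMod p, (v l i - q i) ^ 2 :=
          Finset.sum_le_sum fun i _ => hcoord i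
      _ = 4 * Real.sin (Real.pi * j / p) ^ 2 * ∑ l : ZMod p, dist (v l) q ^ 2 := by
          rw [← Finset.mul_sum, Finset.sum_comm]
          congr 1
          refine Finset.sum_congr rfl fun l _ => ?_
          rw [EuclideanSpace.dist_sq_eq]
          simp [Real.dist_eq, sq_abs]
      _ ≤ 4 * Real.sin (Real.pi * j / p) ^ 2 * ∑ _l : ZMod p, r ^ 2 := by
          refine mul_le_mul_of_nonneg_left (Finset.sum_le_sum fun l _ => ?_) (by positivity)
          exact pow_le_pow_left₀ dist_nonneg (hv l) 2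
      _ = 4 * Real.sin (Real.pi * j / p) ^ 2 * (p * r ^ 2) := by
          simp [ZMod.card]
  have hcs := sq_sum_le_card_mul_sum_sq (s := (Finset.univ : Finset (ZMod p)))
    (f := fun l => dist (v (l + 1)) (v l))
  rw [Finset.card_univ, ZMod.card] at hcs
  have hfin : (∑ l : ZMod p, dist (v (l + 1)) (v l)) ^ 2 ≤
      (2 * p * r * Real.sin (Real.pi * j / p)) ^ 2 := by
    refine hcs.trans ?_
    calc (p : ℝ) * ∑ l : ZMod p, dist (v (l + 1)) (v l) ^ 2
        ≤ p * (4 * Real.sin (Real.pi * j / p) ^ 2 * (p * r ^ 2)) :=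
          mul_le_mul_of_nonneg_left hsq hp0.le
      _ = (2 * p * r * Real.sin (Real.pi * j / p)) ^ 2 := by ring
  exact (le_abs_self _).trans (abs_le_of_sq_le_sq hfin (by positivity))

end Pool.Agent.CubeE
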