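import Pool.Agent.CubeE.Symm
import Pool.Agent.CubeE.Corner

/-!
# MP_c0b923_gt, package Sel: equivariant choice of labels

PROOF. For `v ∈ I` choose `lam v` by rule A (possible: `ι` is finite and nonempty; `G v = c • v` gives
the first two properties). For `v ∉ I`: the permutation `S = actV τ` of the lattice points satisfies
`S ^ p = 1`; if `S v ≠ v` then `S ^ a v = S ^ b v` only for `a ≡ b` mod `p` (`p` prime). Choose a
representative `w` of the orbit of `v` (`Quotient.out` for the relation: same `S`-orbit), a label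
`lam0 w` of `w` (an argmax of `G w` if the maximum is `≥ 0`, otherwise `none`), and put
`lam v = (lam0 w).map (τ ^ k)` where `v = S ^ k w` (`k` is unique mod `p` and `τ ^ p = 1`). The label
conditions at `v` follow from those at `w` by `hG`. For `S v = v`, `v ∉ I` take any label.
Note that `v ∉ I` gives `S v ∉ I` (apply `hI` `p - 1` times to `S v`).
-/

set_option autoImplicit false

open Finset

namespace Pool.Agent.CubeE

variable {ι : Type} {d : ℕ}

private theorem sel_mul (σ τ : Equiv.Perm ι) (v : ι → ℤ) : actV (σ * τ) v = actV σ (actV τ v) :=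
  rfl

private theorem sel_one (v : ι → ℤ) : actV 1 v = v := rfl

private theorem sel_succ (τ : Equiv.Perm ι) (n : ℕ) (v : ι → ℤ) :
    actV (τ ^ (n + 1)) v = actV τ (actV (τ ^ n) v) := by
  rw [pow_succ', sel_mul]

private theorem sel_G {τ : Equiv.Perm ι} {G : (ι → ℤ) → ι → ℝ}
    (hG : ∀ v i, G (actV τ v) i = G v (τ.symm i)) (n : ℕ) (v : ι → ℤ) (i : ι) :
    G (actV (τ ^ n) v) i = G v ((τ ^ n).symm i) := by
  induction n generalizing i with
  | zero => rfl
  | succ n ih =>
    rw [sel_succ, hG, ih]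
    rfl

private theorem sel_fix {τ : Equiv.Perm ι} {v : ι → ℤ} (h : actV τ v = v) (n : ℕ) :
    actV (τ ^ n) v = v := by
  induction n with
  | zero => rfl
  | succ n ih => rw [sel_succ, ih, h]

/-- if a power of `τ`, prime to `p`, fixes `v` then `τ` fixes `v` -/
private theorem sel_cop {p : ℕ} (hp : p.Prime) {τ : Equiv.Perm ι} (hτ : τ ^ p = 1)
    {w : ι → ℤ} (hw : actV τ w ≠ w) {n : ℕ} (h : actV (τ ^ n) w = w) : p ∣ n := by
  by_contra hn
  have hc : Nat.Coprime n p := ((Nat.Prime.coprime_iff_not_dvd hp).2 hn).symm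
  obtain ⟨m, -, hm⟩ := Nat.exists_mul_mod_eq_one_of_coprime hc hp.one_lt
  apply hw
  have h1 : τ ^ (n * m) = τ := by
    have h2 : n * m = p * (n * m / p) + 1 := by
      have h3 := Nat.div_add_mod (n * m) p
      rw [hm] at h3
      exact h3.symm
    rw [h2, pow_succ, pow_mul, hτ, one_pow, one_mul]
  have h2 := sel_fix h m
  rw [← pow_mul, h1] at h2
  exact h2

private theorem sel_uniq {p : ℕ} (hp : p.Prime) {τ : Equiv.Perm ι} (hτ : τ ^ p = 1)
    {w : ι → ℤ} (hw : actV τ w ≠ w) {a b : ℕ} (h : actV (τ ^ a) w = actV (τ ^ b) w) :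
    τ ^ a = τ ^ b := by
  -- `a + (p - 1) b ≡ 0`
  have h1 : actV (τ ^ ((p - 1) * b + a)) w = w := by
    rw [pow_add, sel_mul, h, ← sel_mul, ← pow_add]
    have h2 : (p - 1) * b + b = p * b := by
      have := hp.one_le
      obtain ⟨q, rfl⟩ : ∃ q, p = q + 1 := ⟨p - 1, by omega⟩
      rw [Nat.add_sub_cancel]
      ring
    rw [h2, pow_mul, hτ, one_pow, sel_one]
  obtain ⟨c, hc⟩ := sel_cop hp hτ hw h1
  have h3 : τ ^ ((p - 1) * b + a) = 1 := by rw [hc, pow_mul, hτ, one_pow]
  have h4 : τ ^ ((p - 1) * b + b) = 1 := by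
    have h2 : (p - 1) * b + b = p * b := by
      have := hp.one_le
      obtain ⟨q, rfl⟩ : ∃ q, p = q + 1 := ⟨p - 1, by omega⟩
      rw [Nat.add_sub_cancel]
      ring
    rw [h2, pow_mul, hτ, one_pow]
  rw [pow_add] at h3 h4
  exact mul_left_cancel (h3.trans h4.symm)

/-- a label at one point -/
private theorem sel_lab (e : Fin (d + 1) ≃ ι) (g : ι → ℝ) : ∃ o : Option ι,
    (o = none → ∀ i, g i ≤ 0) ∧ ∀ i, o = some i → 0 ≤ g i ∧ ∀ i', g i' ≤ g i := by
  have : Finite ι := Finite.of_equiv _ e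
  have : Nonempty ι := ⟨e 0⟩
  obtain ⟨i, hi⟩ := Finite.exists_max g
  by_cases h : 0 ≤ g i
  · refine ⟨some i, fun h1 => absurd h1 (by simp), fun j hj => ?_⟩
    rw [Option.some_inj] at hj
    subst hj
    exact ⟨h, hi⟩
  · exact ⟨none, fun _ j => (hi j).trans (not_le.1 h).le, fun j hj => absurd hj (by simp)⟩

/-- rule A at one point -/
private theorem sel_rule (e : Fin (d + 1) ≃ ι) (v : ι → ℤ) : ∃ o : Option ι,
    ((∀ i, v i ≤ 0) → o = none) ∧
    ((∃ i, 0 < v i) → ∃ i, o = some i ∧ (∀ i', v i' ≤ v i) ∧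
      ∀ i', v i' = v i → e.symm i ≤ e.symm i') := by
  have : Finite ι := Finite.of_equiv _ e
  have : Nonempty ι := ⟨e 0⟩
  by_cases h : ∀ i, v i ≤ 0
  · refine ⟨none, fun _ => rfl, fun ⟨i, hi⟩ => absurd (h i) (not_le.2 hi)⟩
  obtain ⟨i₀, hi₀⟩ := Finite.exists_max v
  let P : Fin (d + 1) → Prop := fun j => v (e j) = v i₀
  classical
  have hne : (univ.filter P).Nonempty := ⟨e.symm i₀, by simp [P]⟩
  obtain ⟨j, hj, hmin⟩ := Finset.exists_min_image (univ.filter P) id hne
  rw [mem_filter] at hj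
  have hj2 : v (e j) = v i₀ := hj.2
  refine ⟨some (e j), fun h1 => absurd h1 h, fun _ => ⟨e j, rfl, fun i' => ?_, fun i' hi' => ?_⟩⟩
  · rw [hj2]
    exact hi₀ i'
  · rw [Equiv.symm_apply_apply]
    refine hmin (e.symm i') ?_
    rw [mem_filter]
    refine ⟨mem_univ _, ?_⟩
    change v (e (e.symm i')) = v i₀
    rw [Equiv.apply_symm_apply, hi', hj2]

theorem exists_lab {p : ℕ} (hp : p.Prime) (τ : Equiv.Perm ι) (hτ : τ ^ p = 1)
    (e : Fin (d + 1) ≃ ι) (G : (ι → ℤ) → ι → ℝ)
    (hG : ∀ v i, G (actV τ v) i = G v (τ.symm i)) (I : Set (ι → ℤ))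
    (hI : ∀ v ∈ I, actV τ v ∈ I) (c : ℝ) (hc : 0 < c) (hGI : ∀ v ∈ I, ∀ i, G v i = c * v i) :
    ∃ lam : (ι → ℤ) → Option ι,
      (∀ v, lam v = none → ∀ i, G v i ≤ 0) ∧
      (∀ v i, lam v = some i → 0 ≤ G v i ∧ ∀ i', G v i' ≤ G v i) ∧
      (∀ v ∈ I, RuleA e lam v) ∧
      (∀ v ∉ I, actV τ v ≠ v → lam (actV τ v) = (lam v).map τ) := by
  classical
  choose lamA hA1 hA2 using sel_rule e
  choose lam0 h01 h02 using fun w => sel_lab e (G w)
  -- orbits
  let r : (ι → ℤ) → (ι → ℤ) → Prop := fun w v => ∃ n : ℕ, actV (τ ^ n) w = v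
  have hrefl : ∀ v, r v v := fun v => ⟨0, rfl⟩
  have htrans : ∀ {u v w}, r u v → r v w → r u w := by
    rintro u v w ⟨m, rfl⟩ ⟨n, rfl⟩
    exact ⟨n + m, by rw [pow_add, sel_mul]⟩
  have hsymm : ∀ {v w}, r v w → r w v := by
    rintro v w ⟨n, rfl⟩
    refine ⟨(p - 1) * n, ?_⟩
    have := hp.one_le
    obtain ⟨q, rfl⟩ : ∃ q, p = q + 1 := ⟨p - 1, by omega⟩
    rw [← sel_mul, ← pow_add, Nat.add_sub_cancel]
    have h2 : q * n + n = (q + 1) * n := by ring
    rw [h2, pow_mul, hτ, one_pow, sel_one]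
  let st : Setoid (ι → ℤ) := ⟨r, hrefl, hsymm, htrans⟩
  let rep : (ι → ℤ) → (ι → ℤ) := fun v => (Quotient.mk st v).out
  have hrep : ∀ v, r (rep v) v := fun v => Quotient.mk_out (s := st) v
  have hrepS : ∀ v, rep (actV τ v) = rep v := by
    intro v
    have h1 : Quotient.mk st (actV τ v) = Quotient.mk st v :=
      Quotient.sound (s := st) (hsymm ⟨1, by rw [pow_one]⟩)
    simp only [rep, h1]
  choose κ hκ using hrep
  let lam : (ι → ℤ) → Option ι := fun v =>
    if v ∈ I then lamA v else (lam0 (rep v)).map (τ ^ κ v)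
  have hlI : ∀ v ∈ I, lam v = lamA v := fun v hv => if_pos hv
  have hlN : ∀ v ∉ I, lam v = (lam0 (rep v)).map (τ ^ κ v) := fun v hv => if_neg hv
  -- the complement of `I` is stable
  have hIn : ∀ v ∈ I, ∀ n : ℕ, actV (τ ^ n) v ∈ I := by
    intro v hv n
    induction n with
    | zero => exact hv
    | succ n ih =>
      rw [sel_succ]
      exact hI _ ih
  have hIc : ∀ v ∉ I, actV τ v ∉ I := by
    intro v hv h
    apply hv
    have h1 := hIn _ h (p - 1)
    rw [← sel_mul, ← pow_succ, Nat.sub_add_cancel hp.one_le, hτ, sel_one] at h1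
    exact h1
  have hGv : ∀ v i, G v i = G (rep v) ((τ ^ κ v).symm i) := by
    intro v i
    conv_lhs => rw [← hκ v]
    exact sel_G hG _ _ _
  refine ⟨lam, ?_, ?_, ?_, ?_⟩
  · intro v hv i
    by_cases hvI : v ∈ I
    · rw [hlI v hvI] at hv
      have h1 : v i ≤ 0 := by
        by_contra h2
        obtain ⟨j, hj, -⟩ := hA2 v ⟨i, not_le.1 h2⟩
        rw [hv] at hj
        exact absurd hj (by simp)
      rw [hGI v hvI]
      have h2 : (v i : ℝ) ≤ 0 := by exact_mod_cast h1
      exact mul_nonpos_of_nonneg_of_nonpos hc.le h2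
    · rw [hlN v hvI, Option.map_eq_none_iff] at hv
      rw [hGv]
      exact h01 _ hv _
  · intro v i hv
    by_cases hvI : v ∈ I
    · rw [hlI v hvI] at hv
      have h0 : ∃ j, 0 < v j := by
        by_contra h2
        push Not at h2
        rw [hA1 v h2] at hv
        exact absurd hv (by simp)
      obtain ⟨j, hj, hmax, -⟩ := hA2 v h0
      rw [hv, Option.some_inj] at hj
      subst hj
      obtain ⟨j', hj'⟩ := h0
      have h3 : 0 < v i := lt_of_lt_of_le hj' (hmax j')
      refine ⟨?_, fun i' => ?_⟩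
      · rw [hGI v hvI]
        have h4 : (0 : ℝ) < v i := by exact_mod_cast h3
        exact (mul_pos hc h4).le
      · rw [hGI v hvI, hGI v hvI]
        have h4 : (v i' : ℝ) ≤ v i := by exact_mod_cast hmax i'
        exact mul_le_mul_of_nonneg_left h4 hc.le
    · rw [hlN v hvI, Option.map_eq_some_iff] at hv
      obtain ⟨j, hj, rfl⟩ := hv
      obtain ⟨h1, h2⟩ := h02 _ j hj
      have h3 : (τ ^ κ v).symm ((τ ^ κ v) j) = j := Equiv.symm_apply_apply _ _
      refine ⟨?_, fun i' => ?_⟩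
      · rw [hGv, h3]
        exact h1
      · rw [hGv v i', hGv v, h3]
        exact h2 _
  · intro v hv
    unfold RuleA
    rw [hlI v hv]
    exact ⟨hA1 v, hA2 v⟩
  · intro v hv hne
    rw [hlN _ (hIc v hv), hlN v hv, hrepS, Option.map_map]
    congr 1
    have hw : actV τ (rep v) ≠ rep v := by
      intro h
      apply hne
      have h1 := sel_fix h (κ v)
      rw [hκ v] at h1
      rw [h1, h]
    have h1 : actV (τ ^ κ (actV τ v)) (rep v) = actV (τ ^ (κ v + 1)) (rep v) := by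
      rw [sel_succ, hκ v]
      have h2 := hκ (actV τ v)
      rw [hrepS] at h2
      exact h2
    have h2 := sel_uniq hp hτ hw h1
    rw [h2, pow_succ']
    rfl

end Pool.Agent.CubeE
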