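import Pool.Agent.CubeE.Kuhn

/-!
# MP_c0b923_gt, package Symm: invariant families of simplices

`τ` is a permutation of the coordinates of prime order `p` without fixed points. It acts on lattice
points by `v ↦ v ∘ τ⁻¹` and on simplices by `act τ`.

PROOF of `symm_dvd`. `vtx (act τ s) j i = vtx s j (τ⁻¹ i)`. So for `s ∈ C` the label vector of
`act τ s` is `j ↦ E ((lam (vtx s j)).map τ)`, i.e. the permutation `E ∘ (Option.map τ) ∘ E⁻¹` of
`Fin (d + 2)` applied to the label vector of `s`; its sign is the sign of `τ`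
(`Equiv.optionCongr`, `Equiv.optionCongr_sign`, `Equiv.Perm.sign_permCongr`). Also
`sg e (s.2.trans τ) = sign τ * sg e s.2`. So the summand is invariant under `act τ` on `C`. `act τ`
has order `p` on simplices and no fixed point (`s.2.trans τ = s.2` gives `τ = 1`; `ι` is nonempty
as `Fin (d + 1) ≃ ι`). The summand takes the values `0, 1, -1` (`hlab_bij`, `bijective_of_hlab`), and
for `c = 1, -1` the set `{s ∈ C | summand = c}` is invariant, so its cardinality is divisible by
`p` (for instance `Equiv.Perm.card_fixedPoints_modEq`).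
-/

set_option autoImplicit false

open Finset

namespace Pool.Agent.CubeE

variable {ι : Type} {d : ℕ}

/-- action on lattice points -/
def actV (τ : Equiv.Perm ι) (v : ι → ℤ) : ι → ℤ := fun i => v (τ.symm i)

/-- action on simplices -/
def act (τ : Equiv.Perm ι) (s : (ι → ℤ) × (Fin (d + 1) ≃ ι)) : (ι → ℤ) × (Fin (d + 1) ≃ ι) :=
  (actV τ s.1, s.2.trans τ)

theorem vtx_act (τ : Equiv.Perm ι) (s : (ι → ℤ) × (Fin (d + 1) ≃ ι)) (j : Fin (d + 2)) :
    vtx (act τ s) j = actV τ (vtx s j) := by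
  funext i
  simp [vtx, act, actV]

/-- the action as a permutation of the set of simplices -/
private def symmPerm (τ : Equiv.Perm ι) : Equiv.Perm ((ι → ℤ) × (Fin (d + 1) ≃ ι)) where
  toFun := act τ
  invFun := act τ.symm
  left_inv := by
    intro s
    refine Prod.ext ?_ ?_
    · funext i
      simp [act, actV]
    · ext x
      simp [act]
  right_inv := by
    intro s
    refine Prod.ext ?_ ?_
    · funext i
      simp [act, actV]
    · ext x
      simp [act]

private theorem symmPerm_apply (τ : Equiv.Perm ι) (s : (ι → ℤ) × (Fin (d + 1) ≃ ι)) :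
    symmPerm τ s = act τ s := rfl

private theorem symmPerm_one : (symmPerm (1 : Equiv.Perm ι) :
    Equiv.Perm ((ι → ℤ) × (Fin (d + 1) ≃ ι))) = 1 := by
  apply Equiv.ext
  intro s
  refine Prod.ext ?_ ?_
  · funext i
    rfl
  · ext x
    rfl

private theorem symmPerm_mul (σ τ : Equiv.Perm ι) : (symmPerm (σ * τ) :
    Equiv.Perm ((ι → ℤ) × (Fin (d + 1) ≃ ι))) = symmPerm σ * symmPerm τ := by
  apply Equiv.ext
  intro s
  refine Prod.ext ?_ ?_
  · funext i
    rfl
  · ext x
    rfl

private theorem symmPerm_pow (τ : Equiv.Perm ι) (k : ℕ) : (symmPerm (τ ^ k) :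
    Equiv.Perm ((ι → ℤ) × (Fin (d + 1) ≃ ι))) = symmPerm τ ^ k := by
  induction k with
  | zero => simpa using symmPerm_one
  | succ k ih => rw [pow_succ, pow_succ, symmPerm_mul, ih]

private theorem symm_card {α : Type} {p : ℕ} (hp : p.Prime) (T : Equiv.Perm α)
    (hT : T ^ p = 1) (D : Finset α) (hD : ∀ s ∈ D, T s ∈ D) (hf : ∀ s ∈ D, T s ≠ s) :
    p ∣ D.card := by
  classical
  have : Fact p.Prime := ⟨hp⟩
  have hpow : ∀ k : ℕ, ∀ s ∈ D, (T ^ k) s ∈ D := by
    intro k
    induction k with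
    | zero => intro s hs; simpa using hs
    | succ k ih =>
      intro s hs
      rw [pow_succ', Equiv.Perm.mul_apply]
      exact hD _ (ih s hs)
  have hiff : ∀ s, T s ∈ D ↔ s ∈ D := by
    intro s
    constructor
    · intro h
      have h1 := hpow (p - 1) _ h
      rw [← Equiv.Perm.mul_apply, ← pow_succ, Nat.sub_add_cancel hp.one_lt.le, hT] at h1
      simpa using h1
    · exact hD s
  by_contra hcon
  have hσ : (T.subtypePerm hiff : Equiv.Perm {x // x ∈ D}) ^ p ^ 1 = 1 := by
    rw [pow_one, Equiv.Perm.subtypePerm_pow]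
    apply Equiv.ext
    intro x
    apply Subtype.ext
    change (T ^ p) x.1 = x.1
    rw [hT]
    rfl
  obtain ⟨x, hx⟩ := Equiv.Perm.exists_fixed_point_of_prime
    (by rw [Fintype.card_coe]; exact hcon) hσ
  exact hf x.1 x.2 (by simpa using congrArg Subtype.val hx)

private theorem symm_sum {α : Type} {p : ℕ} (hp : p.Prime) (T : Equiv.Perm α)
    (hT : T ^ p = 1) (C : Finset α) (hC : ∀ s ∈ C, T s ∈ C) (hf : ∀ s ∈ C, T s ≠ s)
    (F : α → ℤ) (hF : ∀ s ∈ C, F (T s) = F s) : (p : ℤ) ∣ ∑ s ∈ C, F s := by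
  classical
  rw [← Finset.sum_fiberwise_of_maps_to (s := C) (t := C.image F) (g := F)
    (fun s hs => Finset.mem_image_of_mem F hs)]
  refine Finset.dvd_sum fun c _ => ?_
  have h1 : ∑ s ∈ C with F s = c, F s = ((C.filter fun s => F s = c).card : ℤ) * c := by
    rw [Finset.sum_congr rfl (g := fun _ => c) (fun s hs => (Finset.mem_filter.1 hs).2),
      Finset.sum_const, nsmul_eq_mul]
  rw [h1]
  refine Dvd.dvd.mul_right ?_ c
  have h2 : p ∣ (C.filter fun s => F s = c).card := by
    refine symm_card hp T hT _ ?_ ?_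
    · intro s hs
      obtain ⟨hs1, hs2⟩ := Finset.mem_filter.1 hs
      exact Finset.mem_filter.2 ⟨hC s hs1, by rw [hF s hs1]; exact hs2⟩
    · intro s hs
      exact hf s (Finset.mem_filter.1 hs).1
  exact_mod_cast h2

theorem symm_dvd {p : ℕ} (hp : p.Prime) (τ : Equiv.Perm ι) (hτ : τ ^ p = 1) (hfix : ∀ i, τ i ≠ i)
    (e : Fin (d + 1) ≃ ι) (E : Option ι ≃ Fin (d + 2)) (lam : (ι → ℤ) → Option ι)
    (C : Finset ((ι → ℤ) × (Fin (d + 1) ≃ ι))) (hC : ∀ s ∈ C, act τ s ∈ C)
    (hl : ∀ s ∈ C, ∀ j, lam (actV τ (vtx s j)) = (lam (vtx s j)).map τ) :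
    (p : ℤ) ∣ ∑ s ∈ C, sg e s.2 * hlab ((fun v => E (lam v)) ∘ vtx s) := by
  classical
  let _ : Fintype ι := Fintype.ofEquiv _ e
  refine symm_sum hp (symmPerm τ) ?_ C hC ?_ _ ?_
  · rw [← symmPerm_pow, hτ, symmPerm_one]
  · intro s _ h
    have h1 : (act τ s).2 = s.2 := congrArg Prod.snd h
    exact hfix (s.2 0) (by simpa [act] using congrArg (fun g => g 0) h1)
  · intro s hs
    rw [symmPerm_apply]
    have hlabs : (fun v => E (lam v)) ∘ vtx (act τ s)
        = ((E.symm.trans (Equiv.optionCongr τ)).trans E) ∘ ((fun v => E (lam v)) ∘ vtx s) := by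
      funext j
      simp only [Function.comp_apply, Equiv.trans_apply, Equiv.symm_apply_apply,
        Equiv.optionCongr_apply]
      rw [vtx_act, hl s hs j]
    have hsgn : Equiv.Perm.sign ((E.symm.trans (Equiv.optionCongr τ)).trans E)
        = Equiv.Perm.sign τ := by
      rw [Equiv.Perm.sign_symm_trans_trans, Equiv.optionCongr_sign]
    have hsg : sg e (act τ s).2 = (Equiv.Perm.sign τ : ℤ) * sg e s.2 := by
      unfold sg
      have h1 : (act τ s).2.trans e.symm
          = ((e.trans τ).trans e.symm) * (s.2.trans e.symm) := by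
        apply Equiv.ext
        intro x
        simp [act]
      rw [h1, Equiv.Perm.sign_mul, Equiv.Perm.sign_trans_trans_symm]
      push_cast
      rfl
    rw [hlabs, hlab_perm, hsgn, hsg]
    have h2 : (Equiv.Perm.sign τ : ℤ) * (Equiv.Perm.sign τ : ℤ) = 1 := by
      rcases Int.units_eq_one_or (Equiv.Perm.sign τ) with h | h <;> simp [h]
    calc (Equiv.Perm.sign τ : ℤ) * sg e s.2 *
        ((Equiv.Perm.sign τ : ℤ) * hlab ((fun v => E (lam v)) ∘ vtx s))
        = ((Equiv.Perm.sign τ : ℤ) * (Equiv.Perm.sign τ : ℤ)) *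
          (sg e s.2 * hlab ((fun v => E (lam v)) ∘ vtx s)) := by ring
      _ = _ := by rw [h2, one_mul]

end Pool.Agent.CubeE
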