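import Pool.Agent.CubeE.Fun
import Pool.Agent.CubeE.Peri
import Pool.Agent.CubeE.Vand

/-!
# MP_c0b923_gt, package Zero: no common zero on the frontier

PROOF of `no_zero`. (Part E of /team-store/CUBE.md.) Write `M = p * N`, `u i = uu f N a x i` (`M`-periodic by
`YY_periodic`, `|u i k| ≤ a` by `YY_abs`), `P = ∑ l, dist (f (x (l + 1))) (f (x l))`.
(1) `hF2` gives the vanishing Fourier coefficients of `v l = f (x l)` (a power is zero only if the base
is zero), so `perimeter` gives `P ≤ 2 p r sin (π j / p)`; `p` is odd; `dist (v l) q ≤ r` by `YY_vertex`,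
`H.hr`. By `sum_YY`: `∑_{k<M} dist (YY (k+1)) (YY k) ≤ P`.
(2) `A i = Nat.findGreatest (fun m => ∃ c, b < c ∧ Alt M c m (u i)) p`. If `m ≥ 1` and `∃ c, b < c ∧ Alt M c m
(u i)` then `4 m b ≤ ∑_{k<M} |u i (k+1) - u i k|` (`alt_mono_c`, `alt_tv`) `≤ ∑_k dist ≤ P < 4 b p`, so `m < p`
and `m ≤ A i`; in particular `A i < p` and `¬ ∃ c, b < c ∧ Alt M c (A i + 1) (u i)`.
(3) `∑ i, 4 b A i ≤ ∑ i ∑_k |u i (k+1) - u i k| ≤ √n ∑_k dist (YY (k+1)) (YY k) ≤ √n P < 4 b n j` (Cauchy-Schwarz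
`∑ i, |y i| ≤ √n ‖y‖` for each `k`), so `∑ A i < n j`, `∑ A i ≤ n j - 1`.
(4) Put `B (i, m') = bt f N a b (m' + 1) i x` for `(i, m') ∈ Fin n × Fin (p - 1)`. If `B (i, m') ≠ 0` then
`bet M b (m'+1) (u i) ≠ 0`, so `> 0` (`bet_nonneg`), `bet_pos`, `m' + 1 ≤ A i`. So at most `∑ A i` entries are
nonzero.
(5) `frontier_UU`: `|u i k| = a > b` for some `i, k`; with `hbal` and `bal_iff` there are `k, k'` with
`b < u i k`, `u i k' < -b`. `four` with `A = A i` gives `1 ≤ m ≤ A i < p` with `cc M b m (u i) ≠ 0`, and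
`bet M b m (u i) > 0` by `alt_anti`, `bet_pos`. So `B (i, m - 1) ≠ 0`.
(6) `vand_ne` with `node` and `K = n j - 1` contradicts `hF1`.
-/

set_option autoImplicit false

open Finset

namespace Pool.Agent.CubeE

open Pool.Agent.Expand

private theorem zero_l1 {n : ℕ} (y : EuclideanSpace ℝ (Fin n)) :
    ∑ i, |y i| ≤ Real.sqrt n * ‖y‖ := by
  have h1 := sq_sum_le_card_mul_sum_sq (s := (Finset.univ : Finset (Fin n)))
    (f := fun i => |y i|)
  rw [Finset.card_univ, Fintype.card_fin] at h1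
  have h2 : ‖y‖ ^ 2 = ∑ i, |y i| ^ 2 := by
    rw [EuclideanSpace.norm_sq_eq]
    simp [Real.norm_eq_abs]
  rw [← h2] at h1
  have h3 : (Real.sqrt n * ‖y‖) ^ 2 = n * ‖y‖ ^ 2 := by
    rw [mul_pow, Real.sq_sqrt (Nat.cast_nonneg n)]
  rw [← h3] at h1
  exact (le_abs_self _).trans (abs_le_of_sq_le_sq h1 (by positivity))

private theorem zero_apply_le {n : ℕ} (y z : EuclideanSpace ℝ (Fin n)) (i : Fin n) :
    |y i - z i| ≤ dist y z := by
  rw [dist_eq_norm]
  have := PiLp.norm_apply_le (y - z) i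
  simpa [Real.norm_eq_abs] using this

private theorem zero_card {n q : ℕ} (A : Fin n → ℕ) (S : Set (Fin n × Fin q))
    (hS : ∀ t ∈ S, (t.2 : ℕ) + 1 ≤ A t.1) : Set.ncard S ≤ ∑ i, A i := by
  classical
  have h1 : S ⊆ ((Finset.univ.filter fun t : Fin n × Fin q => (t.2 : ℕ) + 1 ≤ A t.1 :
      Finset (Fin n × Fin q)) : Set (Fin n × Fin q)) := by
    intro t ht
    simpa using hS t ht
  refine (Set.ncard_le_ncard h1 (Finset.finite_toSet _)).trans ?_
  rw [Set.ncard_coe_finset, Finset.card_filter, Fintype.sum_prod_type]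
  refine Finset.sum_le_sum fun i _ => ?_
  rw [← Finset.card_filter]
  have h2 : (Finset.univ.filter fun m : Fin q => (m : ℕ) + 1 ≤ A i).card ≤
      (Finset.range (A i)).card := by
    refine Finset.card_le_card_of_injOn (fun m => (m : ℕ)) ?_ ?_
    · intro m hm
      have : (m : ℕ) + 1 ≤ A i := by simpa using hm
      simp only [Finset.coe_range, Set.mem_Iio]
      omega
    · intro m _ m' _ h
      exact Fin.ext h
  rwa [Finset.card_range] at h2

theorem no_zero {n p : ℕ} [Fact p.Prime] (hp2 : p ≠ 2)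
    {f : EuclideanSpace ℝ (Fin n) → EuclideanSpace ℝ (Fin n)} {N : ℕ} {a δ r : ℝ}
    {q : EuclideanSpace ℝ (Fin n)} (H : Hyp f N a δ r q) {b : ℝ} (hb : 0 < b) (hba : b < a)
    {j : ℕ} (hj1 : 1 ≤ j) (hj2 : 2 * j < p)
    (hC1 : 2 * p * r * Real.sin (Real.pi * j / p) < 4 * b * p)
    (hC2 : Real.sqrt n * (2 * p * r * Real.sin (Real.pi * j / p)) < 4 * b * n * j)
    (node : Fin n × Fin (p - 1) → ℂ) (hnode : Function.Injective node)
    {x : ZMod p → EuclideanSpace ℝ (Fin n)} (hx : x ∈ frontier (UU p f N a))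
    (hbal : ∀ i, bal (p * N) (uu f N a x i) = 0)
    (hF1 : ∀ s < n * j - 1, ∑ t : Fin n × Fin (p - 1), node t ^ s *
      bt f N a b ((t.2 : ℕ) + 1) t.1 x = 0)
    (hF2 : ∀ m : ℕ, j < m → m ≤ (p - 1) / 2 → ∀ i : Fin n, fam2 f m i x = 0) : False := by
  classical
  have hpp : p.Prime := Fact.out
  have hxc : x ∈ closure (UU p f N a) := frontier_subset_closure hx
  have hM : 0 < p * N := Nat.mul_pos hpp.pos H.hN0
  have hp0 : (0 : ℝ) < p := by exact_mod_cast hpp.pos
  have hodd : Odd p := hpp.odd_of_ne_two hp2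
  have hper : ∀ i k, uu f N a x i (k + (p * N : ℕ)) = uu f N a x i k := by
    intro i k
    unfold uu
    rw [YY_periodic H x k]
  have habs : ∀ i k, |uu f N a x i k| ≤ a := fun i k => YY_abs H hxc k i
  have hcube : ∀ l, x l ∈ cube n := fun l i => (YY_vertex H hxc l i).trans H.ha1.le
  have hPP : ∑ l : ZMod p, dist (f (x (l + 1))) (f (x l)) ≤
      2 * p * r * Real.sin (Real.pi * j / p) := by
    refine perimeter hodd (fun l => f (x l)) q (fun l => H.hr _ (hcube l)) j hj2 ?_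
    intro m hm1 hm2 i
    exact eq_zero_of_pow_eq_zero (hF2 m hm1 hm2 i)
  obtain ⟨PP, hPPd⟩ : ∃ PP : ℝ, PP = 2 * p * r * Real.sin (Real.pi * j / p) := ⟨_, rfl⟩
  rw [← hPPd] at hPP hC1 hC2
  have hD := (sum_YY H hxc).trans hPP
  have hTV : ∀ i, ∑ k ∈ range (p * N), |uu f N a x i ((k : ℤ) + 1) - uu f N a x i k| ≤ PP := by
    intro i
    refine le_trans (Finset.sum_le_sum fun k _ => ?_) hD
    exact zero_apply_le _ _ i
  have hTVs : ∑ i, ∑ k ∈ range (p * N), |uu f N a x i ((k : ℤ) + 1) - uu f N a x i k| ≤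
      Real.sqrt n * PP := by
    rw [Finset.sum_comm]
    refine le_trans ?_ (mul_le_mul_of_nonneg_left hD (Real.sqrt_nonneg _))
    rw [Finset.mul_sum]
    refine Finset.sum_le_sum fun k _ => ?_
    rw [dist_eq_norm]
    have := zero_l1 (YY f N a x ((k : ℤ) + 1) - YY f N a x k)
    simpa [uu] using this
  set P : Fin n → ℕ → Prop := fun i m => ∃ c, b < c ∧ Alt (p * N) c m (uu f N a x i) with hPdef
  have hPtv : ∀ i m, 1 ≤ m → P i m → 4 * (m : ℝ) * b ≤
      ∑ k ∈ range (p * N), |uu f N a x i ((k : ℤ) + 1) - uu f N a x i k| := by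
    intro i m hm ⟨c, hc, halt⟩
    exact alt_tv hm (hper i) (alt_mono_c halt hc.le)
  have hPlt : ∀ i m, 1 ≤ m → P i m → m < p := by
    intro i m hm hPm
    have h1 := (hPtv i m hm hPm).trans (hTV i)
    have h2 : 4 * (m : ℝ) * b < 4 * b * p := lt_of_le_of_lt h1 hC1
    have h3 : (m : ℝ) < p := by
      by_contra h
      push Not at h
      nlinarith
    exact_mod_cast h3
  set A : Fin n → ℕ := fun i => Nat.findGreatest (P i) p with hAdef
  have hA1 : ∀ i, A i ≠ 0 → P i (A i) := fun i h => Nat.findGreatest_of_ne_zero rfl h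
  have hA2 : ∀ i m, 1 ≤ m → P i m → m ≤ A i := fun i m hm hPm =>
    Nat.le_findGreatest (hPlt i m hm hPm).le hPm
  have hA3 : ∀ i, A i < p := by
    intro i
    rcases Nat.eq_zero_or_pos (A i) with h | h
    · rw [h]; exact hpp.pos
    · exact hPlt i _ h (hA1 i h.ne')
  have hA4 : ∀ i, ¬ P i (A i + 1) := by
    intro i h
    have := hA2 i _ (Nat.succ_pos _) h
    omega
  have hA5 : ∀ i, 4 * b * (A i : ℝ) ≤
      ∑ k ∈ range (p * N), |uu f N a x i ((k : ℤ) + 1) - uu f N a x i k| := by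
    intro i
    rcases Nat.eq_zero_or_pos (A i) with h | h
    · rw [h]
      have : 0 ≤ ∑ k ∈ range (p * N), |uu f N a x i ((k : ℤ) + 1) - uu f N a x i k| :=
        Finset.sum_nonneg fun _ _ => abs_nonneg _
      simpa using this
    · refine le_trans (le_of_eq ?_) (hPtv i _ h (hA1 i h.ne'))
      ring
  have hAs : ∑ i, A i < n * j := by
    have h1 : 4 * b * (∑ i, (A i : ℝ)) < 4 * b * (n * j) := by
      rw [Finset.mul_sum]
      calc ∑ i, 4 * b * (A i : ℝ) ≤ Real.sqrt n * PP :=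
            (Finset.sum_le_sum fun i _ => hA5 i).trans hTVs
        _ < 4 * b * n * j := hC2
        _ = 4 * b * (n * j) := by ring
    have h2 := lt_of_mul_lt_mul_left h1 (by positivity)
    exact_mod_cast h2
  have hK : Set.ncard {t : Fin n × Fin (p - 1) | bt f N a b ((t.2 : ℕ) + 1) t.1 x ≠ 0} ≤
      n * j - 1 := by
    refine (zero_card A _ ?_).trans (by omega)
    intro t ht
    have h1 : bet (p * N) b ((t.2 : ℕ) + 1) (uu f N a x t.1) ≠ 0 := by
      intro h
      apply ht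
      unfold bt
      rw [h]
      simp
    have h2 := lt_of_le_of_ne (bet_nonneg (Nat.succ_pos _) (habs t.1)) (Ne.symm h1)
    exact hA2 _ _ (Nat.succ_pos _) ((bet_pos (Nat.succ_pos _) (habs t.1)).1 h2)
  have hne : ∃ t : Fin n × Fin (p - 1), bt f N a b ((t.2 : ℕ) + 1) t.1 x ≠ 0 := by
    obtain ⟨k, i, hki⟩ := frontier_UU H hx
    have hbi := bal_iff hM (hper i) (hbal i) b
    have hor : (∃ k, b < uu f N a x i k) ∨ (∃ k, uu f N a x i k < -b) := by
      have h1 : |uu f N a x i k| = a := hki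
      rcases abs_choice (uu f N a x i k) with h | h
      · left
        refine ⟨k, ?_⟩
        rw [h] at h1
        linarith
      · right
        refine ⟨k, ?_⟩
        rw [h] at h1
        linarith
    have hP' : ∃ k, b < uu f N a x i k := hor.elim id fun h => hbi.2 h
    have hN' : ∃ k, uu f N a x i k < -b := hbi.1 hP'
    obtain ⟨m, hm1, hm2, hm3⟩ := four hM hb.le (hper i) hP' hN' (A i) (hA4 i)
    have hAi : A i ≠ 0 := by omega
    obtain ⟨c, hc, halt⟩ := hA1 i hAi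
    have h1 : 0 < bet (p * N) b m (uu f N a x i) :=
      (bet_pos hm1 (habs i)).2 ⟨c, hc, alt_anti hm1 hm2 halt⟩
    have hlt := hA3 i
    refine ⟨(i, ⟨m - 1, by omega⟩), ?_⟩
    have h2 : (m - 1) + 1 = m := by omega
    simp only [h2]
    unfold bt
    exact mul_ne_zero (by exact_mod_cast h1.ne') (pow_ne_zero _ hm3)
  obtain ⟨s, hs, hs'⟩ := vand_ne node hnode
    (fun t => bt f N a b ((t.2 : ℕ) + 1) t.1 x) (n * j - 1) hK hne
  exact hs' (hF1 s hs)

end Pool.Agent.CubeE
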